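import Mathlib

set_option autoImplicit false

namespace Pool.Agent.Helper8.BM

open Finset Complex

/-- `1 + x + ... + x^k` -/
noncomputable def S (k : ℕ) (x : ℂ) : ℂ := ∑ j ∈ range (k + 1), x ^ j

/-- real polynomials with `x^j = pw j u + i w qw j u` on the circle `w^2 = u - u^2` -/
noncomputable def pw : ℕ → ℝ → ℝ × ℝ
  | 0, _ => (1, 0)
  | (j + 1), u => (u * (pw j u).1 - (u - u ^ 2) * (pw j u).2, (pw j u).1 + u * (pw j u).2)

lemma pow_eq_pw (x : ℂ) (hx : x.im ^ 2 = x.re - x.re ^ 2) (j : ℕ) :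
    (x ^ j).re = (pw j x.re).1 ∧ (x ^ j).im = x.im * (pw j x.re).2 := by
  induction j with
  | zero => simp [pw]
  | succ j ih =>
    obtain ⟨h1, h2⟩ := ih
    rw [pow_succ]
    constructor
    · rw [Complex.mul_re, h1, h2]
      simp only [pw]
      linear_combination (-(pw j x.re).2) * hx
    · rw [Complex.mul_im, h1, h2]
      simp only [pw]
      ring

/-- The function whose modulus is bounded below on the circle. -/
noncomputable def F (k : ℕ) (x : ℂ) : ℂ := S k x + x + (4 / 5) * x ^ k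

lemma normSq_F (k : ℕ) (x : ℂ) (hx : x.im ^ 2 = x.re - x.re ^ 2) :
    ‖F k x‖ ^ 2 = ((∑ j ∈ range (k + 1), (pw j x.re).1) + x.re + (4 / 5) * (pw k x.re).1) ^ 2
      + (x.re - x.re ^ 2) * ((∑ j ∈ range (k + 1), (pw j x.re).2) + 1
        + (4 / 5) * (pw k x.re).2) ^ 2 := by
  rw [← Complex.normSq_eq_norm_sq, Complex.normSq_apply]
  have hre : (F k x).re = (∑ j ∈ range (k + 1), (pw j x.re).1) + x.re
      + (4 / 5) * (pw k x.re).1 := by
    unfold F S
    rw [Complex.add_re, Complex.add_re, Complex.re_sum, Complex.mul_re]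
    rw [(pow_eq_pw x hx k).1]
    have : ((4 : ℂ) / 5).im = 0 := by
      have : ((4 : ℂ) / 5) = ((4 / 5 : ℝ) : ℂ) := by push_cast; ring
      rw [this]; exact Complex.ofReal_im _
    have h2 : ((4 : ℂ) / 5).re = 4 / 5 := by
      have : ((4 : ℂ) / 5) = ((4 / 5 : ℝ) : ℂ) := by push_cast; ring
      rw [this]; exact Complex.ofReal_re _
    rw [this, h2]
    have h3 : ∑ i ∈ range (k + 1), (x ^ i).re = ∑ j ∈ range (k + 1), (pw j x.re).1 :=
      Finset.sum_congr rfl (fun i _ => (pow_eq_pw x hx i).1)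
    rw [h3]; ring
  have him : (F k x).im = x.im * ((∑ j ∈ range (k + 1), (pw j x.re).2) + 1
      + (4 / 5) * (pw k x.re).2) := by
    unfold F S
    rw [Complex.add_im, Complex.add_im, Complex.im_sum, Complex.mul_im]
    rw [(pow_eq_pw x hx k).2]
    have : ((4 : ℂ) / 5).im = 0 := by
      have : ((4 : ℂ) / 5) = ((4 / 5 : ℝ) : ℂ) := by push_cast; ring
      rw [this]; exact Complex.ofReal_im _
    have h2 : ((4 : ℂ) / 5).re = 4 / 5 := by
      have : ((4 : ℂ) / 5) = ((4 / 5 : ℝ) : ℂ) := by push_cast; ring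
      rw [this]; exact Complex.ofReal_re _
    rw [this, h2]
    have h3 : ∑ i ∈ range (k + 1), (x ^ i).im = x.im * ∑ j ∈ range (k + 1), (pw j x.re).2 := by
      rw [Finset.mul_sum]
      exact Finset.sum_congr rfl (fun i _ => (pow_eq_pw x hx i).2)
    rw [h3]; ring
  rw [hre, him]
  linear_combination ((∑ j ∈ range (k + 1), (pw j x.re).2) + 1
        + (4 / 5) * (pw k x.re).2) ^ 2 * hx

lemma circle_rel (x : ℂ) (hx : ‖x - 1 / 2‖ = 1 / 2) : x.im ^ 2 = x.re - x.re ^ 2 := by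
  have h : ‖x - 1 / 2‖ ^ 2 = (1 / 2) ^ 2 := by rw [hx]
  rw [← Complex.normSq_eq_norm_sq, Complex.normSq_apply] at h
  simp at h
  nlinarith [h]

lemma circle_norm (x : ℂ) (hx : ‖x - 1 / 2‖ = 1 / 2) : ‖x‖ ^ 2 = x.re := by
  have h := circle_rel x hx
  rw [← Complex.normSq_eq_norm_sq, Complex.normSq_apply]
  nlinarith [h]

lemma le_of_sq_le_sq_aux {a b : ℝ} (h : a ^ 2 ≤ b ^ 2) (hb : 0 ≤ b) : a ≤ b :=
  le_of_abs_le ((sq_le_sq.mp h).trans_eq (abs_of_nonneg hb))

end Pool.Agent.Helper8.BM
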