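import Pool.Agent.Helper8.BM.Phi

set_option autoImplicit false
set_option maxHeartbeats 4000000

namespace Pool.Agent.Helper8.BM

open Complex MeasureTheory Metric Set Filter Topology

/-! ### coefficients at zero through dslope -/

/-- iterated slope at `0` -/
noncomputable def dsl (n : ℕ) (f : ℂ → ℂ) : ℂ := ((fun g : ℂ → ℂ => dslope g 0)^[n] f) 0

lemma dsl_zero (f : ℂ → ℂ) : dsl 0 f = f 0 := rfl

lemma dsl_succ (n : ℕ) (f : ℂ → ℂ) : dsl (n + 1) f = dsl n (dslope f 0) := rfl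

/-- the contour coefficient -/
noncomputable def cI (c : ℂ) (R : ℝ) (n : ℕ) (f : ℂ → ℂ) : ℂ :=
  (2 * Real.pi * I : ℂ)⁻¹ • ∮ z in C(c, R), (z ^ (n + 1))⁻¹ * f z

lemma cI_zero (c : ℂ) (R R' : ℝ) (hRR : R < R') (h0 : (0 : ℂ) ∈ ball c R) (f : ℂ → ℂ)
    (hf : DifferentiableOn ℂ f (ball c R')) : cI c R 0 f = f 0 := by
  have hd : DiffContOnCl ℂ f (ball c R) := by
    apply DifferentiableOn.diffContOnCl
    apply hf.mono
    exact closure_ball_subset_closedBall.trans (closedBall_subset_ball hRR)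
  have := hd.two_pi_i_inv_smul_circleIntegral_sub_inv_smul h0
  unfold cI
  simpa using this

lemma cI_succ (c : ℂ) (R R' : ℝ) (hRR : R < R') (h0 : (0 : ℂ) ∈ ball c R) (f : ℂ → ℂ)
    (hf : DifferentiableOn ℂ f (ball c R')) (n : ℕ) :
    cI c R (n + 1) f = cI c R n (dslope f 0) := by
  have hR : 0 < R := by
    have := (dist_nonneg).trans_lt (mem_ball.mp h0)
    exact this
  have hz : ∀ z ∈ sphere c R, z ≠ 0 := by
    intro z hz h
    rw [h] at hz
    have h1 := mem_ball.mp h0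
    have h2 := mem_sphere.mp hz
    linarith
  have hsub : sphere c R ⊆ ball c R' := sphere_subset_closedBall.trans (closedBall_subset_ball hRR)
  have h0' : (0 : ℂ) ∈ ball c R' := ball_subset_ball hRR.le h0
  have hds : DifferentiableOn ℂ (dslope f 0) (ball c R') := by
    rw [Complex.differentiableOn_dslope (isOpen_ball.mem_nhds h0')]
    exact hf
  have hcont1 : ContinuousOn (fun z : ℂ => (z ^ (n + 2))⁻¹ * f 0) (sphere c R) := by
    apply ContinuousOn.mul _ continuousOn_const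
    apply ContinuousOn.inv₀ (by fun_prop)
    intro z hz'
    exact pow_ne_zero _ (hz z hz')
  have hcont2 : ContinuousOn (fun z : ℂ => (z ^ (n + 1))⁻¹ * dslope f 0 z) (sphere c R) := by
    apply ContinuousOn.mul _ (hds.continuousOn.mono hsub)
    apply ContinuousOn.inv₀ (by fun_prop)
    intro z hz'
    exact pow_ne_zero _ (hz z hz')
  have e1 : (∮ z in C(c, R), (z ^ (n + 2))⁻¹ * f z) =
      ∮ z in C(c, R), ((z ^ (n + 2))⁻¹ * f 0 + (z ^ (n + 1))⁻¹ * dslope f 0 z) := by
    apply circleIntegral.integral_congr hR.le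
    intro z hz'
    have hz0 := hz z hz'
    have h3 : z * dslope f 0 z = f z - f 0 := by
      have := sub_smul_dslope f 0 z
      simpa using this
    have h4 : f z = f 0 + z * dslope f 0 z := by rw [h3]; ring
    dsimp only
    rw [h4]
    field_simp
    ring
  have e2 : (∮ z in C(c, R), ((z ^ (n + 2))⁻¹ * f 0 + (z ^ (n + 1))⁻¹ * dslope f 0 z))
      = (∮ z in C(c, R), ((z ^ (n + 2))⁻¹ * f 0))
        + ∮ z in C(c, R), ((z ^ (n + 1))⁻¹ * dslope f 0 z) :=
    circleIntegral.integral_add (hcont1.circleIntegrable hR.le) (hcont2.circleIntegrable hR.le)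
  have e3 : (∮ z in C(c, R), ((z ^ (n + 2))⁻¹ * f 0)) = 0 := by
    have h5 : (∮ z in C(c, R), ((z ^ (n + 2))⁻¹ * f 0))
        = ∮ z in C(c, R), (f 0 * (z - 0) ^ (-((n : ℤ) + 2))) := by
      apply circleIntegral.integral_congr hR.le
      intro z hz'
      dsimp only
      rw [sub_zero, zpow_neg, mul_comm]
      norm_cast
    rw [h5, circleIntegral.integral_const_mul,
      circleIntegral.integral_sub_zpow_of_ne (by omega), mul_zero]
  unfold cI
  rw [e1, e2, e3, zero_add]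

lemma cI_eq_dsl (c : ℂ) (R R' : ℝ) (hRR : R < R') (h0 : (0 : ℂ) ∈ ball c R) (n : ℕ) :
    ∀ (f : ℂ → ℂ), DifferentiableOn ℂ f (ball c R') → cI c R n f = dsl n f := by
  have h0' : (0 : ℂ) ∈ ball c R' := ball_subset_ball hRR.le h0
  induction n with
  | zero =>
    intro f hf
    rw [cI_zero c R R' hRR h0 f hf, dsl_zero]
  | succ n ih =>
    intro f hf
    rw [cI_succ c R R' hRR h0 f hf, dsl_succ]
    apply ih
    rw [Complex.differentiableOn_dslope (isOpen_ball.mem_nhds h0')]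
    exact hf

/-! ### The Borel transform as a contour integral -/

/-- Laplace-type contour integral -/
noncomputable def Lam (R : ℝ) (f : ℂ → ℂ) (t : ℝ) : ℂ :=
  (2 * Real.pi * I : ℂ)⁻¹ • ∮ z in C(1 / 2, R), z⁻¹ * exp (t / z) * f z

lemma norm_ge_of_sphere {R : ℝ} {z : ℂ} (hz : z ∈ sphere (1 / 2 : ℂ) R) : R - 1 / 2 ≤ ‖z‖ := by
  have h1 := mem_sphere.mp hz
  rw [dist_eq_norm] at h1
  have h2 := norm_sub_le z (1 / 2)
  have h3 : ‖(1 / 2 : ℂ)‖ = 1 / 2 := by
    rw [show (1 / 2 : ℂ) = ((1 / 2 : ℝ) : ℂ) by push_cast; ring, Complex.norm_real]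
    norm_num
  linarith

lemma re_div_le {R : ℝ} (hR : 1 / 2 < R) {z : ℂ} (hz : z ∈ sphere (1 / 2 : ℂ) R) (t : ℝ)
    (ht : 0 ≤ t) : ((t : ℂ) / z).re ≤ t / (1 / 2 + R) := by
  have h1 := mem_sphere.mp hz
  rw [dist_eq_norm] at h1
  have h2 : ‖z - 1 / 2‖ ^ 2 = R ^ 2 := by rw [h1]
  rw [Complex.sq_norm, Complex.normSq_apply] at h2
  simp only [sub_re, sub_im, one_div, inv_re, inv_im] at h2
  norm_num [Complex.normSq_apply] at h2
  have hzpos : 0 < ‖z‖ := lt_of_lt_of_le (by linarith) (norm_ge_of_sphere hz)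
  have hz2 : 0 < ‖z‖ ^ 2 := by positivity
  rw [Complex.sq_norm, Complex.normSq_apply] at hz2
  rw [Complex.div_re, Complex.normSq_apply]
  simp only [ofReal_re, ofReal_im, zero_mul, zero_div, add_zero]
  rw [div_le_div_iff₀ hz2 (by linarith)]
  have h3 : z.re * (1 / 2 + R) ≤ z.re * z.re + z.im * z.im := by
    have h4 : z.re * z.re + z.im * z.im = z.re + (R ^ 2 - 1 / 4) := by nlinarith
    rw [h4]
    have h5 : z.re ≤ 1 / 2 + R := by
      nlinarith [sq_nonneg z.im, sq_nonneg (z.re - 1 / 2)]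
    nlinarith
  nlinarith

lemma Lam_integrand_bound {R : ℝ} (hR : 1 / 2 < R) {f : ℂ → ℂ} {M : ℝ}
    (hM : ∀ z ∈ sphere (1 / 2 : ℂ) R, ‖f z‖ ≤ M) (t : ℝ) (ht : 0 ≤ t) :
    ∀ z ∈ sphere (1 / 2 : ℂ) R,
      ‖z⁻¹ * exp (t / z) * f z‖ ≤ (R - 1 / 2)⁻¹ * Real.exp (t / (1 / 2 + R)) * M := by
  intro z hz
  rw [norm_mul, norm_mul, norm_inv, Complex.norm_exp]
  have h1 := norm_ge_of_sphere hz
  have h2 := re_div_le hR hz t ht
  have h3 := hM z hz
  have h4 : 0 < R - 1 / 2 := by linarith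
  gcongr

lemma Lam_bound {R : ℝ} (hR : 1 / 2 < R) {f : ℂ → ℂ} {M : ℝ}
    (hM : ∀ z ∈ sphere (1 / 2 : ℂ) R, ‖f z‖ ≤ M) (t : ℝ) (ht : 0 ≤ t) :
    ‖Lam R f t‖ ≤ R * ((R - 1 / 2)⁻¹ * Real.exp (t / (1 / 2 + R)) * M) := by
  unfold Lam
  exact circleIntegral.norm_two_pi_i_inv_smul_integral_le_of_norm_le_const (by linarith)
    (Lam_integrand_bound hR hM t ht)

lemma sphere_ne_zero {R : ℝ} (hR : 1 / 2 < R) {z : ℂ} (hz : z ∈ sphere (1 / 2 : ℂ) R) :
    z ≠ 0 := by
  have := norm_ge_of_sphere hz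
  exact norm_pos_iff.mp (by linarith)

lemma Lam_sub {R : ℝ} (hR : 1 / 2 < R) {f h : ℂ → ℂ}
    (hf : ContinuousOn f (sphere (1 / 2 : ℂ) R)) (hh : ContinuousOn h (sphere (1 / 2 : ℂ) R))
    (t : ℝ) : Lam R (fun z => f z - h z) t = Lam R f t - Lam R h t := by
  unfold Lam
  rw [← smul_sub]
  congr 1
  have hc : ∀ f : ℂ → ℂ, ContinuousOn f (sphere (1 / 2 : ℂ) R) →
      CircleIntegrable (fun z => z⁻¹ * exp (t / z) * f z) (1 / 2) R := by
    intro f hf
    apply ContinuousOn.circleIntegrable (by linarith)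
    apply ContinuousOn.mul _ hf
    apply ContinuousOn.mul
    · exact continuousOn_inv₀.mono (fun z hz => sphere_ne_zero hR hz)
    · apply Continuous.comp_continuousOn continuous_exp
      exact continuousOn_const.div continuousOn_id (fun z hz => sphere_ne_zero hR hz)
  rw [← circleIntegral.integral_sub (hc f hf) (hc h hh)]
  congr 1
  ext z
  ring

/-- the power series of the Borel transform -/
lemma Lam_hasSum {R : ℝ} (hR : 1 / 2 < R) {f : ℂ → ℂ}
    (hf : ContinuousOn f (sphere (1 / 2 : ℂ) R)) (t : ℝ) :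
    HasSum (fun n : ℕ => cI (1 / 2) R n f * t ^ n / (n.factorial : ℂ)) (Lam R f t) := by
  have hR0 : 0 ≤ R := by linarith
  obtain ⟨M, hM⟩ : ∃ M : ℝ, ∀ z ∈ sphere (1 / 2 : ℂ) R, ‖f z‖ ≤ M :=
    (isCompact_sphere _ _).exists_bound_of_continuousOn hf
  have key : HasSum (fun n : ℕ => ∮ z in C(1 / 2, R),
      z⁻¹ * ((t / z) ^ n / (n.factorial : ℂ)) * f z)
      (∮ z in C(1 / 2, R), z⁻¹ * exp (t / z) * f z) := by
    unfold circleIntegral
    refine intervalIntegral.hasSum_integral_of_dominated_convergence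
      (bound := fun n _ => R * ((R - 1 / 2)⁻¹ * ((|t| * (R - 1 / 2)⁻¹) ^ n / (n.factorial : ℝ)) * M))
      ?_ ?_ ?_ ?_ ?_
    · intro n
      apply Continuous.aestronglyMeasurable
      simp only [deriv_circleMap, smul_eq_mul]
      have hcf : Continuous (fun θ : ℝ => f (circleMap (1 / 2) R θ)) := by
        apply hf.comp_continuous (continuous_circleMap _ _)
        intro θ
        exact circleMap_mem_sphere _ hR0 θ
      have hci : Continuous (fun θ : ℝ => (circleMap (1 / 2) R θ)⁻¹) :=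
        (continuous_circleMap _ _).inv₀
          (fun θ => sphere_ne_zero hR (circleMap_mem_sphere _ hR0 θ))
      have hc0 : Continuous (fun θ : ℝ => circleMap 0 R θ * I) := by fun_prop
      exact hc0.mul ((hci.mul (((continuous_const.mul hci).pow n).div_const _)).mul hcf)
    · intro n
      refine Eventually.of_forall (fun θ _ => ?_)
      have hz := circleMap_mem_sphere (1 / 2 : ℂ) hR0 θ
      have h1 := norm_ge_of_sphere hz
      have h3 := hM _ hz
      have h4 : 0 < R - 1 / 2 := by linarith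
      simp only [deriv_circleMap, norm_smul, norm_mul, norm_circleMap_zero, norm_I, mul_one,
        abs_of_nonneg hR0, norm_inv, norm_div, norm_pow, Complex.norm_real, Complex.norm_natCast,
        Real.norm_eq_abs]
      rw [div_eq_mul_inv |t|]
      gcongr
    · refine Eventually.of_forall (fun θ _ => ?_)
      have h5 : Summable (fun n : ℕ => (|t| * (R - 1 / 2)⁻¹) ^ n / (n.factorial : ℝ)) :=
        Real.summable_pow_div_factorial _
      exact ((h5.mul_left _).mul_right _).mul_left _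
    · simp
    · refine Eventually.of_forall (fun θ _ => ?_)
      have h6 := NormedSpace.expSeries_div_hasSum_exp (𝔸 := ℂ) (t / circleMap (1 / 2) R θ)
      rw [← Complex.exp_eq_exp_ℂ] at h6
      have h7 := (h6.mul_left ((circleMap (1 / 2) R θ)⁻¹)).mul_right (f (circleMap (1 / 2) R θ))
      exact h7.const_smul _
  have key2 := key.const_smul ((2 * Real.pi * I : ℂ)⁻¹)
  unfold Lam
  convert key2 using 1
  ext n
  have hn : (n.factorial : ℂ) ≠ 0 := by exact_mod_cast n.factorial_ne_zero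
  have e1 : (∮ z in C(1 / 2, R), z⁻¹ * ((t / z) ^ n / (n.factorial : ℂ)) * f z)
      = ((t : ℂ) ^ n / (n.factorial : ℂ)) * ∮ z in C(1 / 2, R), (z ^ (n + 1))⁻¹ * f z := by
    rw [← circleIntegral.integral_const_mul]
    apply circleIntegral.integral_congr hR0
    intro z hz
    have hz0 := sphere_ne_zero hR hz
    dsimp only
    rw [div_pow]
    field_simp
    ring
  rw [e1]
  unfold cI
  rw [smul_eq_mul, smul_eq_mul]
  ring

/-- the kernel on the product space -/
noncomputable def GG (R : ℝ) (f : ℂ → ℂ) (θ t : ℝ) : ℂ :=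
  circleMap 0 R θ * I * ((circleMap (1 / 2) R θ)⁻¹ * exp (t / circleMap (1 / 2) R θ)
    * f (circleMap (1 / 2) R θ)) * (Real.exp (-t) : ℂ)

lemma GG_cont {R : ℝ} (hR : 1 / 2 < R) {f : ℂ → ℂ}
    (hf : ContinuousOn f (sphere (1 / 2 : ℂ) R)) :
    Continuous (fun p : ℝ × ℝ => GG R f p.1 p.2) := by
  have hR0 : 0 ≤ R := by linarith
  have hcf : Continuous (fun θ : ℝ => f (circleMap (1 / 2) R θ)) := by
    apply hf.comp_continuous (continuous_circleMap _ _)
    intro θ
    exact circleMap_mem_sphere _ hR0 θ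
  have hci : Continuous (fun θ : ℝ => (circleMap (1 / 2) R θ)⁻¹) :=
    (continuous_circleMap _ _).inv₀
      (fun θ => sphere_ne_zero hR (circleMap_mem_sphere _ hR0 θ))
  have hc0 : Continuous (fun θ : ℝ => circleMap 0 R θ * I) := by fun_prop
  unfold GG
  have h1 : Continuous (fun p : ℝ × ℝ => exp ((p.2 : ℂ) / circleMap (1 / 2) R p.1)) := by
    apply continuous_exp.comp
    exact (continuous_ofReal.comp continuous_snd).mul (hci.comp continuous_fst)
  have h2 : Continuous (fun p : ℝ × ℝ => (Real.exp (-p.2) : ℂ)) := by fun_prop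
  exact ((hc0.comp continuous_fst).mul (((hci.comp continuous_fst).mul h1).mul
    (hcf.comp continuous_fst))).mul h2

lemma GG_bound {R : ℝ} (hR : 1 / 2 < R) {f : ℂ → ℂ} {M : ℝ}
    (hM : ∀ z ∈ sphere (1 / 2 : ℂ) R, ‖f z‖ ≤ M) (θ t : ℝ) (ht : 0 ≤ t) :
    ‖GG R f θ t‖ ≤ (R * ((R - 1 / 2)⁻¹ * M)) * Real.exp (-(1 - 1 / (1 / 2 + R)) * t) := by
  have hR0 : 0 ≤ R := by linarith
  have hz := circleMap_mem_sphere (1 / 2 : ℂ) hR0 θ
  have h1 := Lam_integrand_bound hR hM t ht _ hz
  unfold GG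
  rw [norm_mul, norm_mul, norm_mul (circleMap 0 R θ), norm_circleMap_zero, norm_I, mul_one,
    abs_of_nonneg hR0, Complex.norm_real, Real.norm_of_nonneg (Real.exp_pos _).le]
  calc _ ≤ R * ((R - 1 / 2)⁻¹ * Real.exp (t / (1 / 2 + R)) * M) * Real.exp (-t) := by
        gcongr
    _ = (R * ((R - 1 / 2)⁻¹ * M)) * (Real.exp (t / (1 / 2 + R)) * Real.exp (-t)) := by ring
    _ = _ := by
        rw [← Real.exp_add]
        congr 2
        ring

lemma GG_integrable {R : ℝ} (hR : 1 / 2 < R) {f : ℂ → ℂ}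
    (hf : ContinuousOn f (sphere (1 / 2 : ℂ) R)) :
    Integrable (Function.uncurry (GG R f))
      ((volume.restrict (Ioc 0 (2 * Real.pi))).prod (volume.restrict (Ioi (0 : ℝ)))) := by
  have hR0 : 0 ≤ R := by linarith
  obtain ⟨M, hM⟩ : ∃ M : ℝ, ∀ z ∈ sphere (1 / 2 : ℂ) R, ‖f z‖ ≤ M :=
    (isCompact_sphere _ _).exists_bound_of_continuousOn hf
  have hδ : 0 < 1 - 1 / (1 / 2 + R) := by
    rw [sub_pos, div_lt_one (by linarith)]
    linarith
  have hg : Integrable (fun t : ℝ => Real.exp (-(1 - 1 / (1 / 2 + R)) * t))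
      (volume.restrict (Ioi (0 : ℝ))) := by
    have := integrableOn_exp_mul_Ioi (a := -(1 - 1 / (1 / 2 + R))) (by linarith) 0
    exact this
  have hc : Integrable (fun _ : ℝ => R * ((R - 1 / 2)⁻¹ * M))
      (volume.restrict (Ioc 0 (2 * Real.pi))) := integrable_const _
  have hb := hc.mul_prod hg
  refine Integrable.mono' hb (GG_cont hR hf).aestronglyMeasurable ?_
  rw [Measure.prod_restrict]
  apply ae_restrict_of_forall_mem (measurableSet_Ioc.prod measurableSet_Ioi)
  rintro ⟨θ, t⟩ ⟨_, ht⟩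
  exact GG_bound hR hM θ t (le_of_lt ht)

lemma Lam_eq_GG {R : ℝ} (f : ℂ → ℂ) (t : ℝ) :
    Lam R f t * (Real.exp (-t) : ℂ)
      = (2 * Real.pi * I : ℂ)⁻¹ * ∫ θ in Ioc 0 (2 * Real.pi), GG R f θ t := by
  unfold Lam circleIntegral GG
  rw [intervalIntegral.integral_of_le (by positivity), smul_eq_mul, mul_assoc]
  congr 1
  rw [← integral_mul_const]
  simp only [deriv_circleMap, smul_eq_mul]

lemma Lam_integrable {R : ℝ} (hR : 1 / 2 < R) {f : ℂ → ℂ}
    (hf : ContinuousOn f (sphere (1 / 2 : ℂ) R)) :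
    IntegrableOn (fun t : ℝ => Lam R f t * (Real.exp (-t) : ℂ)) (Ioi 0) := by
  have h := (GG_integrable hR hf).integral_prod_right
  have h2 := h.const_mul ((2 * Real.pi * I : ℂ)⁻¹)
  refine h2.congr (Eventually.of_forall (fun t => ?_))
  exact (Lam_eq_GG f t).symm

lemma one_mem_ball {R : ℝ} (hR : 1 / 2 < R) : (1 : ℂ) ∈ ball (1 / 2 : ℂ) R := by
  rw [mem_ball, dist_eq_norm, show (1 - 1 / 2 : ℂ) = ((1 / 2 : ℝ) : ℂ) by push_cast; ring,
    Complex.norm_real]
  norm_num
  linarith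

lemma zero_mem_ball {R : ℝ} (hR : 1 / 2 < R) : (0 : ℂ) ∈ ball (1 / 2 : ℂ) R := by
  rw [mem_ball, dist_eq_norm, show (0 - 1 / 2 : ℂ) = ((-(1 / 2) : ℝ) : ℂ) by push_cast; ring,
    Complex.norm_real]
  norm_num
  linarith

lemma Lam_integral {R R' : ℝ} (hR : 1 / 2 < R) (hRR : R < R') {f : ℂ → ℂ}
    (hf : DifferentiableOn ℂ f (ball (1 / 2 : ℂ) R')) :
    ∫ t in Ioi (0 : ℝ), Lam R f t * (Real.exp (-t) : ℂ) = f 1 := by
  have hR0 : 0 ≤ R := by linarith
  have hsub : sphere (1 / 2 : ℂ) R ⊆ ball (1 / 2) R' :=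
    sphere_subset_closedBall.trans (closedBall_subset_ball hRR)
  have hfc : ContinuousOn f (sphere (1 / 2 : ℂ) R) := hf.continuousOn.mono hsub
  simp_rw [Lam_eq_GG]
  rw [integral_const_mul, ← integral_integral_swap (GG_integrable hR hfc)]
  have e1 : ∀ θ : ℝ, ∫ t in Ioi (0 : ℝ), GG R f θ t
      = circleMap 0 R θ * I * ((circleMap (1 / 2) R θ - 1)⁻¹ * f (circleMap (1 / 2) R θ)) := by
    intro θ
    set w := circleMap (1 / 2) R θ with hw
    have hz : w ∈ sphere (1 / 2 : ℂ) R := circleMap_mem_sphere (1 / 2 : ℂ) hR0 θ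
    have hw0 : w ≠ 0 := sphere_ne_zero hR hz
    have hw1 : w - 1 ≠ 0 := by
      intro h
      have h1 : w = 1 := by linear_combination h
      rw [h1] at hz
      have h2 := mem_ball.mp (one_mem_ball hR)
      have h3 := mem_sphere.mp hz
      linarith
    have e2 : ∀ t : ℝ, GG R f θ t = (circleMap 0 R θ * I * (w⁻¹ * f w)) *
        exp ((w⁻¹ - 1) * t) := by
      intro t
      unfold GG
      rw [← hw, show (w⁻¹ - 1) * (t : ℂ) = t / w + (-t : ℂ) by ring, Complex.exp_add]
      push_cast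
      ring
    simp_rw [e2]
    rw [integral_const_mul, integral_exp_mul_complex_Ioi]
    · simp only [ofReal_zero, mul_zero, Complex.exp_zero]
      have : w⁻¹ - 1 ≠ 0 := by
        intro h
        apply hw1
        field_simp at h
        linear_combination -h
      have h5 : w⁻¹ - 1 = -((w - 1) / w) := by field_simp; ring
      rw [h5]
      field_simp
    · have := re_div_le hR hz 1 (by norm_num)
      rw [sub_re, one_re]
      have h6 : ((1 : ℝ) : ℂ) / w = w⁻¹ := by push_cast; rw [one_div]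
      rw [h6] at this
      have h7 : 1 / (1 / 2 + R) < 1 := by
        rw [div_lt_one (by linarith)]
        linarith
      linarith
  simp_rw [e1]
  have hd : DiffContOnCl ℂ f (ball (1 / 2 : ℂ) R) := by
    apply DifferentiableOn.diffContOnCl
    apply hf.mono
    exact closure_ball_subset_closedBall.trans (closedBall_subset_ball hRR)
  have := hd.two_pi_i_inv_smul_circleIntegral_sub_inv_smul (one_mem_ball hR)
  rw [← this]
  unfold circleIntegral
  rw [intervalIntegral.integral_of_le (by positivity), smul_eq_mul]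
  simp only [deriv_circleMap, smul_eq_mul]

end Pool.Agent.Helper8.BM
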