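import Pool.Agent.Helper8.BM.Maps

set_option autoImplicit false
set_option maxHeartbeats 4000000

namespace Pool.Agent.Helper8.BM

open Finset Complex Metric ComplexConjugate

noncomputable def kap : ℝ := 179400 / 179401

lemma kap_pos : 0 < kap := by unfold kap; norm_num
lemma kap_lt_one : kap < 1 := by unfold kap; norm_num

lemma normSq_id (a b : ℂ) : ‖1 - conj a * b‖ ^ 2 - ‖b - a‖ ^ 2
    = (1 - ‖a‖ ^ 2) * (1 - ‖b‖ ^ 2) := by
  simp only [← Complex.normSq_eq_norm_sq, Complex.normSq_apply]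
  simp
  ring

lemma moebius_bound (a b : ℂ) (ha : ‖a‖ ≤ 299 / 300) (hb : ‖b‖ ≤ 299 / 300) :
    1 - conj a * b ≠ 0 ∧ ‖(b - a) / (1 - conj a * b)‖ ≤ kap := by
  have hab : ‖conj a * b‖ ≤ (299 / 300) * (299 / 300) := by
    rw [norm_mul, Complex.norm_conj]
    gcongr
  have h1 : 1 - (299 / 300) * (299 / 300) ≤ ‖1 - conj a * b‖ := by
    have := norm_sub_norm_le 1 (conj a * b)
    rw [norm_one] at this
    linarith
  have h2 : ‖1 - conj a * b‖ ≤ 1 + (299 / 300) * (299 / 300) := by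
    have := norm_sub_le 1 (conj a * b)
    rw [norm_one] at this
    linarith
  have hpos : 0 < ‖1 - conj a * b‖ := lt_of_lt_of_le (by norm_num) h1
  refine ⟨norm_pos_iff.mp hpos, ?_⟩
  rw [norm_div, div_le_iff₀ hpos]
  refine le_of_sq_le_sq_aux ?_ (mul_nonneg kap_pos.le (norm_nonneg _))
  have hid := normSq_id a b
  have ha2 : ‖a‖ ^ 2 ≤ (299 / 300) ^ 2 := pow_le_pow_left₀ (norm_nonneg _) ha 2
  have hb2 : ‖b‖ ^ 2 ≤ (299 / 300) ^ 2 := pow_le_pow_left₀ (norm_nonneg _) hb 2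
  have h3 : (1 - (299 / 300) ^ 2) * (1 - (299 / 300) ^ 2) ≤ (1 - ‖a‖ ^ 2) * (1 - ‖b‖ ^ 2) := by
    apply mul_le_mul (by linarith) (by linarith) (by norm_num) (by linarith)
  have h4 : ‖1 - conj a * b‖ ^ 2 ≤ (1 + (299 / 300) * (299 / 300)) ^ 2 :=
    pow_le_pow_left₀ (norm_nonneg _) h2 2
  rw [mul_pow]
  have h5 : (1 - kap ^ 2) * (1 + (299 / 300) * (299 / 300)) ^ 2
      = (1 - (299 / 300) ^ 2) * (1 - (299 / 300) ^ 2) := by
    unfold kap; norm_num
  have h6 : 0 ≤ 1 - kap ^ 2 := by unfold kap; norm_num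
  nlinarith [mul_le_mul_of_nonneg_left h4 h6]

/-- Oscillation contraction (Schwarz lemma). -/
lemma osc_contract (f : ℂ → ℂ) (hf : DifferentiableOn ℂ f (ball 1 (3 / 2))) (M : ℝ)
    (hM : ∀ X ∈ ball (1 : ℂ) (3 / 2), ∀ X' ∈ ball (1 : ℂ) (3 / 2), ‖f X - f X'‖ ≤ M)
    (X X' : ℂ) (hX : ‖X - 1‖ ≤ 299 / 200) (hX' : ‖X' - 1‖ ≤ 299 / 200) :
    ‖f X - f X'‖ ≤ kap * M := by
  set a : ℂ := (X' - 1) * (2 / 3) with ha
  set b : ℂ := (X - 1) * (2 / 3) with hb
  have h23 : ‖(2 / 3 : ℂ)‖ = 2 / 3 := by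
    rw [show (2 / 3 : ℂ) = ((2 / 3 : ℝ) : ℂ) by push_cast; ring, Complex.norm_real]
    norm_num
  have h32 : ‖(3 / 2 : ℂ)‖ = 3 / 2 := by
    rw [show (3 / 2 : ℂ) = ((3 / 2 : ℝ) : ℂ) by push_cast; ring, Complex.norm_real]
    norm_num
  have han : ‖a‖ ≤ 299 / 300 := by rw [ha, norm_mul, h23]; linarith
  have hbn : ‖b‖ ≤ 299 / 300 := by rw [hb, norm_mul, h23]; linarith
  obtain ⟨hne, hz⟩ := moebius_bound a b han hbn
  set φ : ℂ → ℂ := fun z => 1 + (3 / 2) * ((z + a) / (1 + conj a * z)) with hφ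
  have hden : ∀ z ∈ ball (0 : ℂ) 1, 1 + conj a * z ≠ 0 := by
    intro z hz h
    have hz1 : ‖z‖ < 1 := by simpa using hz
    have : conj a * z = -1 := by linear_combination h
    have h2 : ‖conj a * z‖ = 1 := by rw [this]; simp
    rw [norm_mul, Complex.norm_conj] at h2
    nlinarith [norm_nonneg z, norm_nonneg a]
  have hmaps : Set.MapsTo φ (ball 0 1) (ball 1 (3 / 2)) := by
    intro z hz
    have hz1 : ‖z‖ < 1 := by simpa using hz
    have hd := hden z hz
    have hdp : 0 < ‖1 + conj a * z‖ := norm_pos_iff.mpr hd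
    rw [mem_ball, dist_eq_norm, hφ]
    simp only [add_sub_cancel_left]
    rw [norm_mul, h32, norm_div]
    have h1 : ‖z + a‖ / ‖1 + conj a * z‖ < 1 := by
      rw [div_lt_one hdp]
      have hid := normSq_id (-a) z
      simp only [map_neg, neg_mul, sub_neg_eq_add, norm_neg] at hid
      have h3 : 0 < (1 - ‖a‖ ^ 2) * (1 - ‖z‖ ^ 2) := by
        apply mul_pos
        · nlinarith [norm_nonneg a]
        · nlinarith [norm_nonneg z]
      by_contra hle
      push Not at hle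
      have := pow_le_pow_left₀ (norm_nonneg _) hle 2
      linarith
    linarith
  have hφd : DifferentiableOn ℂ φ (ball 0 1) := by
    rw [hφ]
    apply DifferentiableOn.const_add
    apply DifferentiableOn.const_mul
    apply DifferentiableOn.div
    · fun_prop
    · fun_prop
    · exact hden
  have hcomp : DifferentiableOn ℂ (f ∘ φ) (ball 0 1) := hf.comp hφd hmaps
  have hφ0 : φ 0 = X' := by
    rw [hφ, ha]; simp; ring
  have hmaps2 : Set.MapsTo (f ∘ φ) (ball 0 1) (closedBall ((f ∘ φ) 0) M) := by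
    intro z hz
    rw [mem_closedBall, dist_eq_norm]
    exact hM _ (hmaps hz) _ (hmaps (by simp))
  set z0 : ℂ := (b - a) / (1 - conj a * b) with hz0
  have hz0mem : z0 ∈ ball (0 : ℂ) 1 := by
    rw [mem_ball, dist_zero_right]
    exact lt_of_le_of_lt hz kap_lt_one
  have hφz : φ z0 = X := by
    have hd := hden z0 hz0mem
    have h1 : (z0 + a) / (1 + conj a * z0) = b := by
      rw [div_eq_iff hd]
      have hzD : z0 * (1 - conj a * b) = b - a := by rw [hz0]; exact div_mul_cancel₀ _ hne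
      have h2 : (z0 + a - b * (1 + conj a * z0)) * (1 - conj a * b) = 0 := by
        linear_combination (1 - b * conj a) * hzD
      rcases mul_eq_zero.mp h2 with h3 | h3
      · linear_combination h3
      · exact absurd h3 hne
    rw [hφ]
    simp only
    rw [h1, hb]
    ring
  have key := Complex.dist_le_div_mul_dist_of_mapsTo_ball hcomp hmaps2 hz0mem
  rw [dist_eq_norm, dist_zero_right, div_one] at key
  simp only [Function.comp_apply, hφz, hφ0] at key
  have hM0 : 0 ≤ M := by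
    have := hM 1 (by simp) 1 (by simp)
    simpa using this
  calc _ ≤ M * ‖z0‖ := key
    _ ≤ M * kap := by gcongr
    _ = kap * M := by ring

end Pool.Agent.Helper8.BM
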