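import Mathlib

set_option autoImplicit false

namespace Pool.Agent.Helper8.BM

open Finset

/-- The rational functions `Q_n`, as real functions of `z`:
`Q_0(z) = -1 / (2 z)` and, for `n ≥ 0`,
`Q_{n+1}(z) = (1/2) * ∑_{j=0}^{n} (1 / j!) * Q_{n-j}^{(j)}(-1) * (z ^ j - 1 / z ^ (j + 2))`. -/
noncomputable def Qfun : ℕ → ℝ → ℝ
  | 0 => fun z => -1 / (2 * z)
  | n + 1 => fun z => (1 / 2) * ∑ j : Fin (n + 1),
      1 / ((j : ℕ).factorial : ℝ) * iteratedDeriv (j : ℕ) (Qfun (n - (j : ℕ))) (-1)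
        * (z ^ (j : ℕ) - 1 / z ^ ((j : ℕ) + 2))
  termination_by n => n
  decreasing_by omega

/-- `Λ(t) = ∑ Q_n'(-1) / n! * t ^ n`. -/
noncomputable def Lambda (t : ℝ) : ℝ :=
  ∑' n : ℕ, deriv (Qfun n) (-1) / (n.factorial : ℝ) * t ^ n

/-- The partial denominator `a_{n+1}` of the regular continued fraction
`x = [a_0; a_1, a_2, ...]` (`none` when the expansion has stopped before). -/
noncomputable def cfDigit (x : ℝ) (n : ℕ) : Option ℝ := (GenContFract.of x).partDens.get? n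

/-- The term `(-1) ^ n * 2 ^ (1 - (a_1 + ... + a_{n+1}))` of the series of the question mark
function, and `0` when the expansion has stopped before. -/
noncomputable def qmTerm (x : ℝ) (n : ℕ) : ℝ :=
  if (cfDigit x n).isSome then
    (-1) ^ n * (2 : ℝ) ^ (1 - ∑ i ∈ range (n + 1), (cfDigit x i).getD 0)
  else 0

/-- The Minkowski question mark function on the real line:
`?([a_0; a_1, a_2, ...]) = a_0 + 2 ^ (1 - a_1) - 2 ^ (1 - (a_1 + a_2)) + ...`. -/
noncomputable def qmark (x : ℝ) : ℝ := ⌊x⌋ + ∑' n : ℕ, qmTerm x n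

end Pool.Agent.Helper8.BM
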