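import Mathlib

set_option autoImplicit false
set_option maxHeartbeats 4000000

namespace Pool.Agent.Helper8.BM

open Complex Metric Set Filter Topology Finset

/-- Taylor coefficients at `-1` of `z ^ j - 1 / z ^ (j + 2)` -/
noncomputable def tc (j k : ℕ) : ℝ :=
  (j.choose k : ℝ) * (-1) ^ (j - k) - (-1) ^ j * ((k + (j + 1)).choose (j + 1) : ℝ)

/-- the recursion of the Taylor coefficients -/
structure IsQ (q : ℕ → ℕ → ℝ) : Prop where
  zero : ∀ k, q 0 k = 1 / 2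
  succ : ∀ n k, q (n + 1) k = (1 / 2) * ∑ j ∈ range (n + 1), q (n - j) j * tc j k

lemma tc_bound (j k : ℕ) : |tc j k| ≤ 3 * 2 ^ j * 2 ^ k := by
  unfold tc
  have h1 : ((j.choose k : ℕ) : ℝ) ≤ 2 ^ j := by exact_mod_cast Nat.choose_le_two_pow j k
  have h2 : (((k + (j + 1)).choose (j + 1) : ℕ) : ℝ) ≤ 2 ^ (k + (j + 1)) := by
    exact_mod_cast Nat.choose_le_two_pow _ _
  have h3 : (1 : ℝ) ≤ 2 ^ k := one_le_pow₀ (by norm_num)
  have h4 : (0 : ℝ) < 2 ^ j := by positivity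
  calc _ ≤ |(j.choose k : ℝ) * (-1) ^ (j - k)| + |(-1) ^ j * ((k + (j + 1)).choose (j + 1) : ℝ)| :=
        abs_sub _ _
    _ = (j.choose k : ℝ) + ((k + (j + 1)).choose (j + 1) : ℝ) := by
        rw [abs_mul, abs_mul, abs_pow, abs_pow, abs_neg, abs_one, one_pow, one_pow, mul_one,
          one_mul, Nat.abs_cast, Nat.abs_cast]
    _ ≤ 2 ^ j + 2 ^ (k + (j + 1)) := add_le_add h1 h2
    _ = 2 ^ j * (1 + 2 * 2 ^ k) := by ring
    _ ≤ 2 ^ j * (3 * 2 ^ k) := by
        gcongr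
        linarith
    _ = _ := by ring

lemma geo_aux (n : ℕ) : ∑ j ∈ range (n + 1), (6 : ℝ) ^ (n - j) * 4 ^ j ≤ 3 * 6 ^ n := by
  have h : ∑ j ∈ range (n + 1), (6 : ℝ) ^ (n - j) * 4 ^ j = (6 ^ (n + 1) - 4 ^ (n + 1)) / 2 := by
    induction n with
    | zero => norm_num
    | succ n ih =>
      rw [Finset.sum_range_succ]
      have : ∑ j ∈ range (n + 1), (6 : ℝ) ^ (n + 1 - j) * 4 ^ j
          = 6 * ∑ j ∈ range (n + 1), (6 : ℝ) ^ (n - j) * 4 ^ j := by
        rw [Finset.mul_sum]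
        apply Finset.sum_congr rfl
        intro j hj
        rw [Nat.succ_sub (Nat.lt_succ_iff.mp (Finset.mem_range.mp hj)), Nat.succ_eq_add_one,
          pow_succ]
        ring
      rw [this, ih, Nat.sub_self]
      ring
  rw [h]
  have : (0 : ℝ) < 4 ^ (n + 1) := by positivity
  have h6 : (6 : ℝ) ^ (n + 1) = 6 * 6 ^ n := by ring
  linarith

lemma IsQ.bound {q : ℕ → ℕ → ℝ} (hq : IsQ q) : ∀ n k, |q n k| ≤ 1 / 2 * 6 ^ n * 2 ^ k := by
  intro n
  induction n using Nat.strong_induction_on with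
  | _ n ih =>
    intro k
    rcases n with _ | n
    · rw [hq.zero, abs_of_pos (by norm_num)]
      have : (1 : ℝ) ≤ 2 ^ k := one_le_pow₀ (by norm_num)
      rw [pow_zero]
      linarith
    · rw [hq.succ, abs_mul, abs_of_pos (by norm_num : (0 : ℝ) < 1 / 2)]
      calc _ ≤ 1 / 2 * ∑ j ∈ range (n + 1), |q (n - j) j * tc j k| := by
            gcongr
            exact Finset.abs_sum_le_sum_abs _ _
        _ ≤ 1 / 2 * ∑ j ∈ range (n + 1), (1 / 2 * 6 ^ (n - j) * 2 ^ j) * (3 * 2 ^ j * 2 ^ k) := by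
            gcongr with j hj
            rw [abs_mul]
            gcongr
            · exact ih (n - j) (by omega) j
            · exact tc_bound j k
        _ = 3 / 4 * 2 ^ k * ∑ j ∈ range (n + 1), (6 : ℝ) ^ (n - j) * 4 ^ j := by
            rw [Finset.mul_sum, Finset.mul_sum]
            apply Finset.sum_congr rfl
            intro j _
            rw [show (4 : ℝ) = 2 * 2 by norm_num, mul_pow]
            ring
        _ ≤ 3 / 4 * 2 ^ k * (3 * 6 ^ n) := by
            gcongr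
            exact geo_aux n
        _ ≤ 1 / 2 * 6 ^ (n + 1) * 2 ^ k := by
            have h : (0 : ℝ) < 2 ^ k * 6 ^ n := by positivity
            have h6 : (6 : ℝ) ^ (n + 1) = 6 * 6 ^ n := by ring
            rw [h6]
            nlinarith

lemma tc_hasSum (j : ℕ) {u : ℂ} (hu : ‖u‖ < 1) :
    HasSum (fun k : ℕ => (tc j k : ℂ) * u ^ k) ((u - 1) ^ j - 1 / (u - 1) ^ (j + 2)) := by
  have h1 : HasSum (fun k : ℕ => ((j.choose k : ℝ) * (-1) ^ (j - k) : ℝ) * u ^ k)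
      ((u - 1) ^ j) := by
    have e : (u - 1) ^ j = ∑ k ∈ range (j + 1),
        (((j.choose k : ℝ) * (-1) ^ (j - k) : ℝ) : ℂ) * u ^ k := by
      rw [sub_eq_add_neg, add_pow]
      apply Finset.sum_congr rfl
      intro k _
      push_cast
      ring
    rw [e]
    apply hasSum_sum_of_ne_finset_zero
    intro k hk
    rw [Finset.mem_range, not_lt] at hk
    rw [Nat.choose_eq_zero_of_lt (by omega)]
    simp
  have h2 : HasSum (fun k : ℕ => ((-1) ^ j * ((k + (j + 1)).choose (j + 1) : ℝ) : ℝ) * u ^ k)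
      (1 / (u - 1) ^ (j + 2)) := by
    have h3 := (hasSum_choose_mul_geometric_of_norm_lt_one (𝕜 := ℂ) (j + 1) hu).mul_left
      ((-1 : ℂ) ^ j)
    have hne : (1 - u) ≠ 0 := by
      intro h
      have : u = 1 := by linear_combination -h
      rw [this, norm_one] at hu
      exact lt_irrefl _ hu
    have e : (-1 : ℂ) ^ j * (1 / (1 - u) ^ (j + 1 + 1)) = 1 / (u - 1) ^ (j + 2) := by
      have : (u - 1) ^ (j + 2) = (-1 : ℂ) ^ j * (1 - u) ^ (j + 1 + 1) := by
        rw [show (u - 1) = (-1) * (1 - u) by ring, mul_pow]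
        rw [pow_add (-1 : ℂ) j 2]
        ring
      have h6 : ((-1 : ℂ) ^ j)⁻¹ = (-1) ^ j := by rw [← inv_pow, inv_neg, inv_one]
      rw [this, one_div, one_div, mul_inv, h6]
    rw [e] at h3
    have e3 : (fun k : ℕ => (((-1) ^ j * ((k + (j + 1)).choose (j + 1) : ℝ) : ℝ) : ℂ) * u ^ k)
        = fun k : ℕ => (-1 : ℂ) ^ j * (((k + (j + 1)).choose (j + 1) : ℂ) * u ^ k) := by
      ext k
      push_cast
      ring
    rw [e3]
    exact h3
  have h3 := h1.sub h2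
  have e3 : (fun k : ℕ => (tc j k : ℂ) * u ^ k)
      = fun k : ℕ => (((j.choose k : ℝ) * (-1) ^ (j - k) : ℝ) : ℂ) * u ^ k
        - (((-1) ^ j * ((k + (j + 1)).choose (j + 1) : ℝ) : ℝ) : ℂ) * u ^ k := by
    ext k
    unfold tc
    push_cast
    ring
  rw [e3]
  exact h3

/-- the double series -/
noncomputable def EE (q : ℕ → ℕ → ℝ) (x v : ℂ) : ℂ :=
  ∑' p : ℕ × ℕ, (q p.1 p.2 : ℂ) * x ^ p.1 * v ^ p.2

lemma term_bound {q : ℕ → ℕ → ℝ} (hq : IsQ q) {x v : ℂ} (hx : ‖x‖ ≤ 1 / 16) (hv : ‖v‖ ≤ 1 / 4)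
    (p : ℕ × ℕ) : ‖(q p.1 p.2 : ℂ) * x ^ p.1 * v ^ p.2‖ ≤ (3 / 8) ^ p.1 * (1 / 2) ^ p.2 := by
  rw [norm_mul, norm_mul, norm_pow, norm_pow, Complex.norm_real, Real.norm_eq_abs]
  calc |q p.1 p.2| * ‖x‖ ^ p.1 * ‖v‖ ^ p.2
      ≤ (1 / 2 * 6 ^ p.1 * 2 ^ p.2) * (1 / 16) ^ p.1 * (1 / 4) ^ p.2 := by
        gcongr
        exact hq.bound _ _
    _ = 1 / 2 * ((6 * (1 / 16)) ^ p.1 * (2 * (1 / 4)) ^ p.2) := by
        rw [mul_pow, mul_pow]; ring
    _ = 1 / 2 * ((3 / 8 : ℝ) ^ p.1 * (1 / 2 : ℝ) ^ p.2) := by norm_num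
    _ ≤ (3 / 8 : ℝ) ^ p.1 * (1 / 2 : ℝ) ^ p.2 := by
        have : (0 : ℝ) < (3 / 8 : ℝ) ^ p.1 * (1 / 2 : ℝ) ^ p.2 := by positivity
        linarith

lemma maj_hasSum : HasSum (fun p : ℕ × ℕ => ((3 / 8 : ℝ)) ^ p.1 * (1 / 2) ^ p.2)
    ((1 - 3 / 8)⁻¹ * (1 - 1 / 2)⁻¹) := by
  have h1 := hasSum_geometric_of_lt_one (r := (3 / 8 : ℝ)) (by norm_num) (by norm_num)
  have h2 := hasSum_geometric_of_lt_one (r := (1 / 2 : ℝ)) (by norm_num) (by norm_num)
  have h3 := h1.summable.mul_of_nonneg h2.summable (fun n => by positivity) (fun n => by positivity)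
  exact h1.mul h2 h3

lemma maj_summable : Summable (fun p : ℕ × ℕ => ((3 / 8 : ℝ)) ^ p.1 * (1 / 2) ^ p.2) :=
  maj_hasSum.summable

lemma EE_summable {q : ℕ → ℕ → ℝ} (hq : IsQ q) {x v : ℂ} (hx : ‖x‖ ≤ 1 / 16)
    (hv : ‖v‖ ≤ 1 / 4) : Summable (fun p : ℕ × ℕ => (q p.1 p.2 : ℂ) * x ^ p.1 * v ^ p.2) :=
  Summable.of_norm_bounded maj_summable (term_bound hq hx hv)

lemma EE_hasSum {q : ℕ → ℕ → ℝ} (hq : IsQ q) {x v : ℂ} (hx : ‖x‖ ≤ 1 / 16)
    (hv : ‖v‖ ≤ 1 / 4) :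
    HasSum (fun p : ℕ × ℕ => (q p.1 p.2 : ℂ) * x ^ p.1 * v ^ p.2) (EE q x v) :=
  (EE_summable hq hx hv).hasSum

lemma EE_bound {q : ℕ → ℕ → ℝ} (hq : IsQ q) {x v : ℂ} (hx : ‖x‖ ≤ 1 / 16)
    (hv : ‖v‖ ≤ 1 / 4) : ‖EE q x v‖ ≤ 4 := by
  have := (EE_hasSum hq hx hv).norm_le_of_bounded maj_hasSum (term_bound hq hx hv)
  refine this.trans (by norm_num)

lemma hasSum_antidiagonal {f : ℕ × ℕ → ℂ} {a : ℂ} (h : HasSum f a) :
    HasSum (fun n => ∑ j ∈ range (n + 1), f (n - j, j)) a := by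
  have h1 := Finset.HasAntidiagonal.sigmaAntidiagonalEquivProd.hasSum_iff.mpr h
  have h2 := h1.sigma (g := fun n => ∑ j ∈ range (n + 1), f (n - j, j)) (by
    intro n
    have h3 := hasSum_fintype (fun c : ((antidiagonal n : Finset (ℕ × ℕ)) : Type) =>
      (f ∘ Finset.HasAntidiagonal.sigmaAntidiagonalEquivProd) ⟨n, c⟩)
    have e : ∑ c : ((antidiagonal n : Finset (ℕ × ℕ)) : Type),
        (f ∘ Finset.HasAntidiagonal.sigmaAntidiagonalEquivProd) ⟨n, c⟩
        = ∑ j ∈ range (n + 1), f (n - j, j) := by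
      rw [← Finset.Nat.sum_antidiagonal_eq_sum_range_succ (fun j m => f (m, j))]
      rw [← Finset.Nat.sum_antidiagonal_swap]
      rw [Finset.univ_eq_attach]
      exact Finset.sum_attach (antidiagonal n) (fun p => f (p.1, p.2))
    rw [← e]
    exact h3)
  exact h2

lemma EE_equation {q : ℕ → ℕ → ℝ} (hq : IsQ q) {x u : ℂ} (hx : ‖x‖ ≤ 1 / 16)
    (hu : ‖u‖ ≤ 1 / 4) (ha0 : ‖x * (u - 1)‖ ≤ 1 / 4) (ha1 : ‖-(x / (1 - u))‖ ≤ 1 / 4) :
    EE q x u = (1 / 2) * (x * EE q x (x * (u - 1)) + (1 / (1 - u)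
      - x / (1 - u) ^ 2 * EE q x (-(x / (1 - u))))) := by
  have hu1 : ‖u‖ < 1 := by linarith
  have hne : (1 - u) ≠ 0 := by
    intro h
    have : u = 1 := by linear_combination -h
    rw [this, norm_one] at hu1
    exact lt_irrefl _ hu1
  have hne' : (u - 1) ≠ 0 := by
    intro h
    apply hne
    linear_combination -h
  set T : ℕ → ℂ := fun j => (u - 1) ^ j - 1 / (u - 1) ^ (j + 2) with hT
  set G : ℕ → ℂ := fun n => (1 / 2) * (x ^ (n + 1) * ∑ j ∈ range (n + 1), (q (n - j) j : ℂ) * T j)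
    with hG
  -- the left side
  have hL := (EE_hasSum hq hx hu).prod_fiberwise
    (g := fun n => Nat.casesOn n ((1 / 2) * (1 / (1 - u))) G) (by
      intro n
      rcases n with _ | n
      · have h1 := (hasSum_geometric_of_norm_lt_one hu1).mul_left (1 / 2 : ℂ)
        have e : (fun k : ℕ => (q (0, k).1 (0, k).2 : ℂ) * x ^ (0, k).1 * u ^ (0, k).2)
            = fun k => (1 / 2 : ℂ) * u ^ k := by
          ext k
          dsimp only
          rw [hq.zero]
          push_cast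
          ring
        rw [e]
        dsimp only
        rw [one_div (1 - u)]
        exact h1
      · have h1 : HasSum (fun k => ∑ j ∈ range (n + 1), (q (n - j) j : ℂ) * ((tc j k : ℂ) * u ^ k))
            (∑ j ∈ range (n + 1), (q (n - j) j : ℂ) * T j) :=
          hasSum_sum (fun j _ => (tc_hasSum j hu1).mul_left _)
        have h2 := (h1.mul_left (x ^ (n + 1))).mul_left (1 / 2 : ℂ)
        have e : (fun k : ℕ => (q (n + 1, k).1 (n + 1, k).2 : ℂ) * x ^ (n + 1, k).1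
              * u ^ (n + 1, k).2)
            = fun k => (1 / 2 : ℂ) * (x ^ (n + 1)
              * ∑ j ∈ range (n + 1), (q (n - j) j : ℂ) * ((tc j k : ℂ) * u ^ k)) := by
          ext k
          dsimp only
          rw [hq.succ]
          push_cast
          rw [Finset.mul_sum, Finset.mul_sum, Finset.mul_sum, Finset.sum_mul, Finset.sum_mul]
          apply Finset.sum_congr rfl
          intro j _
          ring
        rw [e]
        exact h2)
  -- the right side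
  have h0 := EE_hasSum hq hx ha0
  have h1 := EE_hasSum hq hx ha1
  have h2 := (h0.mul_left ((1 / 2) * x)).sub (h1.mul_left ((1 / 2) * (x / (1 - u) ^ 2)))
  have h3 := hasSum_antidiagonal h2
  have e3 : (fun n => ∑ j ∈ range (n + 1),
      ((1 / 2) * x * ((q (n - j, j).1 (n - j, j).2 : ℂ) * x ^ (n - j, j).1
          * (x * (u - 1)) ^ (n - j, j).2)
        - (1 / 2) * (x / (1 - u) ^ 2) * ((q (n - j, j).1 (n - j, j).2 : ℂ) * x ^ (n - j, j).1
          * (-(x / (1 - u))) ^ (n - j, j).2))) = G := by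
    ext n
    simp only [hG]
    rw [Finset.mul_sum, Finset.mul_sum]
    apply Finset.sum_congr rfl
    intro j hj
    have hjn : n - j + j = n := Nat.sub_add_cancel (Nat.lt_succ_iff.mp (Finset.mem_range.mp hj))
    simp only [hT]
    have e4 : -(x / (1 - u)) = x / (u - 1) := by
      rw [← neg_sub u 1, div_neg, neg_neg]
    have e5 : (1 - u) ^ 2 = (u - 1) ^ 2 := by ring
    have e6 : x ^ (n + 1) = x * (x ^ (n - j) * x ^ j) := by
      rw [← pow_add, hjn]; ring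
    rw [e4, e5, e6, mul_pow, div_pow]
    have hp : (u - 1) ^ (j + 2) = (u - 1) ^ j * (u - 1) ^ 2 := by ring
    rw [hp]
    have hne2 : (u - 1) ^ 2 ≠ 0 := pow_ne_zero _ hne'
    have hnej : (u - 1) ^ j ≠ 0 := pow_ne_zero _ hne'
    field_simp
  rw [e3] at h3
  have h4 : HasSum (fun n => (Nat.casesOn n ((1 / 2) * (1 / (1 - u))) G : ℂ))
      ((1 / 2) * (1 / (1 - u)) + ((1 / 2) * x * EE q x (x * (u - 1))
        - (1 / 2) * (x / (1 - u) ^ 2) * EE q x (-(x / (1 - u))))) := by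
    have h5 := (hasSum_nat_add_iff (f := fun n => (Nat.casesOn n ((1 / 2) * (1 / (1 - u))) G : ℂ))
      (g := ((1 / 2) * x * EE q x (x * (u - 1))
        - (1 / 2) * (x / (1 - u) ^ 2) * EE q x (-(x / (1 - u))))) 1).mp (by exact h3)
    simp only [Finset.range_one, Finset.sum_singleton] at h5
    rw [add_comm]
    exact h5
  have h6 := hL.unique h4
  rw [h6]
  ring

end Pool.Agent.Helper8.BM
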