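import Pool.Agent.Helper8.BM.Mink

set_option autoImplicit false
set_option maxHeartbeats 4000000

namespace Pool.Agent.Helper8.BM

open Set Filter Topology MeasureTheory Metric

lemma unit_mem_UX {y : ℝ} (hy : y ∈ Icc (0 : ℝ) 1) : (y : ℂ) ∈ UX := by
  rw [mem_ball, dist_eq_norm, show (y : ℂ) - 1 = ((y - 1 : ℝ) : ℂ) by push_cast; ring,
    Complex.norm_real, Real.norm_eq_abs, abs_lt]
  constructor <;> linarith [hy.1, hy.2]

lemma one_mem_Ux (N : ℕ) : (1 : ℂ) ∈ Ux N := by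
  apply one_mem_ball
  linarith [eta_pos N]

lemma S_one (k : ℕ) : S k 1 = (k : ℂ) + 1 := by
  unfold S
  simp

lemma g_one (k : ℕ) (y : ℝ) : g k 1 (y : ℂ) = ((TT k y : ℝ) : ℂ) := by
  unfold g den TT
  rw [S_one]
  push_cast
  rw [one_pow, one_mul]

lemma cont_of_diff {φ : ℂ → ℂ} (hφ : DifferentiableOn ℂ φ UX) :
    ContinuousOn (fun y : ℝ => φ (y : ℂ)) (Icc 0 1) :=
  hφ.continuousOn.comp Complex.continuous_ofReal.continuousOn (fun _ hy => unit_mem_UX hy)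

lemma mu_real_Icc : mu.real (Icc 0 1) = 1 := by
  rw [measureReal_def, mu_Icc, qmark_one, qmark_zero]
  norm_num

lemma mu_real_Ioc (N : ℕ) : mu.real (Ioc 0 (1 / ((N : ℝ) + 1))) = (1 / 2) ^ N := by
  rw [measureReal_def, mu_Ioc, qmark_endpoint, qmark_zero, sub_zero,
    ENNReal.toReal_ofReal (by positivity)]

lemma step_integral (N : ℕ) {φ : ℂ → ℂ} (hφ : DifferentiableOn ℂ φ UX) (M : ℝ)
    (hM : ∀ X ∈ UX, ∀ X' ∈ UX, ‖φ X - φ X'‖ ≤ M) :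
    ‖(∫ y in Icc 0 1, φ ((y : ℝ) : ℂ) ∂mu) - ∫ y in Icc 0 1, Aop N 1 φ ((y : ℝ) : ℂ) ∂mu‖
      ≤ 2 * ((1 / 2) ^ N * M) := by
  have hM0 : 0 ≤ M := by
    have := hM 1 (by simp) 1 (by simp)
    simpa using this
  have hc := cont_of_diff hφ
  have h1 := split_integral N hc
  have hcT : ∀ k, ContinuousOn (fun y : ℝ => φ ((TT k y : ℝ) : ℂ)) (Icc 0 1) := by
    intro k
    exact hc.comp (TT_cont k) (fun y hy => TT_mem k hy)
  have hiT : ∀ k, IntegrableOn (fun y : ℝ => φ ((TT k y : ℝ) : ℂ)) (Icc 0 1) mu :=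
    fun k => integrable_nu (hcT k)
  have h2 : ∫ y in Icc 0 1, Aop N 1 φ ((y : ℝ) : ℂ) ∂mu
      = (∑ k ∈ Finset.range N, (1 / 2 : ℂ) ^ (k + 1) * ∫ y in Icc 0 1, φ ((TT k y : ℝ) : ℂ) ∂mu)
        + (1 / 2) ^ N * ∫ y in Icc 0 1, φ ((TT N y : ℝ) : ℂ) ∂mu := by
    unfold Aop
    simp only [g_one]
    rw [integral_add, integral_finsetSum, integral_const_mul]
    · congr 1
      apply Finset.sum_congr rfl
      intro k _
      rw [integral_const_mul]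
    · intro k _
      exact (hiT k).const_mul _
    · apply integrable_finsetSum
      intro k _
      exact (hiT k).const_mul _
    · exact (hiT N).const_mul _
  have hN0 : 0 < 1 / ((N : ℝ) + 1) := by positivity
  have hN1 : 1 / ((N : ℝ) + 1) ≤ 1 := by
    rw [div_le_one (by positivity)]
    linarith [Nat.cast_nonneg (α := ℝ) N]
  have hsub : Ioc 0 (1 / ((N : ℝ) + 1)) ⊆ Icc (0 : ℝ) 1 := fun x hx => ⟨hx.1.le, hx.2.trans hN1⟩
  have h3 : ∫ x in Ioc 0 (1 / ((N : ℝ) + 1)), φ ((x : ℝ) : ℂ) ∂mu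
      = (∫ x in Ioc 0 (1 / ((N : ℝ) + 1)), (φ ((x : ℝ) : ℂ) - φ 1) ∂mu) + (1 / 2) ^ N * φ 1 := by
    rw [integral_sub ((integrable_nu hc).mono_set hsub)
      (integrable_const_iff.mpr (Or.inr ⟨by
        rw [Measure.restrict_apply_univ, mu_Ioc]; exact ENNReal.ofReal_lt_top⟩)),
      setIntegral_const, mu_real_Ioc, Complex.real_smul]
    push_cast
    ring
  have h4 : ∫ y in Icc 0 1, φ ((TT N y : ℝ) : ℂ) ∂mu
      = (∫ y in Icc 0 1, (φ ((TT N y : ℝ) : ℂ) - φ 1) ∂mu) + φ 1 := by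
    rw [integral_sub (hiT N) (integrable_const _), setIntegral_const, mu_real_Icc, one_smul]
    ring
  have h5 : ‖∫ x in Ioc 0 (1 / ((N : ℝ) + 1)), (φ ((x : ℝ) : ℂ) - φ 1) ∂mu‖ ≤ M * (1 / 2) ^ N := by
    rw [← mu_real_Ioc]
    apply norm_setIntegral_le_of_norm_le_const
    · rw [mu_Ioc]; exact ENNReal.ofReal_lt_top
    · intro x hx
      exact hM _ (unit_mem_UX (hsub hx)) _ (by simp)
  have h6 : ‖∫ y in Icc 0 1, (φ ((TT N y : ℝ) : ℂ) - φ 1) ∂mu‖ ≤ M * 1 := by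
    have h7 : ‖∫ y in Icc 0 1, (φ ((TT N y : ℝ) : ℂ) - φ 1) ∂mu‖ ≤ M * mu.real (Icc 0 1) := by
      apply norm_setIntegral_le_of_norm_le_const
      · rw [mu_Icc]; exact ENNReal.ofReal_lt_top
      · intro y hy
        exact hM _ (unit_mem_UX (TT_mem N hy)) _ (by simp)
    rwa [mu_real_Icc] at h7
  have h12 : ‖(1 / 2 : ℂ)‖ = 1 / 2 := by
    rw [show (1 / 2 : ℂ) = ((1 / 2 : ℝ) : ℂ) by push_cast; ring, Complex.norm_real]
    norm_num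
  rw [h1, h2, h3, h4]
  have e : ∀ a b c d e' : ℂ, (a + (1 / 2) ^ N * b + c) - (c + (1 / 2) ^ N * (d + b))
      = a - (1 / 2) ^ N * d := by
    intro a b c d e'
    ring
  rw [e _ _ _ _ 0]
  calc _ ≤ _ := norm_sub_le _ _
    _ ≤ M * (1 / 2) ^ N + (1 / 2) ^ N * (M * 1) := by
        rw [norm_mul, norm_pow, h12]
        gcongr
    _ = _ := by ring

lemma iter_integral {φ : ℂ → ℂ} (hφ : DifferentiableOn ℂ φ UX) (M : ℝ)
    (hM : ∀ X ∈ UX, ∀ X' ∈ UX, ‖φ X - φ X'‖ ≤ M) (N n : ℕ) :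
    ‖(∫ y in Icc 0 1, φ ((y : ℝ) : ℂ) ∂mu) - ∫ y in Icc 0 1, Ph φ N n 1 ((y : ℝ) : ℂ) ∂mu‖
      ≤ n * (2 * ((1 / 2) ^ N * M)) := by
  have hM0 : 0 ≤ M := by
    have := hM 1 (by simp) 1 (by simp)
    simpa using this
  have hG : Good N 1 := good_Ux (one_mem_Ux N)
  induction n with
  | zero =>
    simp [Ph]
  | succ n ih =>
    have h1 := step_integral N (Ph_diff_X φ hφ N n 1 hG) (kap ^ n * M)
      (Ph_osc φ hφ M hM N n 1 hG)
    have h2 : ∀ X, Aop N 1 (fun X => Ph φ N n 1 X) X = Ph φ N (n + 1) 1 X := fun X => rfl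
    simp only [h2] at h1
    have h3 : kap ^ n * M ≤ M := by
      have : kap ^ n ≤ 1 := pow_le_one₀ kap_pos.le kap_lt_one.le
      nlinarith
    have h4 : 2 * ((1 / 2 : ℝ) ^ N * (kap ^ n * M)) ≤ 2 * ((1 / 2) ^ N * M) := by gcongr
    have e : (∫ y in Icc 0 1, φ ((y : ℝ) : ℂ) ∂mu)
        - ∫ y in Icc 0 1, Ph φ N (n + 1) 1 ((y : ℝ) : ℂ) ∂mu
        = ((∫ y in Icc 0 1, φ ((y : ℝ) : ℂ) ∂mu) - ∫ y in Icc 0 1, Ph φ N n 1 ((y : ℝ) : ℂ) ∂mu)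
        + ((∫ y in Icc 0 1, Ph φ N n 1 ((y : ℝ) : ℂ) ∂mu)
          - ∫ y in Icc 0 1, Ph φ N (n + 1) 1 ((y : ℝ) : ℂ) ∂mu) := by ring
    rw [e]
    calc _ ≤ _ := norm_add_le _ _
      _ ≤ n * (2 * ((1 / 2) ^ N * M)) + 2 * ((1 / 2) ^ N * M) :=
          add_le_add ih (h1.trans h4)
      _ = _ := by push_cast; ring

lemma fN_one_tendsto {φ : ℂ → ℂ} (hφ : DifferentiableOn ℂ φ UX) (M : ℝ)
    (hM : ∀ X ∈ UX, ∀ X' ∈ UX, ‖φ X - φ X'‖ ≤ M) :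
    Tendsto (fun N => fN φ N 1) atTop (𝓝 (∫ y in Icc 0 1, φ ((y : ℝ) : ℂ) ∂mu)) := by
  have hbound : ∀ N : ℕ, ‖(∫ y in Icc 0 1, φ ((y : ℝ) : ℂ) ∂mu) - fN φ N 1‖
      ≤ (N * (1 / 2) ^ N) * (2 * M) + kap ^ N * M := by
    intro N
    have hG : Good N 1 := good_Ux (one_mem_Ux N)
    have h1 := iter_integral hφ M hM N N
    have h2 : ‖(∫ y in Icc 0 1, Ph φ N N 1 ((y : ℝ) : ℂ) ∂mu) - fN φ N 1‖ ≤ kap ^ N * M := by
      have e : (∫ y in Icc 0 1, Ph φ N N 1 ((y : ℝ) : ℂ) ∂mu) - fN φ N 1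
          = ∫ y in Icc 0 1, (Ph φ N N 1 ((y : ℝ) : ℂ) - fN φ N 1) ∂mu := by
        rw [integral_sub (integrable_nu (cont_of_diff (Ph_diff_X φ hφ N N 1 hG)))
          (integrable_const _), setIntegral_const, mu_real_Icc, one_smul]
      rw [e]
      have h3 : ‖∫ y in Icc 0 1, (Ph φ N N 1 ((y : ℝ) : ℂ) - fN φ N 1) ∂mu‖
          ≤ (kap ^ N * M) * mu.real (Icc 0 1) := by
        apply norm_setIntegral_le_of_norm_le_const
        · rw [mu_Icc]; exact ENNReal.ofReal_lt_top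
        · intro y hy
          exact Ph_osc φ hφ M hM N N 1 hG _ (unit_mem_UX hy) _ (by simp)
      rwa [mu_real_Icc, mul_one] at h3
    have e : (∫ y in Icc 0 1, φ ((y : ℝ) : ℂ) ∂mu) - fN φ N 1
        = ((∫ y in Icc 0 1, φ ((y : ℝ) : ℂ) ∂mu) - ∫ y in Icc 0 1, Ph φ N N 1 ((y : ℝ) : ℂ) ∂mu)
        + ((∫ y in Icc 0 1, Ph φ N N 1 ((y : ℝ) : ℂ) ∂mu) - fN φ N 1) := by ring
    rw [e]
    calc _ ≤ _ := norm_add_le _ _
      _ ≤ N * (2 * ((1 / 2) ^ N * M)) + kap ^ N * M := add_le_add h1 h2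
      _ = _ := by ring
  have hlim : Tendsto (fun N : ℕ => ((N : ℝ) * (1 / 2) ^ N) * (2 * M) + kap ^ N * M) atTop
      (𝓝 0) := by
    have h1 := tendsto_self_mul_const_pow_of_lt_one (r := (1 / 2 : ℝ)) (by norm_num) (by norm_num)
    have h2 := tendsto_pow_atTop_nhds_zero_of_lt_one kap_pos.le kap_lt_one
    have h3 := (h1.mul_const (2 * M)).add (h2.mul_const M)
    simpa using h3
  have h4 : Tendsto (fun N => (∫ y in Icc 0 1, φ ((y : ℝ) : ℂ) ∂mu) - fN φ N 1) atTop (𝓝 0) :=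
    squeeze_zero_norm hbound hlim
  have h5 := h4.const_sub (∫ y in Icc 0 1, φ ((y : ℝ) : ℂ) ∂mu)
  simpa using h5

end Pool.Agent.Helper8.BM
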