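import Pool.Agent.Helper8.BM.QDef
import Pool.Agent.Helper8.BM.Lim

set_option autoImplicit false
set_option maxHeartbeats 4000000

namespace Pool.Agent.Helper8.BM

open Set Filter Topology MeasureTheory

lemma term_eq (t : ℝ) (n : ℕ) : (qR n 1 : ℂ) * (t : ℂ) ^ n / (n.factorial : ℂ)
    = ((deriv (Qfun n) (-1) / (n.factorial : ℝ) * t ^ n : ℝ) : ℂ) := by
  rw [← qR_one]
  push_cast
  ring

lemma tsum_eq (t : ℝ) : (∑' n : ℕ, (qR n 1 : ℂ) * (t : ℂ) ^ n / (n.factorial : ℂ))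
    = ((Lambda t : ℝ) : ℂ) := by
  unfold Lambda
  rw [Complex.ofReal_tsum]
  exact tsum_congr (term_eq t)

/-- The power series `Λ(t) = ∑ Q_n'(-1) / n! * t ^ n` has infinite radius of convergence,
`Λ(t) e^{-t}` is integrable on `(0, ∞)`, and its integral is the second moment of the
Minkowski question mark function. -/
theorem main_result :
    (FormalMultilinearSeries.ofScalars ℝ
      (fun n : ℕ => deriv (Qfun n) (-1) / (n.factorial : ℝ))).radius = ⊤ ∧
    IntegrableOn (fun t : ℝ => Lambda t * Real.exp (-t)) (Ioi 0) ∧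
    ∫ t in Ioi (0 : ℝ), Lambda t * Real.exp (-t)
      = ∫ x in Icc (0 : ℝ) 1, x ^ 2 ∂qmarkStieltjes.measure := by
  have hφ : DifferentiableOn ℂ (fun X : ℂ => X ^ 2) UX := by fun_prop
  have hM : ∀ X ∈ UX, ∀ X' ∈ UX, ‖(fun X : ℂ => X ^ 2) X - (fun X : ℂ => X ^ 2) X'‖ ≤ 25 / 2 := by
    intro X hX X' hX'
    calc _ ≤ ‖X ^ 2‖ + ‖X' ^ 2‖ := norm_sub_le _ _
      _ ≤ (5 / 2) ^ 2 + (5 / 2) ^ 2 := by
          rw [norm_pow, norm_pow]
          gcongr
          · exact norm_UX hX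
          · exact norm_UX hX'
      _ = _ := by norm_num
  obtain ⟨h1, h2, h3⟩ := analytic_part isQ_qR _ (fN_one_tendsto hφ (25 / 2) hM)
  simp only [tsum_eq] at h2 h3
  have e1 : ∀ t : ℝ, ((Lambda t : ℝ) : ℂ) * ((Real.exp (-t) : ℝ) : ℂ)
      = ((Lambda t * Real.exp (-t) : ℝ) : ℂ) := by
    intro t
    push_cast
    ring
  simp only [e1] at h2 h3
  refine ⟨?_, ?_, ?_⟩
  · apply FormalMultilinearSeries.radius_eq_top_of_summable_norm
    intro r
    have h4 := (h1 r).norm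
    refine h4.congr (fun n => ?_)
    rw [term_eq, Complex.norm_real, norm_mul, norm_pow, Real.norm_of_nonneg r.coe_nonneg,
      FormalMultilinearSeries.ofScalars_norm]
  · have h5 : Integrable (fun t : ℝ => RCLike.re (((Lambda t * Real.exp (-t) : ℝ) : ℂ)))
        (volume.restrict (Ioi 0)) := Integrable.re h2
    exact h5
  · rw [integral_complex_ofReal] at h3
    have e2 : ∫ y in Icc (0 : ℝ) 1, (fun X : ℂ => X ^ 2) ((y : ℝ) : ℂ) ∂mu
        = ((∫ y in Icc (0 : ℝ) 1, y ^ 2 ∂mu : ℝ) : ℂ) := by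
      rw [← integral_complex_ofReal]
      congr 1
      ext y
      push_cast
      rfl
    have h6 := h3.trans e2
    exact_mod_cast h6

end Pool.Agent.Helper8.BM
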