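import Pool.Agent.Helper8.BM.Basic

set_option autoImplicit false
set_option maxHeartbeats 4000000

namespace Pool.Agent.Helper8.BM

open Finset Complex

lemma one_sub_mul_F (k : ℕ) (x : ℂ) :
    (1 - x) * F k x = (1 + x * (1 - x)) - x ^ k * (x - (4 / 5) * (1 - x)) := by
  have h : (1 - x) * S k x = 1 - x ^ (k + 1) := by
    unfold S
    rw [mul_comm]; exact geom_sum_mul_neg x (k + 1)
  unfold F
  rw [mul_add, mul_add, h]
  ring

/-- `h = 1 + x (1-x)` in real coordinates for `x = cos θ e^{iθ}` -/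
noncomputable def hh (c s : ℝ) : ℂ := ⟨1 + 2 * s ^ 2 * c ^ 2, -(s * c * (1 - 2 * s ^ 2))⟩

noncomputable def ee (c s : ℝ) : ℂ := ⟨c, 4 / 5 * s⟩

lemma normSq_hh (c s : ℝ) (h : c ^ 2 + s ^ 2 = 1) : ‖hh c s‖ ^ 2 = 1 + 5 * (s * c) ^ 2 := by
  rw [← Complex.normSq_eq_norm_sq, Complex.normSq_apply]
  simp only [hh]
  have : c ^ 2 = 1 - s ^ 2 := by linarith
  have h3 : (1 - 2 * s ^ 2) ^ 2 = 1 - 4 * (s ^ 2 * c ^ 2) := by rw [this]; ring
  linear_combination (s ^ 2 * c ^ 2) * h3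

lemma norm_hh_ge (c s : ℝ) (h : c ^ 2 + s ^ 2 = 1) : 1 + 2 * (s * c) ^ 2 ≤ ‖hh c s‖ := by
  refine le_of_sq_le_sq_aux ?_ (norm_nonneg _)
  rw [normSq_hh c s h]
  have h1 : (s * c) ^ 2 ≤ 1 / 4 := by
    have : s ^ 2 = 1 - c ^ 2 := by linarith
    rw [mul_pow, this]
    nlinarith [sq_nonneg (c ^ 2 - 1 / 2)]
  nlinarith [sq_nonneg (s * c)]

lemma normSq_ee (c s : ℝ) (h : c ^ 2 + s ^ 2 = 1) : ‖ee c s‖ ^ 2 = 1 - 9 / 25 * s ^ 2 := by
  rw [← Complex.normSq_eq_norm_sq, Complex.normSq_apply]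
  simp only [ee]
  linear_combination h

lemma norm_ee_le (c s : ℝ) (h : c ^ 2 + s ^ 2 = 1) : ‖ee c s‖ ≤ 1 - 9 / 50 * s ^ 2 := by
  have hs : s ^ 2 ≤ 1 := by nlinarith [sq_nonneg c]
  refine le_of_sq_le_sq_aux ?_ (by linarith)
  rw [normSq_ee c s h]
  nlinarith [sq_nonneg (s ^ 2)]

lemma exp_eq (θ : ℝ) : exp (θ * I) = ⟨Real.cos θ, Real.sin θ⟩ := by
  rw [exp_mul_I, ← ofReal_cos, ← ofReal_sin]
  generalize Real.cos θ = c
  generalize Real.sin θ = s
  apply Complex.ext <;> simp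

lemma x_eq (θ : ℝ) :
    ((Real.cos θ : ℝ) : ℂ) * exp (θ * I) = ⟨Real.cos θ ^ 2, Real.cos θ * Real.sin θ⟩ := by
  rw [exp_eq]
  generalize Real.cos θ = c
  generalize Real.sin θ = s
  apply Complex.ext
  · simp; ring
  · simp

lemma hP_eq (θ : ℝ) (k : ℕ) (x : ℂ) (hx : x = ((Real.cos θ : ℝ) : ℂ) * exp (θ * I)) :
    (1 - x) * F k x = hh (Real.cos θ) (Real.sin θ) -
      ((Real.cos θ ^ k : ℝ) : ℂ) * exp (((k + 1 : ℕ) * θ : ℝ) * I) *
        ee (Real.cos θ) (Real.sin θ) := by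
  rw [one_sub_mul_F]
  have hcs := Real.sin_sq_add_cos_sq θ
  have e1 : 1 + x * (1 - x) = hh (Real.cos θ) (Real.sin θ) := by
    rw [hx, x_eq]
    generalize Real.cos θ = c at hcs ⊢
    generalize Real.sin θ = s at hcs ⊢
    apply Complex.ext
    · simp [hh]
      linear_combination (-(c ^ 2)) * hcs
    · simp [hh]
      linear_combination (-2 * c * s) * hcs
  have e2 : x - (4 / 5) * (1 - x) = exp (θ * I) * ee (Real.cos θ) (Real.sin θ) := by
    rw [hx, x_eq, exp_eq]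
    have h45 : (4 / 5 : ℂ) = ((4 / 5 : ℝ) : ℂ) := by push_cast; ring
    rw [h45]
    generalize Real.cos θ = c at hcs ⊢
    generalize Real.sin θ = s at hcs ⊢
    apply Complex.ext
    · simp [ee]
      linear_combination (4 / 5) * hcs
    · simp [ee]
      ring
  have e3 : exp (((k + 1 : ℕ) * θ : ℝ) * I) = exp (k * (θ * I)) * exp (θ * I) := by
    rw [← Complex.exp_add]
    congr 1
    push_cast
    ring
  rw [e1, e2, hx, mul_pow, ← Complex.exp_nat_mul, e3, Complex.ofReal_pow]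
  ring

lemma norm_one_sub (θ : ℝ) (hs : 0 ≤ Real.sin θ) (x : ℂ)
    (hx : x = ((Real.cos θ : ℝ) : ℂ) * exp (θ * I)) : ‖1 - x‖ = Real.sin θ := by
  have hcs := Real.sin_sq_add_cos_sq θ
  have : ‖1 - x‖ ^ 2 = Real.sin θ ^ 2 := by
    rw [← Complex.normSq_eq_norm_sq, Complex.normSq_apply, hx, x_eq]
    simp
    have : Real.cos θ ^ 2 = 1 - Real.sin θ ^ 2 := by linarith
    rw [this]
    nlinarith [hcs]
  have h2 := (sq_eq_sq₀ (norm_nonneg _) hs).mp this
  exact h2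


open ComplexConjugate

lemma exists_phase (θ : ℝ) (h0 : 0 < θ) (h1 : θ ≤ 9 / 20) :
    ∃ δ : ℝ, 0 ≤ δ ∧ δ ≤ 2 * θ ∧
      ee (Real.cos θ) (Real.sin θ) * conj (hh (Real.cos θ) (Real.sin θ)) =
        ((‖ee (Real.cos θ) (Real.sin θ)‖ * ‖hh (Real.cos θ) (Real.sin θ)‖ : ℝ) : ℂ)
          * exp (δ * I) := by
  have hpi := Real.pi_gt_three
  have hcs := Real.sin_sq_add_cos_sq θ
  have hs0 : 0 < Real.sin θ := Real.sin_pos_of_pos_of_lt_pi h0 (by linarith)
  have hs1 : Real.sin θ ≤ 9 / 20 := (Real.sin_le h0.le).trans h1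
  have hc0 : 0 < Real.cos θ := Real.cos_pos_of_mem_Ioo ⟨by linarith, by linarith⟩
  set q := ee (Real.cos θ) (Real.sin θ) * conj (hh (Real.cos θ) (Real.sin θ)) with hq
  have hnq : ‖q‖ = ‖ee (Real.cos θ) (Real.sin θ)‖ * ‖hh (Real.cos θ) (Real.sin θ)‖ := by
    rw [hq, norm_mul, Complex.norm_conj]
  have him : q.im = Real.cos θ * (Real.sin θ * Real.cos θ * (1 - 2 * Real.sin θ ^ 2))
      + 4 / 5 * Real.sin θ * (1 + 2 * Real.sin θ ^ 2 * Real.cos θ ^ 2) := by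
    rw [hq]
    generalize Real.cos θ = c
    generalize Real.sin θ = s
    simp [ee, hh]
  have hre : q.re = Real.cos θ * (1 + 2 * Real.sin θ ^ 2 * Real.cos θ ^ 2)
      - 4 / 5 * Real.sin θ * (Real.sin θ * Real.cos θ * (1 - 2 * Real.sin θ ^ 2)) := by
    rw [hq]
    generalize Real.cos θ = c
    generalize Real.sin θ = s
    simp [ee, hh]
  have hu : Real.sin θ ^ 2 ≤ 81 / 400 := by nlinarith
  have him0 : 0 < q.im := by
    rw [him]
    have : 0 < 1 - 2 * Real.sin θ ^ 2 := by linarith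
    positivity
  have hq0 : 0 < ‖q‖ := by
    rw [norm_pos_iff]
    intro h
    rw [h] at him0
    simp at him0
  refine ⟨arg q, Complex.arg_nonneg_iff.mpr him0.le, ?_, ?_⟩
  · by_contra hlt
    push Not at hlt
    have hpos : 0 < Real.sin (arg q - 2 * θ) :=
      Real.sin_pos_of_pos_of_lt_pi (by linarith) (by linarith [Complex.arg_le_pi q])
    have e1 : (q * exp ((-(2 * θ) : ℝ) * I)).im = ‖q‖ * Real.sin (arg q - 2 * θ) := by
      conv_lhs => rw [← Complex.norm_mul_exp_arg_mul_I q]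
      rw [mul_assoc, ← Complex.exp_add, ← add_mul]
      rw [show ((arg q : ℂ) + ((-(2 * θ) : ℝ) : ℂ)) = ((arg q - 2 * θ : ℝ) : ℂ) by
        push_cast; ring]
      rw [exp_eq]
      generalize Real.cos (arg q - 2 * θ) = c
      generalize Real.sin (arg q - 2 * θ) = s
      simp
    have e2 : (q * exp ((-(2 * θ) : ℝ) * I)).im
        = q.im * Real.cos (2 * θ) - q.re * Real.sin (2 * θ) := by
      rw [exp_eq, Real.cos_neg, Real.sin_neg]
      generalize Real.cos (2 * θ) = c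
      generalize Real.sin (2 * θ) = s
      simp
      ring
    rw [e2, Real.cos_two_mul, Real.sin_two_mul, him, hre] at e1
    have e3 := mul_pos hq0 hpos
    rw [← e1] at e3
    have hc2 : Real.cos θ ^ 2 = 1 - Real.sin θ ^ 2 := by linarith
    generalize Real.cos θ = c at *
    generalize Real.sin θ = s at *
    have e4 : (c * (s * c * (1 - 2 * s ^ 2)) + 4 / 5 * s * (1 + 2 * s ^ 2 * c ^ 2)) * (2 * c ^ 2 - 1)
        - (c * (1 + 2 * s ^ 2 * c ^ 2) - 4 / 5 * s * (s * c * (1 - 2 * s ^ 2))) * (2 * s * c)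
        = s * ((1 - s ^ 2) * (1 - 2 * s ^ 2) * (1 - 2 * s ^ 2)
          + 4 / 5 * (1 + 2 * s ^ 2 * (1 - s ^ 2)) * (1 - 2 * s ^ 2)
          - 2 * (1 - s ^ 2) * (1 + 2 * s ^ 2 * (1 - s ^ 2))
          + 8 / 5 * s ^ 2 * (1 - s ^ 2) * (1 - 2 * s ^ 2)) := by
      rw [← hc2]
      have : (2 * c ^ 2 - 1) = 1 - 2 * s ^ 2 := by linarith
      rw [this]
      ring
    rw [e4] at e3
    have e5 : (1 - s ^ 2) * (1 - 2 * s ^ 2) * (1 - 2 * s ^ 2)
          + 4 / 5 * (1 + 2 * s ^ 2 * (1 - s ^ 2)) * (1 - 2 * s ^ 2)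
          - 2 * (1 - s ^ 2) * (1 + 2 * s ^ 2 * (1 - s ^ 2))
          + 8 / 5 * s ^ 2 * (1 - s ^ 2) * (1 - 2 * s ^ 2) ≤ 0 := by
      have hv0 : 0 ≤ s ^ 2 := sq_nonneg s
      generalize s ^ 2 = v at *
      nlinarith [mul_nonneg hv0 (sub_nonneg.mpr hu), mul_nonneg (mul_nonneg hv0 hv0) (sub_nonneg.mpr hu)]
    nlinarith
  · rw [← hnq]
    exact (Complex.norm_mul_exp_arg_mul_I q).symm

lemma t2_poly (t : ℝ) (h0 : 0 ≤ t) (h1 : t ≤ 9 / 20) :
    1 + 6 / 5 * t - 9 / 50 * (t ^ 2 - t ^ 4 / 3) ≤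
      (1 + 2 * (t - 2 / 3 * t ^ 3) ^ 2 - 3 / 2 * (t - 2 / 3 * t ^ 3 + 4 / 25 * t ^ 5) - 1 / 20 * t)
      * (1 + (157 / 50 * t - 3 * t ^ 2) + (157 / 50 * t - 3 * t ^ 2) ^ 2 / 2
        + (157 / 50 * t - 3 * t ^ 2) ^ 3 / 6) := by
  have h2 : 0 ≤ 9 / 20 - t := by linarith
  rw [← sub_nonneg]
  have e : (1 + 2 * (t - 2 / 3 * t ^ 3) ^ 2 - 3 / 2 * (t - 2 / 3 * t ^ 3 + 4 / 25 * t ^ 5) - 1 / 20 * t)
      * (1 + (157 / 50 * t - 3 * t ^ 2) + (157 / 50 * t - 3 * t ^ 2) ^ 2 / 2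
        + (157 / 50 * t - 3 * t ^ 2) ^ 3 / 6) - (1 + 6 / 5 * t - 9 / 50 * (t ^ 2 - t ^ 4 / 3))
      = t * ((26624000000000 / 10460353203) * (t ^ 0 * (9 / 20 - t) ^ 11)
        + (269602816000000 / 10460353203) * (t ^ 1 * (9 / 20 - t) ^ 10)
        + (1232104457216000 / 10460353203) * (t ^ 2 * (9 / 20 - t) ^ 9)
        + (1117807825710080 / 3486784401) * (t ^ 3 * (9 / 20 - t) ^ 8)
        + (2026561687052800 / 3486784401) * (t ^ 4 * (9 / 20 - t) ^ 7)
        + (2590516231072256 / 3486784401) * (t ^ 5 * (9 / 20 - t) ^ 6)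
        + (11939968423035136 / 17433922005) * (t ^ 6 * (9 / 20 - t) ^ 5)
        + (983230246340653984 / 2179240250625) * (t ^ 7 * (9 / 20 - t) ^ 4)
        + (443652507180913616 / 2179240250625) * (t ^ 8 * (9 / 20 - t) ^ 3)
        + (377250035427247832 / 6537720751875) * (t ^ 9 * (9 / 20 - t) ^ 2)
        + (56340705509444428 / 6537720751875) * (t ^ 10 * (9 / 20 - t) ^ 1)
        + (2718542875263992 / 6537720751875) * (t ^ 11 * (9 / 20 - t) ^ 0)) := by ring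
  rw [e]
  positivity

lemma cos_le_exp_neg (t : ℝ) (h0 : 0 ≤ t) (h1 : t ≤ 1) : Real.cos t ≤ Real.exp (-(t ^ 2 / 2)) := by
  have hc := (abs_le.mp (Real.cos_bound (x := t) (by rw [abs_of_nonneg h0]; exact h1))).2
  rw [abs_of_nonneg h0] at hc
  set y := t ^ 2 / 2 with hy
  have hy0 : 0 ≤ y := by positivity
  have hy1 : y ≤ 1 / 2 := by nlinarith
  have he := (abs_le.mp (Real.exp_bound (x := -y) (n := 3) (by rw [abs_neg, abs_of_nonneg hy0]; linarith)
    (by norm_num))).1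
  rw [abs_neg, abs_of_nonneg hy0] at he
  norm_num [Finset.sum_range_succ, Nat.factorial] at he
  have ht4 : t ^ 4 = 4 * y ^ 2 := by rw [hy]; ring
  rw [ht4] at hc
  have : y ^ 2 * (7 / 24 - 2 / 9 * y) ≥ 0 := by
    apply mul_nonneg (sq_nonneg y); linarith
  nlinarith

lemma t2 (t B : ℝ) (h0 : 0 < t) (h1 : t ≤ 9 / 20) (hB0 : 0 ≤ B)
    (hB : B ≤ Real.exp (-(Real.pi * t - 3 * t ^ 2))) :
    Real.sin t * (3 / 2 * Real.cos t + 6 / 5 * B + 1 / 20)
      ≤ 1 + 2 * (Real.sin t * Real.cos t) ^ 2 - B * (1 - 9 / 50 * Real.sin t ^ 2) := by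
  have hpi := Real.pi_gt_d2
  set v : ℝ := 157 / 50 * t - 3 * t ^ 2 with hv
  have hv0 : 0 ≤ v := by nlinarith
  have hBv : B ≤ Real.exp (-v) := by
    refine hB.trans (Real.exp_le_exp.mpr ?_)
    have : 3.14 * t ≤ Real.pi * t := by nlinarith
    rw [hv]; linarith
  have hT : 1 + v + v ^ 2 / 2 + v ^ 3 / 6 ≤ Real.exp v := by
    have := Real.sum_le_exp_of_nonneg hv0 4
    norm_num [Finset.sum_range_succ, Nat.factorial] at this
    linarith
  have hBT : B * (1 + v + v ^ 2 / 2 + v ^ 3 / 6) ≤ 1 := by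
    calc B * (1 + v + v ^ 2 / 2 + v ^ 3 / 6) ≤ Real.exp (-v) * Real.exp v := by
          apply mul_le_mul hBv hT (by positivity) (Real.exp_pos _).le
      _ = 1 := by rw [← Real.exp_add]; simp
  have hs0 : 0 < Real.sin t := Real.sin_pos_of_pos_of_lt_pi h0 (by linarith)
  have hs1 : Real.sin t ≤ t := Real.sin_le h0.le
  have hs2 : t - t ^ 3 / 6 ≤ Real.sin t := (Real.sin_gt_sub_cube h0).le
  have hm : Real.sin t * Real.cos t = Real.sin (2 * t) / 2 := by
    rw [Real.sin_two_mul]; ring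
  have hm1 : t - 2 / 3 * t ^ 3 ≤ Real.sin t * Real.cos t := by
    rw [hm]
    have := Real.sin_gt_sub_cube (x := 2 * t) (by linarith)
    nlinarith
  have hm2 : Real.sin t * Real.cos t ≤ t - 2 / 3 * t ^ 3 + 4 / 25 * t ^ 5 := by
    rw [hm]
    have h2t : |2 * t| ≤ 1 := by rw [abs_of_nonneg (by linarith)]; linarith
    have := (abs_le.mp (Real.sin_bound h2t)).2
    rw [abs_of_nonneg (by linarith : (0 : ℝ) ≤ 2 * t)] at this
    nlinarith
  set m := Real.sin t * Real.cos t with hmdef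
  have hml0 : 0 ≤ t - 2 / 3 * t ^ 3 := by nlinarith [mul_pos h0 h0]
  have hmsq : (t - 2 / 3 * t ^ 3) ^ 2 ≤ m ^ 2 := pow_le_pow_left₀ hml0 hm1 2
  have hs3 : t ^ 2 - t ^ 4 / 3 ≤ Real.sin t ^ 2 := by
    have h3 : 0 ≤ t - t ^ 3 / 6 := by nlinarith [mul_pos h0 h0]
    have := pow_le_pow_left₀ h3 hs2 2
    nlinarith [pow_pos h0 6]
  have hpoly := t2_poly t h0.le h1
  rw [← hv] at hpoly
  set L := 1 + 2 * m ^ 2 - 3 / 2 * m - 1 / 20 * Real.sin t with hL
  have hLge : 1 + 2 * (t - 2 / 3 * t ^ 3) ^ 2 - 3 / 2 * (t - 2 / 3 * t ^ 3 + 4 / 25 * t ^ 5)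
      - 1 / 20 * t ≤ L := by
    rw [hL]; linarith
  have hTT : 0 < 1 + v + v ^ 2 / 2 + v ^ 3 / 6 := by positivity
  have hLT : 1 + 6 / 5 * Real.sin t - 9 / 50 * Real.sin t ^ 2
      ≤ L * (1 + v + v ^ 2 / 2 + v ^ 3 / 6) := by
    calc 1 + 6 / 5 * Real.sin t - 9 / 50 * Real.sin t ^ 2
        ≤ 1 + 6 / 5 * t - 9 / 50 * (t ^ 2 - t ^ 4 / 3) := by linarith
      _ ≤ _ := hpoly
      _ ≤ _ := mul_le_mul_of_nonneg_right hLge hTT.le
  have hL0 : 0 ≤ L := by
    by_contra hneg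
    push Not at hneg
    have : L * (1 + v + v ^ 2 / 2 + v ^ 3 / 6) < 0 := mul_neg_of_neg_of_pos hneg hTT
    have h5 : Real.sin t ^ 2 ≤ 1 := Real.sin_sq_le_one t
    linarith
  have hfin : B * (1 + 6 / 5 * Real.sin t - 9 / 50 * Real.sin t ^ 2) ≤ L := by
    calc B * (1 + 6 / 5 * Real.sin t - 9 / 50 * Real.sin t ^ 2)
        ≤ B * (L * (1 + v + v ^ 2 / 2 + v ^ 3 / 6)) := mul_le_mul_of_nonneg_left hLT hB0
      _ = L * (B * (1 + v + v ^ 2 / 2 + v ^ 3 / 6)) := by ring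
      _ ≤ L * 1 := mul_le_mul_of_nonneg_left hBT hL0
      _ = L := mul_one L
  rw [hL] at hfin
  have e : Real.sin t * (3 / 2 * Real.cos t + 6 / 5 * B + 1 / 20)
      = 3 / 2 * m + 6 / 5 * B * Real.sin t + 1 / 20 * Real.sin t := by rw [hmdef]; ring
  rw [e]
  linarith

lemma small_t (t : ℝ) (h0 : 0 < t) (h1 : t ≤ 9 / 20) (k : ℕ) (hk : 8 ≤ k) :
    Real.sin t * (3 / 2 * Real.cos t + 6 / 5 * Real.cos t ^ k + 1 / 20) ≤
    ‖hh (Real.cos t) (Real.sin t) -
      ((Real.cos t ^ k : ℝ) : ℂ) * exp (((k + 1 : ℕ) * t : ℝ) * I) *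
        ee (Real.cos t) (Real.sin t)‖ := by
  have hpi := Real.pi_gt_d2
  have hcs := Real.sin_sq_add_cos_sq t
  have hcs' : Real.cos t ^ 2 + Real.sin t ^ 2 = 1 := by linarith
  have hs0 : 0 < Real.sin t := Real.sin_pos_of_pos_of_lt_pi h0 (by linarith)
  have hs1 : Real.sin t ≤ 9 / 20 := (Real.sin_le h0.le).trans h1
  have hc0 : 0 < Real.cos t := Real.cos_pos_of_mem_Ioo ⟨by linarith, by linarith⟩
  have hc1 : Real.cos t ≤ 1 := Real.cos_le_one t
  obtain ⟨δ, hδ0, hδ1, hδ⟩ := exists_phase t h0 h1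
  set P : ℂ := ((Real.cos t ^ k : ℝ) : ℂ) * exp (((k + 1 : ℕ) * t : ℝ) * I) *
        ee (Real.cos t) (Real.sin t) with hP
  set h := hh (Real.cos t) (Real.sin t) with hh'
  set Ψ : ℝ := (k + 1 : ℕ) * t + δ with hΨ
  have hPc : P * conj h = ((Real.cos t ^ k * (‖ee (Real.cos t) (Real.sin t)‖ * ‖h‖) : ℝ) : ℂ)
      * exp (Ψ * I) := by
    rw [hP, mul_assoc, hδ]
    have : exp (Ψ * I) = exp (((k + 1 : ℕ) * t : ℝ) * I) * exp (δ * I) := by
      rw [← Complex.exp_add, hΨ]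
      congr 1
      push_cast
      ring
    rw [this]
    push_cast
    ring
  have hPn : ‖P‖ = Real.cos t ^ k * ‖ee (Real.cos t) (Real.sin t)‖ := by
    rw [hP, norm_mul, norm_mul, Complex.norm_exp_ofReal_mul_I, mul_one, Complex.norm_real,
      Real.norm_of_nonneg (pow_nonneg hc0.le k)]
  have hRe : (P * conj h).re = ‖P‖ * ‖h‖ * Real.cos Ψ := by
    rw [hPc, hPn, exp_eq]
    generalize Real.cos Ψ = a
    generalize Real.sin Ψ = b
    rw [Complex.re_ofReal_mul]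
    ring
  have hIm : (P * conj h).im = ‖P‖ * ‖h‖ * Real.sin Ψ := by
    rw [hPc, hPn, exp_eq]
    generalize Real.cos Ψ = a
    generalize Real.sin Ψ = b
    rw [Complex.im_ofReal_mul]
    ring
  have hck1 : Real.cos t ^ k ≤ 1 := pow_le_one₀ hc0.le hc1
  have hck0 : 0 < Real.cos t ^ k := pow_pos hc0 k
  have hP0 : 0 < ‖P‖ := by
    rw [hPn]
    apply mul_pos hck0
    have := normSq_ee _ _ hcs'
    have h3 : 0 < ‖ee (Real.cos t) (Real.sin t)‖ ^ 2 := by rw [this]; nlinarith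
    by_contra hne
    push Not at hne
    have h4 : ‖ee (Real.cos t) (Real.sin t)‖ = 0 := le_antisymm hne (norm_nonneg _)
    rw [h4] at h3
    norm_num at h3
  have hhge := norm_hh_ge _ _ hcs'
  rw [← hh'] at hhge
  have hm2 : (Real.sin t * Real.cos t) ^ 2 = Real.sin t ^ 2 * (1 - Real.sin t ^ 2) := by
    rw [mul_pow]; rw [← hcs]; ring
  have hrs : Real.sin t * (3 / 2 * Real.cos t + 6 / 5 * Real.cos t ^ k + 1 / 20)
      ≤ 11 / 4 * Real.sin t := by nlinarith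
  -- case cos ≤ 0
  have case1 : Real.cos Ψ ≤ 0 → ‖h‖ ≤ ‖h - P‖ := by
    intro hcos
    refine le_of_sq_le_sq_aux ?_ (norm_nonneg _)
    have : ‖h - P‖ ^ 2 = ‖h‖ ^ 2 + ‖P‖ ^ 2 - 2 * (P * conj h).re := by
      rw [← Complex.normSq_eq_norm_sq, ← Complex.normSq_eq_norm_sq, ← Complex.normSq_eq_norm_sq,
        Complex.normSq_sub]
      congr 2
      simp [Complex.mul_re]
      ring
    rw [this, hRe]
    nlinarith [mul_nonneg (mul_nonneg hP0.le (norm_nonneg h)) (neg_nonneg.mpr hcos), sq_nonneg ‖P‖]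
  have case2 : ‖h‖ * |Real.sin Ψ| ≤ ‖h - P‖ := by
    have e1 : |(P * conj h).im| ≤ ‖h - P‖ * ‖P‖ := by
      have e2 : (P * conj h).im = -((h - P) * conj P).im := by
        simp [Complex.mul_im]
        ring
      rw [e2, abs_neg]
      calc |((h - P) * conj P).im| ≤ ‖(h - P) * conj P‖ := Complex.abs_im_le_norm _
        _ = ‖h - P‖ * ‖P‖ := by rw [norm_mul, Complex.norm_conj]
    rw [hIm, abs_mul, abs_of_nonneg (by positivity)] at e1
    have e3 : ‖P‖ * (‖h‖ * |Real.sin Ψ|) ≤ ‖P‖ * ‖h - P‖ := by linarith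
    exact le_of_mul_le_mul_left e3 hP0
  have hu0 : 0 ≤ Real.sin t ^ 2 := sq_nonneg _
  have hu1 : Real.sin t ^ 2 ≤ 81 / 400 := by nlinarith
  by_cases hc : Real.cos Ψ ≤ 0
  · refine hrs.trans (le_trans ?_ (case1 hc))
    refine le_trans ?_ hhge
    rw [hm2]
    nlinarith [mul_nonneg hu0 (sub_nonneg.mpr hu1)]
  push Not at hc
  by_cases hsn : Real.sin (3 * t) ≤ |Real.sin Ψ|
  · refine hrs.trans (le_trans ?_ case2)
    have h3 : Real.sin (3 * t) = Real.sin t * (3 - 4 * Real.sin t ^ 2) := by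
      rw [Real.sin_three_mul]; ring
    have h4 : 0 ≤ Real.sin (3 * t) := by
      rw [h3]; apply mul_nonneg hs0.le; linarith
    calc 11 / 4 * Real.sin t ≤ (1 + 2 * (Real.sin t * Real.cos t) ^ 2) * Real.sin (3 * t) := by
          rw [h3, hm2]
          have : 11 / 4 ≤ (1 + 2 * (Real.sin t ^ 2 * (1 - Real.sin t ^ 2))) * (3 - 4 * Real.sin t ^ 2) := by
            nlinarith [mul_nonneg hu0 (sub_nonneg.mpr hu1), mul_nonneg (mul_nonneg hu0 hu0) (sub_nonneg.mpr hu1)]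
          nlinarith
      _ ≤ ‖h‖ * |Real.sin Ψ| := by
          apply mul_le_mul hhge hsn h4 (norm_nonneg _)
  push Not at hsn
  -- now Ψ > 2π - 3t
  have hk' : (8 : ℝ) ≤ k := by exact_mod_cast hk
  have hΨge : 9 * t ≤ Ψ := by
    rw [hΨ]; push_cast; nlinarith
  have hΨbig : 2 * Real.pi - 3 * t < Ψ := by
    by_contra hle
    push Not at hle
    rcases le_or_gt Ψ (Real.pi / 2) with h5 | h5
    · have : Real.sin (3 * t) ≤ Real.sin Ψ :=
        Real.sin_le_sin_of_le_of_le_pi_div_two (by linarith) h5 (by linarith)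
      exact absurd (this.trans (le_abs_self _)) (not_le.mpr hsn)
    rcases le_or_gt Ψ (Real.pi + Real.pi / 2) with h6 | h6
    · exact absurd hc (not_lt.mpr (Real.cos_nonpos_of_pi_div_two_le_of_le h5.le h6))
    · have h7 : Real.sin (3 * t) ≤ Real.sin (2 * Real.pi - Ψ) :=
        Real.sin_le_sin_of_le_of_le_pi_div_two (by linarith) (by linarith) (by linarith)
      rw [Real.sin_two_pi_sub] at h7
      have : -Real.sin Ψ ≤ |Real.sin Ψ| := neg_le_abs _
      linarith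
  have hkt : 2 * Real.pi - 6 * t < k * t := by
    rw [hΨ] at hΨbig
    push_cast at hΨbig
    linarith
  have hB : Real.cos t ^ k ≤ Real.exp (-(Real.pi * t - 3 * t ^ 2)) := by
    calc Real.cos t ^ k ≤ (Real.exp (-(t ^ 2 / 2))) ^ k :=
          pow_le_pow_left₀ hc0.le (cos_le_exp_neg t h0.le (by linarith)) k
      _ = Real.exp (k * (-(t ^ 2 / 2))) := by rw [← Real.exp_nat_mul]
      _ ≤ _ := by
          apply Real.exp_le_exp.mpr
          nlinarith
  have hfin := t2 t (Real.cos t ^ k) h0 h1 hck0.le hB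
  refine hfin.trans ?_
  have h8 : ‖h‖ - ‖P‖ ≤ ‖h - P‖ := norm_sub_norm_le h P
  have h9 : ‖P‖ ≤ Real.cos t ^ k * (1 - 9 / 50 * Real.sin t ^ 2) := by
    rw [hPn]
    exact mul_le_mul_of_nonneg_left (norm_ee_le _ _ hcs') hck0.le
  linarith

lemma large_t (t : ℝ) (h0 : 9 / 20 ≤ t) (h1 : t < Real.pi / 2) (k : ℕ) (hk : 8 ≤ k) :
    Real.sin t * (3 / 2 * Real.cos t + 6 / 5 * Real.cos t ^ k + 1 / 20) ≤
    ‖hh (Real.cos t) (Real.sin t) -
      ((Real.cos t ^ k : ℝ) : ℂ) * exp (((k + 1 : ℕ) * t : ℝ) * I) *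
        ee (Real.cos t) (Real.sin t)‖ := by
  have hpi := Real.pi_gt_d2
  have hcs := Real.sin_sq_add_cos_sq t
  have hcs' : Real.cos t ^ 2 + Real.sin t ^ 2 = 1 := by linarith
  have hs0 : 0 < Real.sin t := Real.sin_pos_of_pos_of_lt_pi (by linarith) (by linarith)
  have hs1 : Real.sin t ≤ 1 := Real.sin_le_one t
  have hc0 : 0 < Real.cos t := Real.cos_pos_of_mem_Ioo ⟨by linarith, by linarith⟩
  have hc1 : Real.cos t ≤ 1 := Real.cos_le_one t
  have hs2 : 217 / 500 ≤ Real.sin t := by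
    have e1 : Real.sin (9 / 20) ≤ Real.sin t :=
      Real.sin_le_sin_of_le_of_le_pi_div_two (by linarith) h1.le h0
    have e2 := Real.sin_gt_sub_cube (x := 9 / 20) (by norm_num)
    norm_num at e2
    linarith
  have hck : Real.cos t ^ k ≤ Real.cos t ^ 8 := pow_le_pow_of_le_one hc0.le hc1 hk
  have hck0 : 0 < Real.cos t ^ k := pow_pos hc0 k
  have hhge := norm_hh_ge _ _ hcs'
  set P : ℂ := ((Real.cos t ^ k : ℝ) : ℂ) * exp (((k + 1 : ℕ) * t : ℝ) * I) *
        ee (Real.cos t) (Real.sin t) with hP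
  have hPn : ‖P‖ = Real.cos t ^ k * ‖ee (Real.cos t) (Real.sin t)‖ := by
    rw [hP, norm_mul, norm_mul, Complex.norm_exp_ofReal_mul_I, mul_one, Complex.norm_real,
      Real.norm_of_nonneg (pow_nonneg hc0.le k)]
  have h8 := norm_sub_norm_le (hh (Real.cos t) (Real.sin t)) P
  have h9 : ‖P‖ ≤ Real.cos t ^ k * (1 - 9 / 50 * Real.sin t ^ 2) := by
    rw [hPn]
    exact mul_le_mul_of_nonneg_left (norm_ee_le _ _ hcs') hck0.le
  refine le_trans ?_ h8
  have hkey : Real.cos t ^ 8 * (1 - 9 / 50 * Real.sin t ^ 2 + 6 / 5 * Real.sin t)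
      ≤ 1 + 2 * (Real.sin t * Real.cos t) ^ 2 - 3 / 2 * (Real.sin t * Real.cos t)
        - 1 / 20 * Real.sin t := by
    have hc8 : Real.cos t ^ 8 = (1 - Real.sin t ^ 2) ^ 4 := by
      rw [← hcs]; ring
    have hphi : 1 + 2 * (Real.sin t * Real.cos t) ^ 2 - 3 / 2 * (Real.sin t * Real.cos t)
        ≥ 23 / 32 := by nlinarith [sq_nonneg (Real.sin t * Real.cos t - 3 / 8)]
    rw [hc8]
    set s := Real.sin t with hs
    have hs3 : (217 / 500) ^ 2 ≤ s ^ 2 := pow_le_pow_left₀ (by norm_num) hs2 2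
    have hs4 : s ^ 2 ≤ 1 := by nlinarith
    rcases le_or_gt s (51 / 100) with h5 | h5
    · have e1 : (1 - s ^ 2) ^ 4 ≤ (1 - (217 / 500) ^ 2) ^ 4 :=
        pow_le_pow_left₀ (by linarith) (by linarith) 4
      have e2 : 1 - 9 / 50 * s ^ 2 + 6 / 5 * s ≤ 1 - 9 / 50 * (217 / 500) ^ 2 + 6 / 5 * (51 / 100) := by
        linarith
      have e3 : (1 - s ^ 2) ^ 4 * (1 - 9 / 50 * s ^ 2 + 6 / 5 * s) ≤
          (1 - (217 / 500) ^ 2) ^ 4 * (1 - 9 / 50 * (217 / 500) ^ 2 + 6 / 5 * (51 / 100)) := by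
        apply mul_le_mul e1 e2 (by nlinarith) (by norm_num)
      norm_num at e3 ⊢
      linarith
    · have e1 : (1 - s ^ 2) ^ 4 ≤ (1 - (51 / 100) ^ 2) ^ 4 :=
        pow_le_pow_left₀ (by linarith) (by nlinarith) 4
      have e2 : 1 - 9 / 50 * s ^ 2 + 6 / 5 * s ≤ 11 / 5 := by
        nlinarith
      have e3 : (1 - s ^ 2) ^ 4 * (1 - 9 / 50 * s ^ 2 + 6 / 5 * s) ≤
          (1 - (51 / 100) ^ 2) ^ 4 * (11 / 5) := by
        apply mul_le_mul e1 e2 (by nlinarith) (by norm_num)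
      norm_num at e3 ⊢
      linarith
  have h10 : Real.cos t ^ k * (1 - 9 / 50 * Real.sin t ^ 2 + 6 / 5 * Real.sin t)
      ≤ Real.cos t ^ 8 * (1 - 9 / 50 * Real.sin t ^ 2 + 6 / 5 * Real.sin t) := by
    apply mul_le_mul_of_nonneg_right hck
    nlinarith
  nlinarith

/-- The lower bound on the boundary circle for large index. -/
lemma bd_large (k : ℕ) (hk : 8 ≤ k) (x : ℂ) (hx : ‖x - 1 / 2‖ = 1 / 2) :
    (3 / 2) * ‖x‖ + (6 / 5) * ‖x‖ ^ k + 1 / 20 ≤ ‖F k x‖ := by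
  have hr := circle_rel x hx
  have hn := circle_norm x hx
  -- reduce to im ≥ 0
  wlog him : 0 ≤ x.im generalizing x with H
  · have h1 : ‖conj x - 1 / 2‖ = 1 / 2 := by
      have : conj x - 1 / 2 = conj (x - 1 / 2) := by
        rw [map_sub, map_div₀, map_one, map_ofNat]
      rw [this, Complex.norm_conj, hx]
    have h2 := H (conj x) h1 (circle_rel _ h1) (circle_norm _ h1) (by simp; linarith)
    have h3 : F k (conj x) = conj (F k x) := by
      simp only [F, S, map_add, map_sum, map_mul, map_pow, map_div₀, map_ofNat]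
    rw [h3, Complex.norm_conj, Complex.norm_conj] at h2
    exact h2
  have hre0 : 0 ≤ x.re := by nlinarith [sq_nonneg x.im]
  rcases eq_or_lt_of_le hre0 with h0 | h0
  · -- x = 0
    have hx0 : x = 0 := by
      apply Complex.ext
      · simpa using h0.symm
      · have : x.im ^ 2 = 0 := by rw [hr, ← h0]; ring
        simpa using this
    rw [hx0]
    have : F k (0 : ℂ) = 1 := by
      unfold F S
      rw [Finset.sum_range_succ']
      simp
      omega
    rw [this]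
    have hk0 : k ≠ 0 := by omega
    simp [hk0]
    norm_num
  have hre1 : x.re ≤ 1 := by nlinarith [sq_nonneg x.im]
  rcases eq_or_lt_of_le hre1 with h1 | h1
  · have hx1 : x = 1 := by
      apply Complex.ext
      · simpa using h1
      · have : x.im ^ 2 = 0 := by rw [hr, h1]; ring
        simpa using this
    rw [hx1]
    have : F k (1 : ℂ) = ((k + 1 + 1 + 4 / 5 : ℝ) : ℂ) := by
      unfold F S
      simp
    rw [this, Complex.norm_real, Real.norm_of_nonneg (by positivity)]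
    simp
    have : (8 : ℝ) ≤ k := by exact_mod_cast hk
    linarith
  have himpos : 0 < x.im := by
    rcases eq_or_lt_of_le him with h | h
    · exfalso
      rw [← h] at hr
      nlinarith
    · exact h
  set t := arg x with ht
  have hxn0 : 0 < ‖x‖ := by
    rw [norm_pos_iff]; intro h; rw [h] at h0; simp at h0
  have hcos : Real.cos t = ‖x‖ := by
    rw [ht, Complex.cos_arg (by intro h; rw [h] at h0; simp at h0), ← hn]
    field_simp
  have ht0 : 0 < t := by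
    rcases eq_or_lt_of_le (Complex.arg_nonneg_iff.mpr him) with h | h
    · exfalso
      have := Complex.arg_eq_zero_iff.mp h.symm
      linarith [this.2]
    · exact h
  have ht1 : t < Real.pi / 2 := by
    have := (Complex.abs_arg_lt_pi_div_two_iff.mpr (Or.inl h0))
    exact (abs_lt.mp this).2
  have hxe : x = ((Real.cos t : ℝ) : ℂ) * exp (t * I) := by
    rw [hcos, ht]; exact (Complex.norm_mul_exp_arg_mul_I x).symm
  have hsin : 0 < Real.sin t := Real.sin_pos_of_pos_of_lt_pi ht0 (by linarith [Real.pi_pos])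
  have key : Real.sin t * (3 / 2 * Real.cos t + 6 / 5 * Real.cos t ^ k + 1 / 20)
      ≤ ‖(1 - x) * F k x‖ := by
    rw [hP_eq t k x hxe]
    rcases le_or_gt t (9 / 20) with h2 | h2
    · exact small_t t ht0 h2 k hk
    · exact large_t t h2.le ht1 k hk
  rw [norm_mul, norm_one_sub t hsin.le x hxe] at key
  have key2 := le_of_mul_le_mul_left key hsin
  rw [hcos] at key2
  exact key2

end Pool.Agent.Helper8.BM
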