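import Pool.Agent.Helper8.BM.Small
import Pool.Agent.Helper8.BM.Large

set_option autoImplicit false
set_option maxHeartbeats 4000000

namespace Pool.Agent.Helper8.BM

open Finset Complex Metric

lemma bd_all (k : ℕ) (x : ℂ) (hx : ‖x - 1 / 2‖ = 1 / 2) :
    (3 / 2) * ‖x‖ + (6 / 5) * ‖x‖ ^ k + 1 / 20 ≤ ‖F k x‖ := by
  rcases le_or_gt 8 k with h | h
  · exact bd_large k h x hx
  · interval_cases k
    · exact bd0 x hx
    · exact bd1 x hx
    · exact bd2 x hx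
    · exact bd3 x hx
    · exact bd4 x hx
    · exact bd5 x hx
    · exact bd6 x hx
    · exact bd7 x hx

/-- homotopy `S k x + t (x X - x^k Y)` -/
noncomputable def Ft (k : ℕ) (X Y : ℂ) (t : ℝ) (x : ℂ) : ℂ := S k x + t * (x * X - x ^ k * Y)

lemma norm_le_one_of_mem {x : ℂ} (hx : ‖x - 1 / 2‖ ≤ 1 / 2) : ‖x‖ ≤ 1 := by
  have : ‖x‖ ≤ ‖x - 1 / 2‖ + ‖(1 / 2 : ℂ)‖ := by
    have := norm_add_le (x - 1 / 2) (1 / 2)
    simpa using this
  have h2 : ‖(1 / 2 : ℂ)‖ = 1 / 2 := by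
    rw [show (1 / 2 : ℂ) = ((1 / 2 : ℝ) : ℂ) by push_cast; ring, Complex.norm_real]
    norm_num
  linarith

lemma Ft_bd (k : ℕ) (X Y : ℂ) (hX : ‖X - 1‖ ≤ 3 / 2) (hY : ‖Y + 4 / 5‖ ≤ 6 / 5) (t : ℝ)
    (h0 : 0 ≤ t) (h1 : t ≤ 1) (x : ℂ) (hx : ‖x - 1 / 2‖ = 1 / 2) : 1 / 20 ≤ ‖Ft k X Y t x‖ := by
  have e : Ft k X Y t x = F k x + (x * (t * X - 1) - x ^ k * (t * Y + 4 / 5)) := by
    unfold Ft F; ring
  have hb := bd_all k x hx
  have e1 : ‖(t : ℂ) * X - 1‖ ≤ 3 / 2 := by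
    have : (t : ℂ) * X - 1 = (t : ℂ) * (X - 1) - ((1 - t : ℝ) : ℂ) := by push_cast; ring
    rw [this]
    calc _ ≤ ‖(t : ℂ) * (X - 1)‖ + ‖((1 - t : ℝ) : ℂ)‖ := norm_sub_le _ _
      _ = t * ‖X - 1‖ + (1 - t) := by
          rw [norm_mul, Complex.norm_real, Complex.norm_real, Real.norm_of_nonneg h0,
            Real.norm_of_nonneg (by linarith)]
      _ ≤ _ := by nlinarith
  have e2 : ‖(t : ℂ) * Y + 4 / 5‖ ≤ 6 / 5 := by
    have : (t : ℂ) * Y + 4 / 5 = (t : ℂ) * (Y + 4 / 5) + (((1 - t) * (4 / 5) : ℝ) : ℂ) := by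
      push_cast; ring
    rw [this]
    calc _ ≤ ‖(t : ℂ) * (Y + 4 / 5)‖ + ‖(((1 - t) * (4 / 5) : ℝ) : ℂ)‖ := norm_add_le _ _
      _ = t * ‖Y + 4 / 5‖ + (1 - t) * (4 / 5) := by
          rw [norm_mul, Complex.norm_real, Complex.norm_real, Real.norm_of_nonneg h0,
            Real.norm_of_nonneg (by nlinarith)]
      _ ≤ _ := by nlinarith
  have e3 : ‖x * (t * X - 1) - x ^ k * (t * Y + 4 / 5)‖ ≤ 3 / 2 * ‖x‖ + 6 / 5 * ‖x‖ ^ k := by
    calc _ ≤ ‖x * (t * X - 1)‖ + ‖x ^ k * (t * Y + 4 / 5)‖ := norm_sub_le _ _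
      _ = ‖x‖ * ‖(t : ℂ) * X - 1‖ + ‖x‖ ^ k * ‖(t : ℂ) * Y + 4 / 5‖ := by
          rw [norm_mul, norm_mul, norm_pow]
      _ ≤ _ := by
          have := pow_nonneg (norm_nonneg x) k
          nlinarith [norm_nonneg x]
  have e4 := norm_sub_le_norm_add (F k x) (x * (t * X - 1) - x ^ k * (t * Y + 4 / 5))
  rw [e]
  linarith

lemma Ft_diff (k : ℕ) (X Y : ℂ) (t : ℝ) : Differentiable ℂ (Ft k X Y t) := by
  unfold Ft S
  fun_prop

lemma max_step (k : ℕ) (X Y : ℂ) (hX : ‖X - 1‖ ≤ 3 / 2) (hY : ‖Y + 4 / 5‖ ≤ 6 / 5) (t : ℝ)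
    (h0 : 0 ≤ t) (h1 : t ≤ 1) (hne : ∀ x : ℂ, ‖x - 1 / 2‖ ≤ 1 / 2 → Ft k X Y t x ≠ 0)
    (x : ℂ) (hx : ‖x - 1 / 2‖ ≤ 1 / 2) : 1 / 20 ≤ ‖Ft k X Y t x‖ := by
  have hd : DiffContOnCl ℂ (fun z => (Ft k X Y t z)⁻¹) (ball (1 / 2 : ℂ) (1 / 2)) := by
    apply DifferentiableOn.diffContOnCl
    rw [closure_ball _ (by norm_num)]
    intro z hz
    apply DifferentiableAt.differentiableWithinAt
    exact ((Ft_diff k X Y t) z).inv (hne z (by simpa [dist_eq_norm] using hz))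
  have key := Complex.norm_le_of_forall_mem_frontier_norm_le (C := 20) isBounded_ball hd ?_
    (z := x) ?_
  · simp only [norm_inv] at key
    have hpos : 0 < ‖Ft k X Y t x‖ := norm_pos_iff.mpr (hne x hx)
    rw [inv_le_comm₀ hpos (by norm_num)] at key
    norm_num at key ⊢
    exact key
  · intro z hz
    rw [frontier_ball _ (by norm_num)] at hz
    have hz' : ‖z - 1 / 2‖ = 1 / 2 := by simpa [dist_eq_norm] using hz
    have := Ft_bd k X Y hX hY t h0 h1 z hz'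
    simp only [norm_inv]
    rw [inv_le_comm₀ (by linarith) (by norm_num)]
    norm_num at this ⊢
    exact this
  · rw [closure_ball _ (by norm_num)]
    simpa [dist_eq_norm] using hx

lemma S_ne_zero (k : ℕ) (x : ℂ) (hx : ‖x - 1 / 2‖ ≤ 1 / 2) : S k x ≠ 0 := by
  intro h
  have h1 : (1 - x) * S k x = 1 - x ^ (k + 1) := by
    unfold S
    rw [mul_comm]; exact geom_sum_mul_neg x (k + 1)
  rw [h, mul_zero] at h1
  have h2 : x ^ (k + 1) = 1 := by
    rw [eq_comm, sub_eq_zero] at h1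
    exact h1.symm
  have h3 : ‖x‖ = 1 := by
    have : ‖x‖ ^ (k + 1) = 1 := by rw [← norm_pow, h2, norm_one]
    exact (pow_eq_one_iff_of_nonneg (norm_nonneg _) (by omega)).mp this
  have h4 : ‖x‖ ^ 2 = 1 := by rw [h3]; norm_num
  have h5 : ‖x - 1 / 2‖ ^ 2 ≤ (1 / 2) ^ 2 := pow_le_pow_left₀ (norm_nonneg _) hx 2
  rw [← Complex.normSq_eq_norm_sq, Complex.normSq_apply] at h4 h5
  simp at h5
  have h6 : x.re = 1 := by nlinarith [sq_nonneg (x.re - 1), sq_nonneg x.im]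
  have h7 : x.im = 0 := by
    rw [h6] at h4
    have : x.im * x.im = 0 := by linarith
    simpa using this
  have h8 : x = 1 := Complex.ext h6 h7
  rw [h8] at h
  unfold S at h
  simp at h
  have : ((k + 1 : ℕ) : ℂ) = 0 := by push_cast; exact h
  exact absurd this (Nat.cast_ne_zero.mpr (by omega))

/-- The lower bound on the closed disc. -/
lemma interior_bd (k : ℕ) (X Y : ℂ) (hX : ‖X - 1‖ ≤ 3 / 2) (hY : ‖Y + 4 / 5‖ ≤ 6 / 5)
    (x : ℂ) (hx : ‖x - 1 / 2‖ ≤ 1 / 2) : 1 / 20 ≤ ‖S k x + x * X - x ^ k * Y‖ := by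
  have hXn : ‖X‖ ≤ 5 / 2 := by
    have := norm_add_le (X - 1) 1
    simp at this
    linarith
  have hYn : ‖Y‖ ≤ 2 := by
    have h45 : ‖(4 / 5 : ℂ)‖ = 4 / 5 := by
      rw [show (4 / 5 : ℂ) = ((4 / 5 : ℝ) : ℂ) by push_cast; ring, Complex.norm_real]
      norm_num
    have := norm_sub_le (Y + 4 / 5) (4 / 5)
    simp only [add_sub_cancel_right] at this
    linarith
  have main : ∀ n : ℕ, ∀ t : ℝ, 0 ≤ t → t ≤ 1 → t ≤ n * (1 / 100) →
      ∀ x : ℂ, ‖x - 1 / 2‖ ≤ 1 / 2 → 1 / 20 ≤ ‖Ft k X Y t x‖ := by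
    intro n
    induction n with
    | zero =>
      intro t h0 h1 h2 x hx
      have ht : t = 0 := by
        simp at h2; linarith
      apply max_step k X Y hX hY t h0 h1 _ x hx
      intro z hz
      rw [ht]
      unfold Ft
      simpa using S_ne_zero k z hz
    | succ n ih =>
      intro t h0 h1 h2 x hx
      apply max_step k X Y hX hY t h0 h1 _ x hx
      intro z hz hzero
      have h3 := ih (max (t - 1 / 100) 0) (le_max_right _ _) (max_le (by linarith) (by norm_num))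
        (max_le (by push_cast at h2; linarith) (by positivity)) z hz
      have hz1 := norm_le_one_of_mem hz
      have e : Ft k X Y (max (t - 1 / 100) 0) z = Ft k X Y t z
          + ((max (t - 1 / 100) 0 - t : ℝ) : ℂ) * (z * X - z ^ k * Y) := by
        unfold Ft; push_cast; ring
      rw [e, hzero, zero_add, norm_mul, Complex.norm_real] at h3
      have h4 : ‖max (t - 1 / 100) 0 - t‖ ≤ 1 / 100 := by
        rw [Real.norm_eq_abs, abs_le]
        constructor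
        · linarith [le_max_left (t - 1 / 100) 0]
        · have : max (t - 1 / 100) 0 ≤ t := max_le (by linarith) h0
          linarith
      have h5 : ‖z * X - z ^ k * Y‖ ≤ 9 / 2 := by
        calc _ ≤ ‖z * X‖ + ‖z ^ k * Y‖ := norm_sub_le _ _
          _ = ‖z‖ * ‖X‖ + ‖z‖ ^ k * ‖Y‖ := by rw [norm_mul, norm_mul, norm_pow]
          _ ≤ 1 * (5 / 2) + 1 * 2 := by
            have : ‖z‖ ^ k ≤ 1 := pow_le_one₀ (norm_nonneg z) hz1
            gcongr
          _ = 9 / 2 := by norm_num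
      have h6 : ‖max (t - 1 / 100) 0 - t‖ * ‖z * X - z ^ k * Y‖ ≤ 1 / 100 * (9 / 2) := by
        apply mul_le_mul h4 h5 (norm_nonneg _) (by norm_num)
      norm_num at h6 h3
      linarith
  have := main 100 1 (by norm_num) (by norm_num) (by norm_num) x hx
  unfold Ft at this
  rw [show S k x + ((1 : ℝ) : ℂ) * (x * X - x ^ k * Y) = S k x + x * X - x ^ k * Y by
    push_cast; ring] at this
  exact this

end Pool.Agent.Helper8.BM
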