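import Pool.Agent.Helper8.BM.Near

set_option autoImplicit false
set_option maxHeartbeats 4000000

namespace Pool.Agent.Helper8.BM

open Complex Metric Set Filter Topology

noncomputable def ker (u X : ℂ) : ℂ := X / (1 - u * X)

lemma ker_den {u : ℂ} (hu : ‖u‖ ≤ 1 / 4) {X : ℂ} (hX : X ∈ UX) : 3 / 8 ≤ ‖1 - u * X‖ := by
  have h1 : ‖u * X‖ ≤ 5 / 8 := by
    rw [norm_mul]
    calc _ ≤ (1 / 4 : ℝ) * (5 / 2) := by
          gcongr
          exact norm_UX hX
      _ = _ := by norm_num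
  have := norm_sub_norm_le (1 : ℂ) (u * X)
  rw [norm_one] at this
  linarith

lemma ker_den_ne {u : ℂ} (hu : ‖u‖ ≤ 1 / 4) {X : ℂ} (hX : X ∈ UX) : 1 - u * X ≠ 0 :=
  norm_pos_iff.mp (by linarith [ker_den hu hX])

lemma ker_bound {u : ℂ} (hu : ‖u‖ ≤ 1 / 4) {X : ℂ} (hX : X ∈ UX) : ‖ker u X‖ ≤ 7 := by
  unfold ker
  have h := ker_den hu hX
  rw [norm_div, div_le_iff₀ (by linarith)]
  linarith [norm_UX hX]

lemma ker_diff {u : ℂ} (hu : ‖u‖ ≤ 1 / 4) : DifferentiableOn ℂ (ker u) UX := by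
  intro X hX
  apply DifferentiableAt.differentiableWithinAt
  unfold ker
  simp only [div_eq_mul_inv]
  exact (by fun_prop : DifferentiableAt ℂ (fun X => X) X).mul
      ((by fun_prop : DifferentiableAt ℂ (fun X => 1 - u * X) X).inv (ker_den_ne hu hX))

lemma ker_psi0 {x u : ℂ} (hx : ‖x‖ ≤ 1 / 16) (hu : ‖u‖ ≤ 1 / 4) {X : ℂ} (hX : X ∈ UX) :
    ker u (psi0 x X) = x * ker (x * (u - 1)) X := by
  have h1 := one_add_ne hx hX
  have h2 := ker_den_ne hu (psi0_mem hx hX)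
  have h3 : 1 - x * (u - 1) * X ≠ 0 := by
    apply ker_den_ne _ hX
    rw [norm_mul]
    calc _ ≤ (1 / 16 : ℝ) * (‖u‖ + ‖(1 : ℂ)‖) := by
          gcongr
          exact norm_sub_le _ _
      _ ≤ (1 / 16) * (1 / 4 + 1) := by rw [norm_one]; gcongr
      _ ≤ _ := by norm_num
  unfold ker psi0 at *
  have e : 1 - u * (x * X / (1 + x * X)) = (1 - x * (u - 1) * X) / (1 + x * X) := by
    field_simp
    ring
  rw [e]
  field_simp

lemma one_sub_ne {u : ℂ} (hu : ‖u‖ ≤ 1 / 4) : 3 / 4 ≤ ‖1 - u‖ := by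
  have := norm_sub_norm_le (1 : ℂ) u
  rw [norm_one] at this
  linarith

lemma arg0 {x u : ℂ} (hx : ‖x‖ ≤ 1 / 16) (hu : ‖u‖ ≤ 1 / 4) : ‖x * (u - 1)‖ ≤ 1 / 4 := by
  rw [norm_mul]
  calc _ ≤ (1 / 16 : ℝ) * (‖u‖ + ‖(1 : ℂ)‖) := by
        gcongr
        exact norm_sub_le _ _
    _ ≤ (1 / 16) * (1 / 4 + 1) := by rw [norm_one]; gcongr
    _ ≤ _ := by norm_num

lemma arg1 {x u : ℂ} (hx : ‖x‖ ≤ 1 / 16) (hu : ‖u‖ ≤ 1 / 4) : ‖-(x / (1 - u))‖ ≤ 1 / 4 := by
  rw [norm_neg, norm_div]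
  have := one_sub_ne hu
  rw [div_le_iff₀ (by linarith)]
  linarith

lemma ker_psi1 {x u : ℂ} (hx : ‖x‖ ≤ 1 / 16) (hu : ‖u‖ ≤ 1 / 4) {X : ℂ} (hX : X ∈ UX) :
    ker u (psi1 x X) = 1 / (1 - u) + (-(x / (1 - u) ^ 2)) * ker (-(x / (1 - u))) X := by
  have h1 := one_add_ne hx hX
  have h2 : (1 - u) ≠ 0 := norm_pos_iff.mp (by linarith [one_sub_ne hu])
  have h3 := ker_den_ne (arg1 hx hu) hX
  have h4 : 1 - u + x * X ≠ 0 := by
    intro h
    apply h3
    have : 1 - -(x / (1 - u)) * X = (1 - u + x * X) / (1 - u) := by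
      field_simp
      ring
    rw [this, h, zero_div]
  unfold ker psi1
  have e1 : 1 - u * (1 / (1 + x * X)) = (1 - u + x * X) / (1 + x * X) := by
    field_simp
    ring
  have e2 : 1 - -(x / (1 - u)) * X = (1 - u + x * X) / (1 - u) := by
    field_simp
    ring
  rw [e1, e2]
  field_simp
  ring

/-- the transform of the truncated averages -/
noncomputable def eN (N : ℕ) (x u : ℂ) : ℂ := fN (ker u) N x

/-- the error -/
noncomputable def epsN (N : ℕ) : ℝ := 2 * kap ^ N * 14 + (1 / 2) ^ (N + 1) * 14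

lemma eN_equation {x u : ℂ} (hx : ‖x‖ ≤ 1 / 16) (hu : ‖u‖ ≤ 1 / 4) (N : ℕ) :
    ‖eN N x u - (1 / 2) * (x * eN N x (x * (u - 1)) + (1 / (1 - u)
      - x / (1 - u) ^ 2 * eN N x (-(x / (1 - u)))))‖ ≤ epsN N := by
  have h14 : ∀ X ∈ UX, ∀ X' ∈ UX, ‖ker u X - ker u X'‖ ≤ 14 := by
    intro X hX X' hX'
    calc _ ≤ ‖ker u X‖ + ‖ker u X'‖ := norm_sub_le _ _
      _ ≤ 7 + 7 := add_le_add (ker_bound hu hX) (ker_bound hu hX')
      _ = 14 := by norm_num
  have h := fN_stationary hx (ker u) (ker_diff hu) 14 h14 N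
  have hG : Good N x := good_small hx N
  have h1X : (1 : ℂ) ∈ UX := by simp
  have e0 : fN (fun X => ker u (psi0 x X)) N x = x * eN N x (x * (u - 1)) := by
    unfold fN
    rw [Ph_congr _ _ (fun X hX => ker_psi0 hx hu hX) N N x hG 1 h1X, Ph_smul]
    rfl
  have e1 : fN (fun X => ker u (psi1 x X)) N x
      = 1 / (1 - u) - x / (1 - u) ^ 2 * eN N x (-(x / (1 - u))) := by
    unfold fN
    rw [Ph_congr _ _ (fun X hX => ker_psi1 hx hu hX) N N x hG 1 h1X,
      Ph_add (fun _ => 1 / (1 - u)) (fun X => -(x / (1 - u) ^ 2) * ker (-(x / (1 - u))) X),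
      Ph_const, Ph_smul]
    unfold eN fN
    ring
  rw [e0, e1] at h
  calc _ = _ := by
        congr 1
        unfold eN
        ring
    _ ≤ _ := h

lemma Ph_ker_hasDeriv (N n : ℕ) (x : ℂ) : ∀ X : ℂ,
    HasDerivAt (fun u => Ph (ker u) N n x X) (Ph (fun X => X ^ 2) N n x X) 0 := by
  induction n with
  | zero =>
    intro X
    simp only [Ph]
    unfold ker
    have h1 : HasDerivAt (fun u : ℂ => 1 - u * X) (-X) 0 := by
      have := ((hasDerivAt_id (0 : ℂ)).mul_const X).const_sub 1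
      simpa using this
    have h2 : (fun u : ℂ => 1 - u * X) 0 ≠ 0 := by simp
    have h3 := (h1.inv h2).const_mul X
    have h4 : X * (- -X / (1 - 0 * X) ^ 2) = X ^ 2 := by
      rw [zero_mul, sub_zero, one_pow, div_one, neg_neg, sq]
    have h5 : (fun u : ℂ => X / (1 - u * X)) = fun y => X * (fun u : ℂ => 1 - u * X)⁻¹ y := by
      ext y
      rw [Pi.inv_apply, div_eq_mul_inv]
    rw [h5, ← h4]
    exact h3
  | succ n ih =>
    intro X
    simp only [Ph]
    apply HasDerivAt.add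
    · apply HasDerivAt.fun_sum
      intro k _
      exact (ih (g k x X)).const_mul _
    · exact (ih (g N x X)).const_mul _

lemma Ph_ker_diff (N n : ℕ) (x : ℂ) (hx : Good N x) : ∀ X ∈ UX,
    DifferentiableOn ℂ (fun u => Ph (ker u) N n x X) (ball 0 (1 / 4)) := by
  induction n with
  | zero =>
    intro X hX u hu
    simp only [Ph]
    apply DifferentiableAt.differentiableWithinAt
    unfold ker
    simp only [div_eq_mul_inv]
    have hu' : ‖u‖ ≤ 1 / 4 := by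
      have := (mem_ball.mp hu).le
      simpa [dist_eq_norm] using this
    exact (by fun_prop : DifferentiableAt ℂ (fun _ => X) u).mul
      ((by fun_prop : DifferentiableAt ℂ (fun u => 1 - u * X) u).inv (ker_den_ne hu' hX))
  | succ n ih =>
    intro X hX
    simp only [Ph]
    apply DifferentiableOn.add
    · apply DifferentiableOn.fun_sum
      intro k hk
      exact (ih (g k x X) (Good.mem' (Finset.mem_range.mp hk).le hx hX)).const_mul _
    · exact (ih (g N x X) (Good.mem' le_rfl hx hX)).const_mul _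

lemma eN_bound {x u : ℂ} (hx : ‖x‖ ≤ 1 / 16) (hu : ‖u‖ ≤ 1 / 4) (N : ℕ) : ‖eN N x u‖ ≤ 7 :=
  Ph_bound _ 7 (fun X hX => ker_bound hu hX) N N x (good_small hx N) 1 (by simp)

end Pool.Agent.Helper8.BM
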