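import Pool.Agent.Helper8.BM.Interior

set_option autoImplicit false
set_option maxHeartbeats 4000000

namespace Pool.Agent.Helper8.BM

open Finset Complex Metric ComplexConjugate

noncomputable def den (k : ℕ) (x X : ℂ) : ℂ := S k x + x * X

noncomputable def g (k : ℕ) (x X : ℂ) : ℂ := x ^ k / den k x X

lemma den_slack (k : ℕ) (X : ℂ) (hX : ‖X - 1‖ ≤ 3 / 2) (x : ℂ) (hx : ‖x - 1 / 2‖ ≤ 1 / 2) :
    (6 / 5) * ‖x ^ k‖ + 1 / 20 ≤ ‖den k x X + (4 / 5) * x ^ k‖ := by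
  set n := x ^ k with hn
  set A := den k x X + (4 / 5) * n with hA
  have hY : ∀ Y : ℂ, ‖Y + 4 / 5‖ ≤ 6 / 5 → 1 / 20 ≤ ‖A - n * (Y + 4 / 5)‖ := by
    intro Y hY
    have := interior_bd k X Y hX hY x hx
    rw [show A - n * (Y + 4 / 5) = S k x + x * X - x ^ k * Y by rw [hA, hn]; unfold den; ring]
    exact this
  by_cases hn0 : n = 0
  · have := hY (-(4 / 5)) (by simp; norm_num)
    rw [hn0] at this ⊢
    simpa using this
  have hn1 : 0 < ‖n‖ := norm_pos_iff.mpr hn0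
  have h1 : (6 / 5) * ‖n‖ < ‖A‖ := by
    by_contra hle
    push Not at hle
    have h2 := hY (A / n - 4 / 5) (by
      rw [sub_add_cancel, norm_div, div_le_iff₀ hn1]; exact hle)
    rw [sub_add_cancel, mul_div_cancel₀ _ hn0, sub_self, norm_zero] at h2
    norm_num at h2
  have hA0 : 0 < ‖A‖ := lt_trans (by positivity) h1
  have hAne : A ≠ 0 := norm_pos_iff.mp hA0
  have h3 := hY ((6 / 5) * (‖n‖ / n) * (A / ‖A‖) - 4 / 5) (by
    have h65 : ‖(6 / 5 : ℂ)‖ = 6 / 5 := by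
      rw [show (6 / 5 : ℂ) = ((6 / 5 : ℝ) : ℂ) by push_cast; ring, Complex.norm_real]
      norm_num
    rw [sub_add_cancel, norm_mul, norm_mul, h65, norm_div, norm_div, Complex.norm_real,
      Complex.norm_real, norm_norm, norm_norm, div_self hn1.ne', div_self hA0.ne']
    norm_num)
  rw [sub_add_cancel] at h3
  have hA0' : (‖A‖ : ℂ) ≠ 0 := by exact_mod_cast hA0.ne'
  have e : A - n * ((6 / 5) * (‖n‖ / n) * (A / ‖A‖))
      = (((‖A‖ - 6 / 5 * ‖n‖) : ℝ) : ℂ) * (A / ‖A‖) := by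
    push_cast
    field_simp
  rw [e, norm_mul, norm_div, Complex.norm_real, Complex.norm_real, norm_norm, div_self hA0.ne',
    mul_one, Real.norm_of_nonneg (by linarith)] at h3
  linarith

lemma inv_lem (n D : ℂ) (h : (123 / 100) * ‖n‖ ≤ ‖D + (4 / 5) * n‖) :
    ‖n - D‖ ≤ (299 / 200) * ‖D‖ := by
  rcases le_or_gt ‖n‖ ((99 / 200) * ‖D‖) with h1 | h1
  · have := norm_sub_le n D
    linarith
  · refine le_of_sq_le_sq_aux ?_ (by positivity)
    have h2 : ((123 / 100) * ‖n‖) ^ 2 ≤ ‖D + (4 / 5) * n‖ ^ 2 :=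
      pow_le_pow_left₀ (by positivity) h 2
    rw [mul_pow] at h2
    rw [mul_pow]
    have e1 : ‖D + (4 / 5) * n‖ ^ 2 = ‖D‖ ^ 2 + 16 / 25 * ‖n‖ ^ 2 + 8 / 5 * (D.re * n.re + D.im * n.im) := by
      have h45 : (4 / 5 : ℂ) = ((4 / 5 : ℝ) : ℂ) := by push_cast; ring
      rw [h45, ← Complex.normSq_eq_norm_sq, ← Complex.normSq_eq_norm_sq,
        ← Complex.normSq_eq_norm_sq, Complex.normSq_apply, Complex.normSq_apply,
        Complex.normSq_apply]
      simp only [Complex.add_re, Complex.add_im, Complex.re_ofReal_mul, Complex.im_ofReal_mul]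
      ring
    have e2 : ‖n - D‖ ^ 2 = ‖D‖ ^ 2 + ‖n‖ ^ 2 - 2 * (D.re * n.re + D.im * n.im) := by
      rw [← Complex.normSq_eq_norm_sq, ← Complex.normSq_eq_norm_sq,
        ← Complex.normSq_eq_norm_sq, Complex.normSq_apply, Complex.normSq_apply,
        Complex.normSq_apply]
      simp only [Complex.sub_re, Complex.sub_im]
      ring
    rw [e1] at h2
    rw [e2]
    have h3 : ((99 / 200) * ‖D‖) ^ 2 ≤ ‖n‖ ^ 2 := pow_le_pow_left₀ (by positivity) h1.le 2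
    nlinarith

/-- width of the domain extension at level `N` -/
noncomputable def eta (N : ℕ) : ℝ := 1 / (1000 * ((N : ℝ) + 1) ^ 2)

lemma eta_pos (N : ℕ) : 0 < eta N := by unfold eta; positivity

lemma pow_sub_bound (x x0 : ℂ) (e : ℝ) (he : 0 ≤ e) (hx : ‖x‖ ≤ 1 + e) (hx0 : ‖x0‖ ≤ 1)
    (hd : ‖x - x0‖ ≤ e) (j : ℕ) : ‖x ^ j - x0 ^ j‖ ≤ j * (1 + e) ^ j * e := by
  induction j with
  | zero => simp
  | succ j ih =>
    have e1 : x ^ (j + 1) - x0 ^ (j + 1) = x ^ j * (x - x0) + (x ^ j - x0 ^ j) * x0 := by ring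
    rw [e1]
    have h1 : (1 + e) ^ j ≤ (1 + e) ^ (j + 1) := pow_le_pow_right₀ (by linarith) (by omega)
    have h0 : 0 ≤ (1 + e) ^ j := by positivity
    calc _ ≤ ‖x ^ j * (x - x0)‖ + ‖(x ^ j - x0 ^ j) * x0‖ := norm_add_le _ _
      _ = ‖x‖ ^ j * ‖x - x0‖ + ‖x ^ j - x0 ^ j‖ * ‖x0‖ := by rw [norm_mul, norm_mul, norm_pow]
      _ ≤ (1 + e) ^ j * e + (j * (1 + e) ^ j * e) * 1 := by
        gcongr
      _ ≤ ((j + 1 : ℕ) : ℝ) * (1 + e) ^ (j + 1) * e := by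
        push_cast
        have : (1 + e) ^ j * e + (j * (1 + e) ^ j * e) * 1 = (j + 1) * (1 + e) ^ j * e := by ring
        rw [this]
        gcongr

lemma one_add_eta_pow (N j : ℕ) (hj : j ≤ N + 1) : (1 + eta N) ^ j ≤ 3 := by
  have h0 : eta N ≤ 1 / ((N : ℝ) + 1) := by
    unfold eta
    apply one_div_le_one_div_of_le (by positivity)
    have : (1 : ℝ) ≤ (N : ℝ) + 1 := by linarith [Nat.cast_nonneg (α := ℝ) N]
    nlinarith
  have hp := eta_pos N
  calc (1 + eta N) ^ j ≤ (1 + eta N) ^ (N + 1) := pow_le_pow_right₀ (by linarith) hj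
    _ ≤ (Real.exp (eta N)) ^ (N + 1) := by
        apply pow_le_pow_left₀ (by linarith)
        linarith [Real.add_one_le_exp (eta N)]
    _ = Real.exp ((N + 1 : ℕ) * eta N) := by rw [← Real.exp_nat_mul]
    _ ≤ Real.exp 1 := by
        apply Real.exp_le_exp.mpr
        push_cast
        have hN : (0 : ℝ) < (N : ℝ) + 1 := by positivity
        calc ((N : ℝ) + 1) * eta N ≤ ((N : ℝ) + 1) * (1 / ((N : ℝ) + 1)) := by gcongr
          _ = 1 := by field_simp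
    _ ≤ 3 := by linarith [Real.exp_one_lt_d9]

lemma exists_near (N : ℕ) (x : ℂ) (hx : ‖x - 1 / 2‖ ≤ 1 / 2 + eta N) :
    ∃ x0 : ℂ, ‖x0 - 1 / 2‖ ≤ 1 / 2 ∧ ‖x - x0‖ ≤ eta N := by
  have hp := eta_pos N
  have h1 : (0 : ℝ) < 1 + 2 * eta N := by linarith
  refine ⟨1 / 2 + (((1 + 2 * eta N)⁻¹ : ℝ) : ℂ) * (x - 1 / 2), ?_, ?_⟩
  · rw [add_sub_cancel_left, norm_mul, Complex.norm_real, Real.norm_of_nonneg (by positivity),
      inv_mul_le_iff₀ h1]
    linarith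
  · have : x - (1 / 2 + (((1 + 2 * eta N)⁻¹ : ℝ) : ℂ) * (x - 1 / 2))
        = ((1 - (1 + 2 * eta N)⁻¹ : ℝ) : ℂ) * (x - 1 / 2) := by push_cast; ring
    rw [this, norm_mul, Complex.norm_real]
    have h2 : 1 - (1 + 2 * eta N)⁻¹ = 2 * eta N / (1 + 2 * eta N) := by field_simp; ring
    rw [h2, Real.norm_of_nonneg (by positivity), div_mul_eq_mul_div, div_le_iff₀ h1]
    nlinarith

/-- Main invariance: on the extended disc, letters `k ≤ N` map the disc `|X-1| ≤ 3/2`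
into the disc `|X-1| ≤ 299/200`. -/
lemma invariance (N k : ℕ) (hk : k ≤ N) (x : ℂ) (hx : ‖x - 1 / 2‖ ≤ 1 / 2 + eta N)
    (X : ℂ) (hX : ‖X - 1‖ ≤ 3 / 2) :
    1 / 50 ≤ ‖den k x X‖ ∧ ‖g k x X - 1‖ ≤ 299 / 200 := by
  obtain ⟨x0, hx0, hd⟩ := exists_near N x hx
  have hp := eta_pos N
  have hx0n := norm_le_one_of_mem hx0
  have hxn : ‖x‖ ≤ 1 + eta N := by
    have := norm_add_le (x - x0) x0
    simp at this
    linarith
  have hNr : (1 : ℝ) ≤ (N : ℝ) + 1 := by linarith [Nat.cast_nonneg (α := ℝ) N]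
  have hXn : ‖X‖ ≤ 5 / 2 := by
    have := norm_add_le (X - 1) 1
    simp at this
    linarith
  have hbase : ∀ j : ℕ, j ≤ N + 1 → ‖x ^ j - x0 ^ j‖ ≤ 3 * ((N : ℝ) + 1) * eta N := by
    intro j hj
    have h1 := pow_sub_bound x x0 (eta N) hp.le hxn hx0n hd j
    have h2 := one_add_eta_pow N j hj
    have h3 : (j : ℝ) ≤ (N : ℝ) + 1 := by exact_mod_cast hj
    calc _ ≤ _ := h1
      _ ≤ ((N : ℝ) + 1) * 3 * eta N := by gcongr
      _ = _ := by ring
  have hee : ((N : ℝ) + 1) ^ 2 * eta N = 1 / 1000 := by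
    unfold eta; field_simp
  have hee1 : ((N : ℝ) + 1) * eta N ≤ 1 / 1000 := by
    rw [← hee]; nlinarith
  have hee2 : eta N ≤ 1 / 1000 := by nlinarith
  have hn : ‖x ^ k - x0 ^ k‖ ≤ 3 / 1000 := by
    have := hbase k (by omega)
    linarith
  have hS : ‖S k x - S k x0‖ ≤ 3 / 1000 := by
    unfold S
    rw [← Finset.sum_sub_distrib]
    calc _ ≤ ∑ j ∈ range (k + 1), ‖x ^ j - x0 ^ j‖ := norm_sum_le _ _
      _ ≤ ∑ j ∈ range (k + 1), (3 * ((N : ℝ) + 1) * eta N) := by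
          apply Finset.sum_le_sum
          intro j hj
          exact hbase j (by have := Finset.mem_range.mp hj; omega)
      _ = ((k : ℝ) + 1) * (3 * ((N : ℝ) + 1) * eta N) := by
          rw [Finset.sum_const, Finset.card_range, nsmul_eq_mul]; push_cast; ring
      _ ≤ ((N : ℝ) + 1) * (3 * ((N : ℝ) + 1) * eta N) := by
          have : (k : ℝ) ≤ N := by exact_mod_cast hk
          gcongr
      _ = 3 / 1000 := by linear_combination 3 * hee
  have hden : ‖den k x X - den k x0 X‖ ≤ 11 / 2000 := by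
    have : den k x X - den k x0 X = (S k x - S k x0) + (x - x0) * X := by unfold den; ring
    rw [this]
    calc _ ≤ ‖S k x - S k x0‖ + ‖(x - x0) * X‖ := norm_add_le _ _
      _ ≤ 3 / 1000 + (1 / 1000) * (5 / 2) := by
          rw [norm_mul]
          gcongr
          linarith
      _ = _ := by norm_num
  have hsl := den_slack k X hX x0 hx0
  have h45 : ‖(4 / 5 : ℂ)‖ = 4 / 5 := by
    rw [show (4 / 5 : ℂ) = ((4 / 5 : ℝ) : ℂ) by push_cast; ring, Complex.norm_real]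
    norm_num
  have hn0 : ‖x ^ k‖ ≤ ‖x0 ^ k‖ + 3 / 1000 := by
    have := norm_add_le (x ^ k - x0 ^ k) (x0 ^ k)
    simp only [sub_add_cancel] at this
    linarith
  have hA : ‖den k x0 X + (4 / 5) * x0 ^ k‖ ≤ ‖den k x X + (4 / 5) * x ^ k‖ + 79 / 10000 := by
    have e : den k x0 X + (4 / 5) * x0 ^ k = (den k x X + (4 / 5) * x ^ k)
        - ((den k x X - den k x0 X) + (4 / 5) * (x ^ k - x0 ^ k)) := by ring
    rw [e]
    calc _ ≤ ‖den k x X + (4 / 5) * x ^ k‖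
        + ‖(den k x X - den k x0 X) + (4 / 5) * (x ^ k - x0 ^ k)‖ := norm_sub_le _ _
      _ ≤ ‖den k x X + (4 / 5) * x ^ k‖ + (‖den k x X - den k x0 X‖
          + ‖(4 / 5 : ℂ) * (x ^ k - x0 ^ k)‖) := by gcongr; exact norm_add_le _ _
      _ ≤ _ := by rw [norm_mul, h45]; linarith
  have hx0k : ‖x0 ^ k‖ ≤ 1 := by
    rw [norm_pow]; exact pow_le_one₀ (norm_nonneg _) hx0n
  have hfin : (123 / 100) * ‖x ^ k‖ ≤ ‖den k x X + (4 / 5) * x ^ k‖ := by linarith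
  have hD : 1 / 50 ≤ ‖den k x X‖ := by
    have : ‖den k x X + (4 / 5) * x ^ k‖ ≤ ‖den k x X‖ + 4 / 5 * ‖x ^ k‖ := by
      calc _ ≤ ‖den k x X‖ + ‖(4 / 5 : ℂ) * x ^ k‖ := norm_add_le _ _
        _ = _ := by rw [norm_mul, h45]
    linarith [norm_nonneg (x ^ k)]
  refine ⟨hD, ?_⟩
  have hDpos : 0 < ‖den k x X‖ := by linarith
  have hDne : den k x X ≠ 0 := norm_pos_iff.mp hDpos
  have e : g k x X - 1 = (x ^ k - den k x X) / den k x X := by
    unfold g; field_simp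
  rw [e, norm_div, div_le_iff₀ hDpos]
  exact inv_lem _ _ hfin

end Pool.Agent.Helper8.BM
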