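import Pool.Agent.Helper8.BM.Kern
import Pool.Agent.Helper8.BM.EE

set_option autoImplicit false
set_option maxHeartbeats 4000000

namespace Pool.Agent.Helper8.BM

open Complex Metric Set Filter Topology

lemma eN_sub_EE {q : ℕ → ℕ → ℝ} (hq : IsQ q) {x : ℂ} (hx : ‖x‖ ≤ 1 / 16) (N : ℕ) :
    ∀ u : ℂ, ‖u‖ ≤ 1 / 4 → ‖eN N x u - EE q x u‖ ≤ 2 * epsN N := by
  have heps : 0 ≤ epsN N := by
    unfold epsN
    have := kap_pos
    positivity
  have step : ∀ B : ℝ, 0 ≤ B → (∀ u : ℂ, ‖u‖ ≤ 1 / 4 → ‖eN N x u - EE q x u‖ ≤ B) →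
      ∀ u : ℂ, ‖u‖ ≤ 1 / 4 → ‖eN N x u - EE q x u‖ ≤ B / 2 + epsN N := by
    intro B hB h u hu
    have h1 := eN_equation hx hu N
    have h2 := EE_equation hq hx hu (arg0 hx hu) (arg1 hx hu)
    have h3 := h _ (arg0 hx hu)
    have h4 := h _ (arg1 hx hu)
    have hu' := one_sub_ne hu
    have e : eN N x u - EE q x u
        = (eN N x u - (1 / 2) * (x * eN N x (x * (u - 1)) + (1 / (1 - u)
          - x / (1 - u) ^ 2 * eN N x (-(x / (1 - u))))))
        + (1 / 2) * (x * (eN N x (x * (u - 1)) - EE q x (x * (u - 1)))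
          - x / (1 - u) ^ 2 * (eN N x (-(x / (1 - u))) - EE q x (-(x / (1 - u))))) := by
      nth_rewrite 1 [h2]
      ring
    have h12 : ‖(1 / 2 : ℂ)‖ = 1 / 2 := by
      rw [show (1 / 2 : ℂ) = ((1 / 2 : ℝ) : ℂ) by push_cast; ring, Complex.norm_real]
      norm_num
    have hx2 : ‖x / (1 - u) ^ 2‖ ≤ 1 / 9 := by
      rw [norm_div, norm_pow, div_le_iff₀ (by positivity)]
      have : (9 / 16 : ℝ) ≤ ‖1 - u‖ ^ 2 := by nlinarith
      linarith
    rw [e]
    calc _ ≤ epsN N + ‖(1 / 2) * (x * (eN N x (x * (u - 1)) - EE q x (x * (u - 1)))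
          - x / (1 - u) ^ 2 * (eN N x (-(x / (1 - u))) - EE q x (-(x / (1 - u)))))‖ :=
          (norm_add_le _ _).trans (add_le_add h1 le_rfl)
      _ ≤ epsN N + 1 / 2 * (1 / 16 * B + 1 / 9 * B) := by
          rw [norm_mul, h12]
          gcongr
          refine (norm_sub_le _ _).trans ?_
          rw [norm_mul, norm_mul]
          gcongr
      _ ≤ _ := by linarith
  have iter : ∀ m : ℕ, ∀ u : ℂ, ‖u‖ ≤ 1 / 4 →
      ‖eN N x u - EE q x u‖ ≤ 11 * (1 / 2) ^ m + 2 * epsN N := by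
    intro m
    induction m with
    | zero =>
      intro u hu
      have h1 := eN_bound hx hu N
      have h2 := EE_bound hq hx hu
      have h3 := norm_sub_le (eN N x u) (EE q x u)
      rw [pow_zero]
      linarith
    | succ m ih =>
      intro u hu
      have h0 : 0 ≤ 11 * (1 / 2 : ℝ) ^ m + 2 * epsN N := by positivity
      have := step _ h0 ih u hu
      rw [pow_succ]
      linarith
  intro u hu
  have hlim : Tendsto (fun m : ℕ => 11 * (1 / 2 : ℝ) ^ m + 2 * epsN N) atTop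
      (𝓝 (11 * 0 + 2 * epsN N)) := by
    apply Tendsto.add_const
    apply Tendsto.const_mul
    exact tendsto_pow_atTop_nhds_zero_of_lt_one (by norm_num) (by norm_num)
  have := ge_of_tendsto' hlim (fun m => iter m u hu)
  simpa using this

/-- the limit function near zero -/
noncomputable def f1 (q : ℕ → ℕ → ℝ) (x : ℂ) : ℂ := ∑' n : ℕ, (q n 1 : ℂ) * x ^ n

lemma mem_closed {r : ℝ} {u : ℂ} (hu : u ∈ ball (0 : ℂ) r) : ‖u‖ ≤ r := by
  have := (mem_ball.mp hu).le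
  simpa [dist_eq_norm] using this

lemma EE_deriv {q : ℕ → ℕ → ℝ} (hq : IsQ q) {x : ℂ} (hx : ‖x‖ ≤ 1 / 16) :
    deriv (EE q x) 0 = f1 q x := by
  have h := Complex.hasSum_deriv_of_summable_norm (U := ball (0 : ℂ) (1 / 4)) (z := 0)
    (F := fun (p : ℕ × ℕ) v => (q p.1 p.2 : ℂ) * x ^ p.1 * v ^ p.2) maj_summable
    (fun p => by fun_prop) isOpen_ball
    (fun p w hw => term_bound hq hx (mem_closed hw) p) (by simp)
  have h1 : deriv (fun w : ℂ => ∑' p : ℕ × ℕ, (q p.1 p.2 : ℂ) * x ^ p.1 * w ^ p.2) 0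
      = deriv (EE q x) 0 := rfl
  rw [h1] at h
  have h2 : ∀ p : ℕ × ℕ, deriv (fun v : ℂ => (q p.1 p.2 : ℂ) * x ^ p.1 * v ^ p.2) 0
      = if p.2 = 1 then (q p.1 1 : ℂ) * x ^ p.1 else 0 := by
    intro p
    rw [deriv_const_mul _ (by fun_prop), deriv_pow_field]
    rcases hp : p.2 with _ | _ | k
    · simp
    · simp
    · simp
  simp only [h2] at h
  have h3 := h.prod_fiberwise (g := fun n => (q n 1 : ℂ) * x ^ n) (by
    intro n
    have := hasSum_ite_eq (1 : ℕ) ((q n 1 : ℂ) * x ^ n)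
    simpa using this)
  exact h3.tsum_eq.symm

lemma EE_diff {q : ℕ → ℕ → ℝ} (hq : IsQ q) {x : ℂ} (hx : ‖x‖ ≤ 1 / 16) :
    DifferentiableOn ℂ (EE q x) (ball 0 (1 / 4)) :=
  Complex.differentiableOn_tsum_of_summable_norm
    (F := fun (p : ℕ × ℕ) v => (q p.1 p.2 : ℂ) * x ^ p.1 * v ^ p.2) maj_summable
    (fun p => by fun_prop) isOpen_ball
    (fun p w hw => term_bound hq hx (mem_closed hw) p)

lemma fN_sub_f1 {q : ℕ → ℕ → ℝ} (hq : IsQ q) {x : ℂ} (hx : ‖x‖ ≤ 1 / 16) (N : ℕ) :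
    ‖fN (fun X => X ^ 2) N x - f1 q x‖ ≤ 16 * epsN N := by
  have hG : Good N x := good_small hx N
  have hd1 : DifferentiableOn ℂ (fun u => eN N x u) (ball 0 (1 / 4)) :=
    Ph_ker_diff N N x hG 1 (by simp)
  have hd : DifferentiableOn ℂ (fun u => eN N x u - EE q x u) (ball 0 (1 / 4)) :=
    hd1.sub (EE_diff hq hx)
  have hdc : DiffContOnCl ℂ (fun u => eN N x u - EE q x u) (ball 0 (1 / 8)) := by
    apply DifferentiableOn.diffContOnCl
    apply hd.mono
    exact closure_ball_subset_closedBall.trans (closedBall_subset_ball (by norm_num))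
  have hC : ∀ z ∈ sphere (0 : ℂ) (1 / 8), ‖eN N x z - EE q x z‖ ≤ 2 * epsN N := by
    intro z hz
    apply eN_sub_EE hq hx N
    have := mem_sphere.mp hz
    rw [dist_eq_norm, sub_zero] at this
    rw [this]
    norm_num
  have h := Complex.norm_deriv_le_of_forall_mem_sphere_norm_le (by norm_num) hdc hC
  have h1 : HasDerivAt (fun u => eN N x u) (fN (fun X => X ^ 2) N x) 0 :=
    Ph_ker_hasDeriv N N x 1
  have h2 : HasDerivAt (EE q x) (f1 q x) 0 := by
    rw [← EE_deriv hq hx]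
    exact ((EE_diff hq hx).differentiableAt (isOpen_ball.mem_nhds (by simp))).hasDerivAt
  have h3 := (h1.sub h2).deriv
  have h4 : deriv (fun u => eN N x u - EE q x u) 0 = fN (fun X => X ^ 2) N x - f1 q x := h3
  rw [h4] at h
  linarith

lemma f1_term_bound {q : ℕ → ℕ → ℝ} (hq : IsQ q) {x : ℂ} (hx : ‖x‖ ≤ 1 / 16) (n : ℕ) :
    ‖(q n 1 : ℂ) * x ^ n‖ ≤ (3 / 8) ^ n := by
  rw [norm_mul, norm_pow, Complex.norm_real, Real.norm_eq_abs]
  calc |q n 1| * ‖x‖ ^ n ≤ (1 / 2 * 6 ^ n * 2 ^ 1) * (1 / 16) ^ n := by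
        gcongr
        exact hq.bound _ _
    _ = (6 * (1 / 16)) ^ n := by rw [mul_pow]; ring
    _ = (3 / 8) ^ n := by norm_num

lemma f1_hasSum {q : ℕ → ℕ → ℝ} (hq : IsQ q) {x : ℂ} (hx : ‖x‖ ≤ 1 / 16) :
    HasSum (fun n : ℕ => (q n 1 : ℂ) * x ^ n) (f1 q x) :=
  (Summable.of_norm_bounded (summable_geometric_of_lt_one (by norm_num) (by norm_num))
    (f1_term_bound hq hx)).hasSum

lemma f1_diff {q : ℕ → ℕ → ℝ} (hq : IsQ q) : DifferentiableOn ℂ (f1 q) (ball 0 (1 / 16)) :=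
  Complex.differentiableOn_tsum_of_summable_norm
    (F := fun (n : ℕ) v => (q n 1 : ℂ) * v ^ n)
    (summable_geometric_of_lt_one (r := 3 / 8) (by norm_num) (by norm_num))
    (fun p => by fun_prop) isOpen_ball
    (fun n w hw => f1_term_bound hq (mem_closed hw) n)

lemma dsl_f1 {q : ℕ → ℕ → ℝ} (hq : IsQ q) (n : ℕ) : dsl n (f1 q) = (q n 1 : ℂ) := by
  have h : HasFPowerSeriesAt (f1 q) (FormalMultilinearSeries.ofScalars ℂ (fun n => (q n 1 : ℂ)))
      0 := by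
    rw [hasFPowerSeriesAt_iff]
    have : ball (0 : ℂ) (1 / 16) ∈ 𝓝 (0 : ℂ) := isOpen_ball.mem_nhds (by simp)
    filter_upwards [this] with z hz
    have h1 := f1_hasSum hq (mem_closed hz)
    have e : (fun n : ℕ => z ^ n •
        (FormalMultilinearSeries.ofScalars ℂ (fun n => (q n 1 : ℂ))).coeff n)
        = fun n : ℕ => (q n 1 : ℂ) * z ^ n := by
      ext n
      rw [FormalMultilinearSeries.coeff_ofScalars, smul_eq_mul, mul_comm]
    rw [zero_add, e]
    exact h1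
  have h2 := h.has_fpower_series_iterate_dslope_fslope n
  have h3 := h2.coeff_zero 1
  have h4 : (Function.swap dslope 0)^[n] (f1 q) 0 = dsl n (f1 q) := rfl
  rw [← h4, ← h3]
  have h5 := FormalMultilinearSeries.coeff_iterate_fslope
    (p := FormalMultilinearSeries.ofScalars ℂ (fun n => (q n 1 : ℂ))) n 0
  rw [zero_add, FormalMultilinearSeries.coeff_ofScalars] at h5
  exact h5

lemma dsl_sub_bound {q : ℕ → ℕ → ℝ} (hq : IsQ q) (N n : ℕ) :
    ‖dsl n (fN (fun X => X ^ 2) N) - (q n 1 : ℂ)‖ ≤ 20 ^ n * (16 * epsN N) := by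
  have hF : DifferentiableOn ℂ (fN (fun X => X ^ 2) N) (ball 0 (1 / 16)) :=
    fN_diff _ (by fun_prop) N _ (fun x hx => good_small (mem_closed hx) N)
  have h0 : (0 : ℂ) ∈ ball (0 : ℂ) (1 / 20) := by simp
  rw [← dsl_f1 hq n, ← cI_eq_dsl 0 (1 / 20) (1 / 16) (by norm_num) h0 n _ hF,
    ← cI_eq_dsl 0 (1 / 20) (1 / 16) (by norm_num) h0 n _ (f1_diff hq)]
  have hsub : sphere (0 : ℂ) (1 / 20) ⊆ ball 0 (1 / 16) :=
    sphere_subset_closedBall.trans (closedBall_subset_ball (by norm_num))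
  have hz : ∀ z ∈ sphere (0 : ℂ) (1 / 20), z ≠ 0 := by
    intro z hz h
    rw [h] at hz
    have := mem_sphere.mp hz
    simp at this
  have hc : ∀ f : ℂ → ℂ, DifferentiableOn ℂ f (ball 0 (1 / 16)) →
      CircleIntegrable (fun z => (z ^ (n + 1))⁻¹ * f z) 0 (1 / 20) := by
    intro f hf
    apply ContinuousOn.circleIntegrable (by norm_num)
    apply ContinuousOn.mul _ (hf.continuousOn.mono hsub)
    apply ContinuousOn.inv₀ (by fun_prop)
    intro z hz'
    exact pow_ne_zero _ (hz z hz')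
  have e : cI 0 (1 / 20) n (fN (fun X => X ^ 2) N) - cI 0 (1 / 20) n (f1 q)
      = (2 * Real.pi * I : ℂ)⁻¹ • ∮ z in C(0, 1 / 20),
        ((z ^ (n + 1))⁻¹ * fN (fun X => X ^ 2) N z - (z ^ (n + 1))⁻¹ * f1 q z) := by
    unfold cI
    rw [← smul_sub, circleIntegral.integral_sub (hc _ hF) (hc _ (f1_diff hq))]
  rw [e]
  have hb := circleIntegral.norm_two_pi_i_inv_smul_integral_le_of_norm_le_const
    (c := (0 : ℂ)) (R := 1 / 20) (C := 20 ^ (n + 1) * (16 * epsN N)) (by norm_num)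
    (f := fun z => (z ^ (n + 1))⁻¹ * fN (fun X => X ^ 2) N z - (z ^ (n + 1))⁻¹ * f1 q z) (by
      intro z hz'
      have hz1 : ‖z‖ = 1 / 20 := by
        have := mem_sphere.mp hz'
        rwa [dist_eq_norm, sub_zero] at this
      rw [← mul_sub, norm_mul, norm_inv, norm_pow, hz1]
      have e2 : ((1 / 20 : ℝ) ^ (n + 1))⁻¹ = 20 ^ (n + 1) := by
        rw [← inv_pow]; norm_num
      rw [e2]
      gcongr
      exact fN_sub_f1 hq (by rw [hz1]; norm_num) N)
  calc _ ≤ _ := hb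
    _ = _ := by ring

lemma epsN_tendsto : Tendsto epsN atTop (𝓝 0) := by
  unfold epsN
  have h1 : Tendsto (fun N : ℕ => kap ^ N) atTop (𝓝 0) :=
    tendsto_pow_atTop_nhds_zero_of_lt_one kap_pos.le kap_lt_one
  have h2 : Tendsto (fun N : ℕ => (1 / 2 : ℝ) ^ N) atTop (𝓝 0) :=
    tendsto_pow_atTop_nhds_zero_of_lt_one (by norm_num) (by norm_num)
  have h3 := ((h1.const_mul 2).mul_const 14).add ((h2.mul_const (1 / 2)).mul_const 14)
  simpa [pow_succ] using h3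

/-- The analytic part of the theorem. -/
theorem analytic_part {q : ℕ → ℕ → ℝ} (hq : IsQ q) (m : ℂ)
    (hm : Tendsto (fun N => fN (fun X => X ^ 2) N 1) atTop (𝓝 m)) :
    (∀ t : ℝ, Summable fun n : ℕ => (q n 1 : ℂ) * t ^ n / (n.factorial : ℂ)) ∧
    MeasureTheory.IntegrableOn (fun t : ℝ => (∑' n : ℕ, (q n 1 : ℂ) * t ^ n / (n.factorial : ℂ)) *
      (Real.exp (-t) : ℂ)) (Ioi 0) ∧
    ∫ t in Ioi (0 : ℝ), (∑' n : ℕ, (q n 1 : ℂ) * t ^ n / (n.factorial : ℂ)) *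
      (Real.exp (-t) : ℂ) = m := by
  have hM : ∀ X ∈ UX, ∀ X' ∈ UX, ‖(fun X : ℂ => X ^ 2) X - (fun X : ℂ => X ^ 2) X'‖ ≤ 25 / 2 := by
    intro X hX X' hX'
    calc _ ≤ ‖X ^ 2‖ + ‖X' ^ 2‖ := norm_sub_le _ _
      _ ≤ (5 / 2) ^ 2 + (5 / 2) ^ 2 := by
          rw [norm_pow, norm_pow]
          gcongr
          · exact norm_UX hX
          · exact norm_UX hX'
      _ = _ := by norm_num
  have hφ : DifferentiableOn ℂ (fun X : ℂ => X ^ 2) UX := by fun_prop
  refine borel_sum (fN (fun X => X ^ 2)) (fun n => (q n 1 : ℂ)) (25 / 2) (by norm_num)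
    (fun N => fN_diff _ hφ N _ (fun x hx => good_Ux hx))
    (fun N x hx => fN_sub _ hφ _ hM N x (good_Ux hx)) (fun N => 16 * epsN N) ?_
    (fun N n => dsl_sub_bound hq N n) m hm
  simpa using epsN_tendsto.const_mul 16

end Pool.Agent.Helper8.BM
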