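import Pool.Agent.Helper8.BM.QStieltjes
import Pool.Agent.Helper8.BM.Match

set_option autoImplicit false
set_option maxHeartbeats 4000000

namespace Pool.Agent.Helper8.BM

open Set Filter Topology MeasureTheory

/-- the Minkowski measure on the line -/
noncomputable abbrev mu : Measure ℝ := qmarkStieltjes.measure

lemma leftLim_qmark (x : ℝ) : Function.leftLim (qmarkStieltjes : ℝ → ℝ) x = qmark x := by
  have : ContinuousWithinAt qmark (Iic x) x := qmark_continuous.continuousWithinAt
  exact this.leftLim_eq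

lemma mu_Ioc (a b : ℝ) : mu (Ioc a b) = ENNReal.ofReal (qmark b - qmark a) :=
  qmarkStieltjes.measure_Ioc a b

lemma mu_Icc (a b : ℝ) : mu (Icc a b) = ENNReal.ofReal (qmark b - qmark a) := by
  rw [StieltjesFunction.measure_Icc, leftLim_qmark]
  rfl

lemma mu_singleton (a : ℝ) : mu {a} = 0 := by
  rw [StieltjesFunction.measure_singleton, leftLim_qmark]
  have : qmarkStieltjes a = qmark a := rfl
  rw [this, sub_self, ENNReal.ofReal_zero]

instance : NullSingletonClass mu := ⟨mu_singleton⟩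

/-- the probability measure on the unit interval -/
noncomputable abbrev nu : Measure ℝ := mu.restrict (Icc 0 1)

instance : IsProbabilityMeasure nu := ⟨by
  rw [Measure.restrict_apply_univ, mu_Icc, qmark_one, qmark_zero]
  norm_num⟩

/-- the inverse branches -/
noncomputable def TT (k : ℕ) (y : ℝ) : ℝ := 1 / ((k : ℝ) + 1 + y)

lemma TT_meas (k : ℕ) : Measurable (TT k) := by
  unfold TT
  fun_prop

lemma qmark_endpoint (k : ℕ) : qmark (1 / ((k : ℝ) + 1)) = (1 / 2) ^ k := by
  have := qmark_inv k le_rfl zero_le_one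
  rw [add_zero, qmark_zero, mul_zero, sub_zero] at this
  exact this

lemma self_similar (k : ℕ) :
    mu.restrict (Ioc (1 / ((k : ℝ) + 2)) (1 / ((k : ℝ) + 1)))
      = ENNReal.ofReal ((1 / 2) ^ (k + 1)) • nu.map (TT k) := by
  have hk : (0 : ℝ) ≤ k := Nat.cast_nonneg k
  have he1 : qmark (1 / ((k : ℝ) + 2)) = (1 / 2) ^ (k + 1) := by
    have := qmark_endpoint (k + 1)
    push_cast at this
    rw [show (k : ℝ) + 1 + 1 = k + 2 by ring] at this
    exact this
  have he2 := qmark_endpoint k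
  have : IsFiniteMeasure (mu.restrict (Ioc (1 / ((k : ℝ) + 2)) (1 / ((k : ℝ) + 1)))) :=
    ⟨by
      rw [Measure.restrict_apply_univ, mu_Ioc]
      exact ENNReal.ofReal_lt_top⟩
  apply Measure.ext_of_Iic
  intro s
  rw [Measure.restrict_apply measurableSet_Iic, Measure.smul_apply, smul_eq_mul,
    Measure.map_apply (TT_meas k) measurableSet_Iic,
    Measure.restrict_apply (TT_meas k measurableSet_Iic)]
  rcases le_or_gt s (1 / ((k : ℝ) + 2)) with h1 | h1
  · have e1 : Iic s ∩ Ioc (1 / ((k : ℝ) + 2)) (1 / ((k : ℝ) + 1)) = ∅ := by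
      ext z
      simp only [mem_inter_iff, mem_Iic, mem_Ioc, mem_empty_iff_false, iff_false]
      rintro ⟨ha, hb, _⟩
      linarith
    have e2 : mu (TT k ⁻¹' Iic s ∩ Icc 0 1) = 0 := by
      apply measure_mono_null _ (mu_singleton 1)
      rintro y ⟨hy1, hy2, hy3⟩
      simp only [mem_preimage, mem_Iic, TT] at hy1
      have : 1 / ((k : ℝ) + 1 + y) ≤ 1 / ((k : ℝ) + 2) := hy1.trans h1
      rw [div_le_div_iff_of_pos_left one_pos (by linarith) (by linarith)] at this
      rw [mem_singleton_iff]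
      linarith
    rw [e1, e2, measure_empty, mul_zero]
  · rcases le_or_gt (1 / ((k : ℝ) + 1)) s with h2 | h2
    · have e1 : Iic s ∩ Ioc (1 / ((k : ℝ) + 2)) (1 / ((k : ℝ) + 1))
          = Ioc (1 / ((k : ℝ) + 2)) (1 / ((k : ℝ) + 1)) := by
        apply inter_eq_right.mpr
        intro z hz
        exact hz.2.trans h2
      have e2 : TT k ⁻¹' Iic s ∩ Icc 0 1 = Icc 0 1 := by
        apply inter_eq_right.mpr
        intro y hy
        simp only [mem_preimage, mem_Iic, TT]
        refine le_trans ?_ h2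
        apply one_div_le_one_div_of_le (by linarith)
        linarith [hy.1]
      rw [e1, e2, mu_Ioc, mu_Icc, he1, he2, qmark_one, qmark_zero, sub_zero, ENNReal.ofReal_one,
        mul_one]
      congr 1
      ring
    · have hs0 : 0 < s := lt_trans (by positivity) h1
      set y := 1 / s - ((k : ℝ) + 1) with hy
      have hy0 : 0 < y := by
        rw [hy, sub_pos, lt_div_iff₀ hs0]
        rwa [lt_div_iff₀ (by linarith), mul_comm] at h2
      have hy1 : y < 1 := by
        rw [hy, sub_lt_iff_lt_add, div_lt_iff₀ hs0]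
        rw [div_lt_iff₀ (by linarith)] at h1
        linarith
      have hsy : s = 1 / ((k : ℝ) + 1 + y) := by
        rw [hy, add_sub_cancel, one_div_one_div]
      have e1 : Iic s ∩ Ioc (1 / ((k : ℝ) + 2)) (1 / ((k : ℝ) + 1))
          = Ioc (1 / ((k : ℝ) + 2)) s := by
        ext z
        simp only [mem_inter_iff, mem_Iic, mem_Ioc]
        constructor
        · rintro ⟨ha, hb, _⟩
          exact ⟨hb, ha⟩
        · rintro ⟨ha, hb⟩
          exact ⟨hb, ha, hb.trans h2.le⟩
      have e2 : TT k ⁻¹' Iic s ∩ Icc 0 1 = Icc y 1 := by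
        ext z
        simp only [mem_inter_iff, mem_preimage, mem_Iic, mem_Icc, TT]
        constructor
        · rintro ⟨ha, hb, hc⟩
          rw [hsy, div_le_div_iff_of_pos_left one_pos (by linarith) (by linarith)] at ha
          exact ⟨by linarith, hc⟩
        · rintro ⟨ha, hb⟩
          refine ⟨?_, by linarith, hb⟩
          rw [hsy]
          apply one_div_le_one_div_of_le (by linarith)
          linarith
      rw [e1, e2, mu_Ioc, mu_Icc, he1, qmark_one, ← ENNReal.ofReal_mul (by positivity)]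
      congr 1
      have := qmark_inv k hy0.le hy1.le
      rw [← hsy] at this
      rw [this]
      ring

lemma integrable_nu {φ : ℝ → ℂ} (hφ : ContinuousOn φ (Icc 0 1)) : IntegrableOn φ (Icc 0 1) mu :=
  hφ.integrableOn_Icc

lemma TT_mem (k : ℕ) {y : ℝ} (hy : y ∈ Icc (0 : ℝ) 1) : TT k y ∈ Icc (0 : ℝ) 1 := by
  have hk : (0 : ℝ) ≤ k := Nat.cast_nonneg k
  unfold TT
  have h0 := hy.1
  constructor
  · positivity
  · rw [div_le_one (by linarith)]
    linarith

lemma TT_cont (k : ℕ) : ContinuousOn (TT k) (Icc 0 1) := by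
  have hk : (0 : ℝ) ≤ k := Nat.cast_nonneg k
  unfold TT
  apply ContinuousOn.div continuousOn_const (by fun_prop)
  intro y hy
  have := hy.1
  linarith

/-- change of variables on one branch -/
lemma branch_integral (k : ℕ) {φ : ℝ → ℂ} (hφ : ContinuousOn φ (Icc 0 1)) :
    ∫ x in Ioc (1 / ((k : ℝ) + 2)) (1 / ((k : ℝ) + 1)), φ x ∂mu
      = (1 / 2 : ℂ) ^ (k + 1) * ∫ y in Icc 0 1, φ (TT k y) ∂mu := by
  have hk : (0 : ℝ) ≤ k := Nat.cast_nonneg k
  have hsub : Ioc (1 / ((k : ℝ) + 2)) (1 / ((k : ℝ) + 1)) ⊆ Icc 0 1 := by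
    intro x hx
    refine ⟨le_trans (by positivity) hx.1.le, hx.2.trans ?_⟩
    rw [div_le_one (by linarith)]
    linarith
  -- replace φ by a globally measurable function
  set ψ : ℝ → ℂ := (Icc (0 : ℝ) 1).indicator φ with hψ
  have hψm : AEStronglyMeasurable ψ (nu.map (TT k)) := by
    have h1 : Measurable ψ := by
      have := hφ.measurable_piecewise (g := fun _ => (0 : ℂ)) (s := Icc (0 : ℝ) 1)
        continuousOn_const measurableSet_Icc
      have e : ψ = (Icc (0 : ℝ) 1).piecewise φ 0 := by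
        rw [Set.piecewise_eq_indicator]
      rw [e]
      exact this
    exact h1.aestronglyMeasurable
  have e1 : ∫ x in Ioc (1 / ((k : ℝ) + 2)) (1 / ((k : ℝ) + 1)), φ x ∂mu
      = ∫ x in Ioc (1 / ((k : ℝ) + 2)) (1 / ((k : ℝ) + 1)), ψ x ∂mu := by
    apply setIntegral_congr_fun measurableSet_Ioc
    intro x hx
    rw [hψ, indicator_of_mem (hsub hx)]
  have e2 : ∫ y in Icc 0 1, φ (TT k y) ∂mu = ∫ y in Icc 0 1, ψ (TT k y) ∂mu := by
    apply setIntegral_congr_fun measurableSet_Icc
    intro x hx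
    simp only [hψ]
    rw [indicator_of_mem (TT_mem k hx)]
  rw [e1, e2, self_similar, integral_smul_measure, integral_map (TT_meas k).aemeasurable hψm,
    ENNReal.toReal_ofReal (by positivity), Complex.real_smul]
  push_cast
  rfl

lemma sum_branches (N : ℕ) {φ : ℝ → ℂ} (hφ : ContinuousOn φ (Icc 0 1)) :
    ∫ x in Ioc (1 / ((N : ℝ) + 1)) 1, φ x ∂mu
      = ∑ k ∈ Finset.range N, (1 / 2 : ℂ) ^ (k + 1) * ∫ y in Icc 0 1, φ (TT k y) ∂mu := by
  induction N with
  | zero => simp
  | succ N ih =>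
    have hN : (0 : ℝ) ≤ N := Nat.cast_nonneg N
    rw [Finset.sum_range_succ, ← ih, ← branch_integral N hφ]
    have h12 : 1 / ((N : ℝ) + 2) ≤ 1 / ((N : ℝ) + 1) :=
      one_div_le_one_div_of_le (by linarith) (by linarith)
    have h11 : 1 / ((N : ℝ) + 1) ≤ 1 := by
      rw [div_le_one (by linarith)]
      linarith
    have e : Ioc (1 / (((N + 1 : ℕ) : ℝ) + 1)) 1
        = Ioc (1 / ((N : ℝ) + 2)) (1 / ((N : ℝ) + 1)) ∪ Ioc (1 / ((N : ℝ) + 1)) 1 := by
      push_cast
      rw [show (N : ℝ) + 1 + 1 = N + 2 by ring, Ioc_union_Ioc_eq_Ioc h12 h11]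
    have hi := integrable_nu hφ
    have hp : 0 < 1 / ((N : ℝ) + 2) := by positivity
    rw [e, setIntegral_union]
    · ring
    · rw [Set.disjoint_left]
      intro x hx hx'
      exact absurd hx'.1 (not_lt.mpr hx.2)
    · exact measurableSet_Ioc
    · apply hi.mono_set
      intro x hx
      exact ⟨hp.le.trans hx.1.le, hx.2.trans h11⟩
    · apply hi.mono_set
      intro x hx
      have : 0 < 1 / ((N : ℝ) + 1) := by positivity
      exact ⟨this.le.trans hx.1.le, hx.2⟩

lemma split_integral (N : ℕ) {φ : ℝ → ℂ} (hφ : ContinuousOn φ (Icc 0 1)) :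
    ∫ x in Icc 0 1, φ x ∂mu = (∫ x in Ioc 0 (1 / ((N : ℝ) + 1)), φ x ∂mu)
      + ∑ k ∈ Finset.range N, (1 / 2 : ℂ) ^ (k + 1) * ∫ y in Icc 0 1, φ (TT k y) ∂mu := by
  have hN : (0 : ℝ) ≤ N := Nat.cast_nonneg N
  have h11 : 1 / ((N : ℝ) + 1) ≤ 1 := by
    rw [div_le_one (by linarith)]
    linarith
  have hp : 0 < 1 / ((N : ℝ) + 1) := by positivity
  have hi := integrable_nu hφ
  rw [← sum_branches N hφ, integral_Icc_eq_integral_Ioc,
    ← Ioc_union_Ioc_eq_Ioc hp.le h11, setIntegral_union]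
  · rw [Set.disjoint_left]
    intro x hx hx'
    exact absurd hx'.1 (not_lt.mpr hx.2)
  · exact measurableSet_Ioc
  · apply hi.mono_set
    intro x hx
    exact ⟨hx.1.le, hx.2.trans h11⟩
  · apply hi.mono_set
    intro x hx
    exact ⟨hp.le.trans hx.1.le, hx.2⟩

end Pool.Agent.Helper8.BM
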