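import Pool.Agent.Helper8.BM.Summ

set_option autoImplicit false
set_option maxHeartbeats 4000000

namespace Pool.Agent.Helper8.BM

open Complex Metric Set Filter Topology

lemma norm_UX {X : ℂ} (hX : X ∈ UX) : ‖X‖ ≤ 5 / 2 := by
  have h1 := mem_UX hX
  have h2 : ‖X‖ ≤ ‖X - 1‖ + ‖(1 : ℂ)‖ := by
    calc ‖X‖ = ‖(X - 1) + 1‖ := by congr 1; ring
      _ ≤ _ := norm_add_le _ _
  rw [norm_one] at h2
  linarith

lemma S_succ (k : ℕ) (x : ℂ) : S (k + 1) x = 1 + x * S k x := by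
  unfold S
  rw [Finset.sum_range_succ', Finset.mul_sum, pow_zero, add_comm]
  congr 1
  apply Finset.sum_congr rfl
  intro j _
  ring

lemma S_small {x : ℂ} (hx : ‖x‖ ≤ 1 / 16) (k : ℕ) : ‖S k x‖ ≤ 16 / 15 := by
  induction k with
  | zero => unfold S; simp; norm_num
  | succ k ih =>
    rw [S_succ]
    calc _ ≤ ‖(1 : ℂ)‖ + ‖x * S k x‖ := norm_add_le _ _
      _ ≤ 1 + (1 / 16) * (16 / 15) := by
        rw [norm_one, norm_mul]
        gcongr
      _ = 16 / 15 := by norm_num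

lemma good_small {x : ℂ} (hx : ‖x‖ ≤ 1 / 16) (N : ℕ) : Good N x := by
  intro k _ X hX
  have hX' := norm_UX hX
  have hxX : ‖x * X‖ ≤ 5 / 32 := by
    rw [norm_mul]
    calc _ ≤ (1 / 16 : ℝ) * (5 / 2) := by gcongr
      _ = _ := by norm_num
  rcases k with _ | k
  · have hd : den 0 x X = 1 + x * X := by unfold den S; simp
    have hn : 27 / 32 ≤ ‖den 0 x X‖ := by
      rw [hd]
      have := norm_sub_norm_le (1 : ℂ) (-(x * X))
      rw [norm_one, norm_neg, sub_neg_eq_add] at this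
      linarith
    have hne : den 0 x X ≠ 0 := norm_pos_iff.mp (by linarith)
    refine ⟨hne, ?_⟩
    have e : g 0 x X - 1 = -(x * X) / den 0 x X := by
      unfold g
      rw [eq_div_iff hne, sub_mul, div_mul_cancel₀ _ hne, hd]
      ring
    rw [e, norm_div, norm_neg, div_le_iff₀ (by linarith)]
    linarith
  · have hS : ‖x * S k x‖ ≤ 1 / 15 := by
      rw [norm_mul]
      calc _ ≤ (1 / 16 : ℝ) * (16 / 15) := by
            gcongr
            exact S_small hx k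
        _ = _ := by norm_num
    have hd : den (k + 1) x X = 1 - (-(x * S k x + x * X)) := by
      unfold den
      rw [S_succ]
      ring
    have hn : 3 / 4 ≤ ‖den (k + 1) x X‖ := by
      rw [hd]
      have h1 := norm_sub_norm_le (1 : ℂ) (-(x * S k x + x * X))
      have h2 := norm_add_le (x * S k x) (x * X)
      rw [norm_one, norm_neg] at h1
      linarith
    have hne : den (k + 1) x X ≠ 0 := norm_pos_iff.mp (by linarith)
    refine ⟨hne, ?_⟩
    have hg : ‖g (k + 1) x X‖ ≤ 1 / 10 := by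
      unfold g
      rw [norm_div, div_le_iff₀ (by linarith), norm_pow]
      have : ‖x‖ ^ (k + 1) ≤ (1 / 16) := by
        calc ‖x‖ ^ (k + 1) ≤ (1 / 16) ^ (k + 1) := by gcongr
          _ ≤ (1 / 16) ^ 1 := by
            apply pow_le_pow_of_le_one (by norm_num) (by norm_num) (by omega)
          _ = 1 / 16 := by norm_num
      linarith
    calc _ ≤ ‖g (k + 1) x X‖ + ‖(1 : ℂ)‖ := norm_sub_le _ _
      _ ≤ _ := by rw [norm_one]; linarith

noncomputable def psi0 (x X : ℂ) : ℂ := x * X / (1 + x * X)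
noncomputable def psi1 (x X : ℂ) : ℂ := 1 / (1 + x * X)

lemma g_zero_eq (x X : ℂ) : g 0 x X = psi1 x X := by
  unfold g den S psi1
  simp

lemma psi0_g (k : ℕ) (x X : ℂ) (h : den k x X ≠ 0) : psi0 x (g k x X) = g (k + 1) x X := by
  have hd : den (k + 1) x X = den k x X + x ^ (k + 1) := by
    unfold den S
    rw [Finset.sum_range_succ (fun j => x ^ j) (k + 1)]
    ring
  unfold psi0 g
  rw [hd]
  have e1 : x * (x ^ k / den k x X) = x ^ (k + 1) / den k x X := by ring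
  rw [e1]
  have e2 : 1 + x ^ (k + 1) / den k x X = (den k x X + x ^ (k + 1)) / den k x X := by
    field_simp
  rw [e2, div_div_div_cancel_right₀ h]

lemma Aop_telescope (N : ℕ) (x X : ℂ) (hx : Good N x) (hX : X ∈ UX) (ψ : ℂ → ℂ) :
    Aop N x (fun Y => ψ Y - (1 / 2) * ψ (psi0 x Y)) X
      = (1 / 2) * ψ (psi1 x X) + (1 / 2) ^ (N + 1) * (ψ (g N x X) - ψ (g (N + 1) x X)) := by
  have h1 : ∀ n ≤ N, ∑ k ∈ Finset.range n, (1 / 2 : ℂ) ^ (k + 1) *
      (ψ (g k x X) - (1 / 2) * ψ (psi0 x (g k x X)))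
      = (1 / 2) * ψ (psi1 x X) - (1 / 2) ^ (n + 1) * ψ (g n x X) := by
    intro n hn
    induction n with
    | zero => simp [g_zero_eq]
    | succ n ih =>
      rw [Finset.sum_range_succ, ih (by omega), psi0_g n x X (hx n (by omega) X hX).1]
      ring
  unfold Aop
  rw [h1 N le_rfl]
  dsimp only
  rw [psi0_g N x X (hx N le_rfl X hX).1]
  ring

lemma psi0_mem {x : ℂ} (hx : ‖x‖ ≤ 1 / 16) {X : ℂ} (hX : X ∈ UX) : psi0 x X ∈ UX := by
  have hX' := norm_UX hX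
  have hxX : ‖x * X‖ ≤ 5 / 32 := by
    rw [norm_mul]
    calc _ ≤ (1 / 16 : ℝ) * (5 / 2) := by gcongr
      _ = _ := by norm_num
  have hn : 27 / 32 ≤ ‖1 + x * X‖ := by
    have := norm_sub_norm_le (1 : ℂ) (-(x * X))
    rw [norm_one, norm_neg, sub_neg_eq_add] at this
    linarith
  have h : ‖psi0 x X‖ ≤ 1 / 4 := by
    unfold psi0
    rw [norm_div, div_le_iff₀ (by linarith)]
    linarith
  rw [mem_ball, dist_eq_norm]
  calc _ ≤ ‖psi0 x X‖ + ‖(1 : ℂ)‖ := norm_sub_le _ _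
    _ < _ := by rw [norm_one]; linarith

lemma one_add_ne {x : ℂ} (hx : ‖x‖ ≤ 1 / 16) {X : ℂ} (hX : X ∈ UX) : 1 + x * X ≠ 0 := by
  have := (good_small hx 0 0 le_rfl X hX).1
  unfold den S at this
  simpa using this

lemma fN_stationary {x : ℂ} (hx : ‖x‖ ≤ 1 / 16) (ψ : ℂ → ℂ) (hψ : DifferentiableOn ℂ ψ UX)
    (M : ℝ) (hM : ∀ X ∈ UX, ∀ X' ∈ UX, ‖ψ X - ψ X'‖ ≤ M) (N : ℕ) :
    ‖fN ψ N x - (1 / 2) * fN (fun X => ψ (psi0 x X)) N x
      - (1 / 2) * fN (fun X => ψ (psi1 x X)) N x‖ ≤ 2 * kap ^ N * M + (1 / 2) ^ (N + 1) * M := by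
  have hM0 : 0 ≤ M := by
    have := hM 1 (by simp) 1 (by simp)
    simpa using this
  have hG : Good N x := good_small hx N
  have hG' : Good (N + 1) x := good_small hx (N + 1)
  have h1X : (1 : ℂ) ∈ UX := by simp
  have hψ0 : DifferentiableOn ℂ (fun X => ψ (psi0 x X)) UX := by
    apply hψ.comp _ (fun X hX => psi0_mem hx hX)
    unfold psi0
    intro X hX
    apply DifferentiableAt.differentiableWithinAt
    simp only [div_eq_mul_inv]
    exact (by fun_prop : DifferentiableAt ℂ (fun X => x * X) X).mul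
      ((by fun_prop : DifferentiableAt ℂ (fun X => 1 + x * X) X).inv (one_add_ne hx hX))
  have hM' : ∀ X ∈ UX, ∀ X' ∈ UX, ‖ψ (psi0 x X) - ψ (psi0 x X')‖ ≤ M :=
    fun X hX X' hX' => hM _ (psi0_mem hx hX) _ (psi0_mem hx hX')
  -- step 1
  have s1 := Ph_succ_sub ψ hψ M hM N N x hG 1 h1X
  have s2 := Ph_succ_sub _ hψ0 M hM' N N x hG 1 h1X
  -- step 2
  have s3 : Ph ψ N (N + 1) x 1 - (1 / 2) * Ph (fun X => ψ (psi0 x X)) N (N + 1) x 1
      = (1 / 2) * fN (fun X => ψ (psi1 x X)) N x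
        + Ph (fun X => (1 / 2) ^ (N + 1) * (ψ (g N x X) - ψ (g (N + 1) x X))) N N x 1 := by
    have a1 : Ph ψ N (N + 1) x 1 - (1 / 2) * Ph (fun X => ψ (psi0 x X)) N (N + 1) x 1
        = Ph (fun Y => ψ Y - (1 / 2) * ψ (psi0 x Y)) N (N + 1) x 1 := by
      have b1 := Ph_add ψ (fun Y => (-(1 / 2) : ℂ) * ψ (psi0 x Y)) N (N + 1) x 1
      have b2 := Ph_smul (-(1 / 2)) (fun Y => ψ (psi0 x Y)) N (N + 1) x 1
      have b3 : (fun Y => ψ Y - (1 / 2) * ψ (psi0 x Y))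
          = (fun X => ψ X + (fun Y => (-(1 / 2) : ℂ) * ψ (psi0 x Y)) X) := by
        ext Y
        ring
      rw [b3, b1, b2]
      ring
    rw [a1, Ph_succ']
    have a2 : ∀ X ∈ UX, Aop N x (fun Y => ψ Y - (1 / 2) * ψ (psi0 x Y)) X
        = (fun X => (1 / 2) * ψ (psi1 x X)
          + (1 / 2) ^ (N + 1) * (ψ (g N x X) - ψ (g (N + 1) x X))) X := by
      intro X hX
      exact Aop_telescope N x X hG hX ψ
    rw [Ph_congr _ _ a2 N N x hG 1 h1X]
    rw [Ph_add (fun X => (1 / 2) * ψ (psi1 x X))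
      (fun X => (1 / 2) ^ (N + 1) * (ψ (g N x X) - ψ (g (N + 1) x X))) N N x 1]
    rw [Ph_smul (1 / 2) (fun X => ψ (psi1 x X)) N N x 1]
    rfl
  have s4 : ‖Ph (fun X => (1 / 2) ^ (N + 1) * (ψ (g N x X) - ψ (g (N + 1) x X))) N N x 1‖
      ≤ (1 / 2) ^ (N + 1) * M := by
    apply Ph_bound _ _ _ N N x hG 1 h1X
    intro X hX
    have h12 : ‖(1 / 2 : ℂ)‖ = 1 / 2 := by
      rw [show (1 / 2 : ℂ) = ((1 / 2 : ℝ) : ℂ) by push_cast; ring, Complex.norm_real]
      norm_num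
    rw [norm_mul, norm_pow, h12]
    gcongr
    exact hM _ (Good.mem' le_rfl hG hX) _ (Good.mem' le_rfl hG' hX)
  have h12 : ‖(1 / 2 : ℂ)‖ = 1 / 2 := by
    rw [show (1 / 2 : ℂ) = ((1 / 2 : ℝ) : ℂ) by push_cast; ring, Complex.norm_real]
    norm_num
  have e : fN ψ N x - (1 / 2) * fN (fun X => ψ (psi0 x X)) N x
      - (1 / 2) * fN (fun X => ψ (psi1 x X)) N x
      = -(Ph ψ N (N + 1) x 1 - Ph ψ N N x 1)
        + (1 / 2) * (Ph (fun X => ψ (psi0 x X)) N (N + 1) x 1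
          - Ph (fun X => ψ (psi0 x X)) N N x 1)
        + Ph (fun X => (1 / 2) ^ (N + 1) * (ψ (g N x X) - ψ (g (N + 1) x X))) N N x 1 := by
    have : fN ψ N x = Ph ψ N N x 1 := rfl
    rw [this]
    have : fN (fun X => ψ (psi0 x X)) N x = Ph (fun X => ψ (psi0 x X)) N N x 1 := rfl
    rw [this]
    linear_combination s3
  rw [e]
  calc _ ≤ ‖-(Ph ψ N (N + 1) x 1 - Ph ψ N N x 1)
        + (1 / 2) * (Ph (fun X => ψ (psi0 x X)) N (N + 1) x 1
          - Ph (fun X => ψ (psi0 x X)) N N x 1)‖ + _ := norm_add_le _ _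
    _ ≤ (‖-(Ph ψ N (N + 1) x 1 - Ph ψ N N x 1)‖
        + ‖(1 / 2) * (Ph (fun X => ψ (psi0 x X)) N (N + 1) x 1
          - Ph (fun X => ψ (psi0 x X)) N N x 1)‖) + _ := by gcongr; exact norm_add_le _ _
    _ ≤ (kap ^ N * M + 1 / 2 * (kap ^ N * M)) + (1 / 2) ^ (N + 1) * M := by
        rw [norm_neg, norm_mul, h12]
        gcongr
    _ ≤ _ := by
        have : 0 ≤ kap ^ N * M := mul_nonneg (pow_nonneg kap_pos.le _) hM0
        linarith

end Pool.Agent.Helper8.BM
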