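import Pool.Agent.Helper8.BM.Contract

set_option autoImplicit false
set_option maxHeartbeats 4000000

namespace Pool.Agent.Helper8.BM

open Finset Complex Metric ComplexConjugate

/-- truncated averages over words of length `n` in the letters `0..N` -/
noncomputable def Ph (φ : ℂ → ℂ) (N : ℕ) : ℕ → ℂ → ℂ → ℂ
  | 0, _, X => φ X
  | n + 1, x, X => (∑ k ∈ range N, (1 / 2 : ℂ) ^ (k + 1) * Ph φ N n x (g k x X))
      + (1 / 2 : ℂ) ^ N * Ph φ N n x (g N x X)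

abbrev UX : Set ℂ := ball (1 : ℂ) (3 / 2)
abbrev Ux (N : ℕ) : Set ℂ := ball (1 / 2 : ℂ) (1 / 2 + eta N)

lemma eta_anti {M N : ℕ} (h : M ≤ N) : eta N ≤ eta M := by
  unfold eta
  apply one_div_le_one_div_of_le (by positivity)
  have : (M : ℝ) ≤ N := by exact_mod_cast h
  gcongr

lemma Ux_anti {M N : ℕ} (h : M ≤ N) : Ux N ⊆ Ux M :=
  ball_subset_ball (by linarith [eta_anti h])

lemma mem_Ux {N : ℕ} {x : ℂ} (hx : x ∈ Ux N) : ‖x - 1 / 2‖ ≤ 1 / 2 + eta N := by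
  have := (mem_ball.mp hx).le
  rwa [dist_eq_norm] at this

lemma mem_UX {X : ℂ} (hX : X ∈ UX) : ‖X - 1‖ ≤ 3 / 2 := by
  have := (mem_ball.mp hX).le
  rwa [dist_eq_norm] at this

/-- all letters up to `N` are admissible at `x` -/
def Good (N : ℕ) (x : ℂ) : Prop :=
  ∀ k ≤ N, ∀ X ∈ UX, den k x X ≠ 0 ∧ ‖g k x X - 1‖ ≤ 299 / 200

lemma Good.anti {M N : ℕ} {x : ℂ} (h : Good N x) (hMN : M ≤ N) : Good M x :=
  fun k hk X hX => h k (hk.trans hMN) X hX

lemma good_Ux {N : ℕ} {x : ℂ} (hx : x ∈ Ux N) : Good N x := by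
  intro k hk X hX
  obtain ⟨h1, h2⟩ := invariance N k hk x (mem_Ux hx) X (mem_UX hX)
  exact ⟨norm_pos_iff.mp (by linarith), h2⟩

lemma Good.mem' {N k : ℕ} (hk : k ≤ N) {x X : ℂ} (hx : Good N x) (hX : X ∈ UX) :
    g k x X ∈ UX := by
  rw [mem_ball, dist_eq_norm]
  exact lt_of_le_of_lt (hx k hk X hX).2 (by norm_num)

lemma g_diff {N k : ℕ} (hk : k ≤ N) (U : Set ℂ) (hU : ∀ x ∈ U, Good N x) :
    DifferentiableOn ℂ (fun p : ℂ × ℂ => g k p.1 p.2) (U ×ˢ UX) := by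
  intro p hp
  apply DifferentiableAt.differentiableWithinAt
  unfold g
  simp only [div_eq_mul_inv]
  apply DifferentiableAt.fun_mul
  · fun_prop
  · apply DifferentiableAt.fun_inv
    · unfold den S
      fun_prop
    · exact (hU _ hp.1 k hk _ hp.2).1

lemma Ph_diff (φ : ℂ → ℂ) (hφ : DifferentiableOn ℂ φ UX) (N n : ℕ)
    (U : Set ℂ) (hU : ∀ x ∈ U, Good N x) :
    DifferentiableOn ℂ (fun p : ℂ × ℂ => Ph φ N n p.1 p.2) (U ×ˢ UX) := by
  induction n with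
  | zero =>
    simp only [Ph]
    exact hφ.comp differentiable_snd.differentiableOn (fun p hp => hp.2)
  | succ n ih =>
    simp only [Ph]
    have hk : ∀ k ≤ N, DifferentiableOn ℂ (fun p : ℂ × ℂ => Ph φ N n p.1 (g k p.1 p.2))
        (U ×ˢ UX) := by
      intro k hk
      exact ih.comp (differentiable_fst.differentiableOn.prodMk (g_diff hk U hU))
        (fun p hp => ⟨hp.1, Good.mem' hk (hU _ hp.1) hp.2⟩)
    apply DifferentiableOn.add
    · apply DifferentiableOn.fun_sum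
      intro k hkN
      exact (hk k (Finset.mem_range.mp hkN).le).const_mul _
    · exact (hk N le_rfl).const_mul _

lemma Ph_diff_X (φ : ℂ → ℂ) (hφ : DifferentiableOn ℂ φ UX) (N n : ℕ) (x : ℂ) (hx : Good N x) :
    DifferentiableOn ℂ (fun X => Ph φ N n x X) UX :=
  (Ph_diff φ hφ N n {x} (by rintro y rfl; exact hx)).comp
    ((differentiableOn_const x).prodMk differentiableOn_id) (fun _ hX => ⟨rfl, hX⟩)

lemma Ph_diff_x (φ : ℂ → ℂ) (hφ : DifferentiableOn ℂ φ UX) (N n : ℕ) (X : ℂ) (hX : X ∈ UX)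
    (U : Set ℂ) (hU : ∀ x ∈ U, Good N x) :
    DifferentiableOn ℂ (fun x => Ph φ N n x X) U :=
  (Ph_diff φ hφ N n U hU).comp (differentiableOn_id.prodMk (differentiableOn_const X))
    (fun _ hx => ⟨hx, hX⟩)

lemma weights_sum (N : ℕ) : (∑ k ∈ range N, (1 / 2 : ℝ) ^ (k + 1)) + (1 / 2 : ℝ) ^ N = 1 := by
  induction N with
  | zero => simp
  | succ N ih => rw [Finset.sum_range_succ]; linear_combination ih

/-- bound of a weighted average -/
lemma avg_bound (N : ℕ) (a : ℕ → ℂ) (M : ℝ) (h : ∀ k ≤ N, ‖a k‖ ≤ M) :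
    ‖(∑ k ∈ range N, (1 / 2 : ℂ) ^ (k + 1) * a k) + (1 / 2 : ℂ) ^ N * a N‖ ≤ M := by
  have h12 : ‖(1 / 2 : ℂ)‖ = 1 / 2 := by
    rw [show (1 / 2 : ℂ) = ((1 / 2 : ℝ) : ℂ) by push_cast; ring, Complex.norm_real]
    norm_num
  calc _ ≤ ‖∑ k ∈ range N, (1 / 2 : ℂ) ^ (k + 1) * a k‖ + ‖(1 / 2 : ℂ) ^ N * a N‖ :=
        norm_add_le _ _
    _ ≤ (∑ k ∈ range N, ‖(1 / 2 : ℂ) ^ (k + 1) * a k‖) + ‖(1 / 2 : ℂ) ^ N * a N‖ := by
        gcongr; exact norm_sum_le _ _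
    _ ≤ (∑ k ∈ range N, (1 / 2 : ℝ) ^ (k + 1) * M) + (1 / 2 : ℝ) ^ N * M := by
        gcongr with k hk
        · rw [norm_mul, norm_pow, h12]
          gcongr
          exact h k (Finset.mem_range.mp hk).le
        · rw [norm_mul, norm_pow, h12]
          gcongr
          exact h N le_rfl
    _ = ((∑ k ∈ range N, (1 / 2 : ℝ) ^ (k + 1)) + (1 / 2 : ℝ) ^ N) * M := by
        rw [add_mul, Finset.sum_mul]
    _ = M := by rw [weights_sum]; ring

lemma weights_sum_c (N : ℕ) : (∑ k ∈ range N, (1 / 2 : ℂ) ^ (k + 1)) + (1 / 2 : ℂ) ^ N = 1 := by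
  induction N with
  | zero => simp
  | succ N ih => rw [Finset.sum_range_succ]; linear_combination ih

lemma Ph_osc (φ : ℂ → ℂ) (hφ : DifferentiableOn ℂ φ UX) (M : ℝ)
    (hM : ∀ X ∈ UX, ∀ X' ∈ UX, ‖φ X - φ X'‖ ≤ M) (N n : ℕ) (x : ℂ) (hx : Good N x) :
    ∀ X ∈ UX, ∀ X' ∈ UX, ‖Ph φ N n x X - Ph φ N n x X'‖ ≤ kap ^ n * M := by
  induction n with
  | zero =>
    intro X hX X' hX'
    simpa [Ph] using hM X hX X' hX'
  | succ n ih =>
    intro X hX X' hX'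
    have e : Ph φ N (n + 1) x X - Ph φ N (n + 1) x X' =
        (∑ k ∈ range N, (1 / 2 : ℂ) ^ (k + 1) * (Ph φ N n x (g k x X) - Ph φ N n x (g k x X')))
        + (1 / 2 : ℂ) ^ N * (Ph φ N n x (g N x X) - Ph φ N n x (g N x X')) := by
      simp only [Ph, mul_sub, Finset.sum_sub_distrib]
      ring
    rw [e]
    apply avg_bound N (fun k => Ph φ N n x (g k x X) - Ph φ N n x (g k x X'))
    intro k hk
    have := osc_contract (fun X => Ph φ N n x X) (Ph_diff_X φ hφ N n x hx) (kap ^ n * M) ih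
      (g k x X) (g k x X') (hx k hk X hX).2 (hx k hk X' hX').2
    calc _ ≤ kap * (kap ^ n * M) := this
      _ = kap ^ (n + 1) * M := by ring

lemma Ph_succ_sub (φ : ℂ → ℂ) (hφ : DifferentiableOn ℂ φ UX) (M : ℝ)
    (hM : ∀ X ∈ UX, ∀ X' ∈ UX, ‖φ X - φ X'‖ ≤ M) (N n : ℕ) (x : ℂ) (hx : Good N x)
    (X : ℂ) (hX : X ∈ UX) :
    ‖Ph φ N (n + 1) x X - Ph φ N n x X‖ ≤ kap ^ n * M := by
  have e : Ph φ N (n + 1) x X - Ph φ N n x X =
      (∑ k ∈ range N, (1 / 2 : ℂ) ^ (k + 1) * (Ph φ N n x (g k x X) - Ph φ N n x X))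
      + (1 / 2 : ℂ) ^ N * (Ph φ N n x (g N x X) - Ph φ N n x X) := by
    simp only [Ph, mul_sub, Finset.sum_sub_distrib, ← Finset.sum_mul]
    linear_combination (Ph φ N n x X) * weights_sum_c N
  rw [e]
  apply avg_bound N (fun k => Ph φ N n x (g k x X) - Ph φ N n x X)
  intro k hk
  exact Ph_osc φ hφ M hM N n x hx _ (Good.mem' hk hx hX) _ hX

lemma Ph_level_sub (φ : ℂ → ℂ) (hφ : DifferentiableOn ℂ φ UX) (M : ℝ)
    (hM : ∀ X ∈ UX, ∀ X' ∈ UX, ‖φ X - φ X'‖ ≤ M) (N n : ℕ) (x : ℂ) (hx : Good (N + 1) x) :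
    ∀ X ∈ UX, ‖Ph φ (N + 1) n x X - Ph φ N n x X‖ ≤ n * ((1 / 2) ^ (N + 1) * M) := by
  have hM0 : 0 ≤ M := by
    have := hM 1 (by simp) 1 (by simp)
    simpa using this
  induction n with
  | zero =>
    intro X hX
    simp [Ph]
  | succ n ih =>
    intro X hX
    have hx' : Good N x := hx.anti (Nat.le_succ N)
    have e : Ph φ (N + 1) (n + 1) x X - Ph φ N (n + 1) x X =
        ((∑ k ∈ range N, (1 / 2 : ℂ) ^ (k + 1) * (Ph φ (N + 1) n x (g k x X)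
            - Ph φ N n x (g k x X)))
        + (1 / 2 : ℂ) ^ N * (Ph φ (N + 1) n x (g N x X) - Ph φ N n x (g N x X)))
        + (1 / 2 : ℂ) ^ (N + 1) * (Ph φ (N + 1) n x (g (N + 1) x X)
            - Ph φ (N + 1) n x (g N x X)) := by
      simp only [Ph, mul_sub, Finset.sum_sub_distrib, Finset.sum_range_succ]
      ring
    rw [e]
    have h12 : ‖(1 / 2 : ℂ)‖ = 1 / 2 := by
      rw [show (1 / 2 : ℂ) = ((1 / 2 : ℝ) : ℂ) by push_cast; ring, Complex.norm_real]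
      norm_num
    calc _ ≤ ‖(∑ k ∈ range N, (1 / 2 : ℂ) ^ (k + 1) * (Ph φ (N + 1) n x (g k x X)
            - Ph φ N n x (g k x X)))
        + (1 / 2 : ℂ) ^ N * (Ph φ (N + 1) n x (g N x X) - Ph φ N n x (g N x X))‖
        + ‖(1 / 2 : ℂ) ^ (N + 1) * (Ph φ (N + 1) n x (g (N + 1) x X)
            - Ph φ (N + 1) n x (g N x X))‖ := norm_add_le _ _
      _ ≤ n * ((1 / 2) ^ (N + 1) * M) + (1 / 2) ^ (N + 1) * M := by
          apply add_le_add
          · apply avg_bound N (fun k => Ph φ (N + 1) n x (g k x X) - Ph φ N n x (g k x X))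
            intro k hk
            exact ih _ (Good.mem' hk hx' hX)
          · rw [norm_mul, norm_pow, h12]
            gcongr
            have h1 := Ph_osc φ hφ M hM (N + 1) n x hx _ (Good.mem' le_rfl hx hX) _
              (Good.mem' (Nat.le_succ N) hx hX)
            have h2 : kap ^ n ≤ 1 := pow_le_one₀ kap_pos.le kap_lt_one.le
            nlinarith
      _ = _ := by push_cast; ring

/-- The diagonal sequence. -/
noncomputable def fN (φ : ℂ → ℂ) (N : ℕ) (x : ℂ) : ℂ := Ph φ N N x 1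

lemma fN_sub (φ : ℂ → ℂ) (hφ : DifferentiableOn ℂ φ UX) (M : ℝ)
    (hM : ∀ X ∈ UX, ∀ X' ∈ UX, ‖φ X - φ X'‖ ≤ M) (N : ℕ) (x : ℂ) (hx : Good (N + 1) x) :
    ‖fN φ (N + 1) x - fN φ N x‖ ≤ kap ^ N * M + N * ((1 / 2) ^ (N + 1) * M) := by
  have h1 := Ph_succ_sub φ hφ M hM (N + 1) N x hx 1 (by simp)
  have h2 := Ph_level_sub φ hφ M hM N N x hx 1 (by simp)
  unfold fN
  calc _ = ‖(Ph φ (N + 1) (N + 1) x 1 - Ph φ (N + 1) N x 1)
        + (Ph φ (N + 1) N x 1 - Ph φ N N x 1)‖ := by congr 1; ring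
    _ ≤ _ := norm_add_le _ _
    _ ≤ _ := add_le_add h1 h2

lemma fN_diff (φ : ℂ → ℂ) (hφ : DifferentiableOn ℂ φ UX) (N : ℕ)
    (U : Set ℂ) (hU : ∀ x ∈ U, Good N x) :
    DifferentiableOn ℂ (fN φ N) U :=
  Ph_diff_x φ hφ N N 1 (by simp) U hU

/-! ### the operator on functions -/

/-- one step -/
noncomputable def Aop (N : ℕ) (x : ℂ) (φ : ℂ → ℂ) (X : ℂ) : ℂ :=
  (∑ k ∈ range N, (1 / 2 : ℂ) ^ (k + 1) * φ (g k x X)) + (1 / 2 : ℂ) ^ N * φ (g N x X)

lemma Ph_succ_eq (φ : ℂ → ℂ) (N n : ℕ) (x : ℂ) (X : ℂ) :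
    Ph φ N (n + 1) x X = Aop N x (Ph φ N n x) X := rfl

lemma Ph_succ' (φ : ℂ → ℂ) (N n : ℕ) (x : ℂ) :
    ∀ X : ℂ, Ph φ N (n + 1) x X = Ph (Aop N x φ) N n x X := by
  induction n with
  | zero =>
    intro X
    rfl
  | succ n ih =>
    intro X
    rw [Ph_succ_eq φ N (n + 1), Ph_succ_eq (Aop N x φ) N n]
    unfold Aop
    simp only [ih]
    rfl

lemma Ph_congr (φ ψ : ℂ → ℂ) (h : ∀ X ∈ UX, φ X = ψ X) (N n : ℕ) (x : ℂ) (hx : Good N x) :
    ∀ X ∈ UX, Ph φ N n x X = Ph ψ N n x X := by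
  induction n with
  | zero => exact h
  | succ n ih =>
    intro X hX
    simp only [Ph]
    congr 1
    · apply Finset.sum_congr rfl
      intro k hk
      rw [ih _ (Good.mem' (Finset.mem_range.mp hk).le hx hX)]
    · rw [ih _ (Good.mem' le_rfl hx hX)]

lemma Ph_add (φ ψ : ℂ → ℂ) (N n : ℕ) (x : ℂ) :
    ∀ X, Ph (fun X => φ X + ψ X) N n x X = Ph φ N n x X + Ph ψ N n x X := by
  induction n with
  | zero => intro X; rfl
  | succ n ih =>
    intro X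
    simp only [Ph, ih, mul_add, Finset.sum_add_distrib]
    ring

lemma Ph_smul (a : ℂ) (φ : ℂ → ℂ) (N n : ℕ) (x : ℂ) :
    ∀ X, Ph (fun X => a * φ X) N n x X = a * Ph φ N n x X := by
  induction n with
  | zero => intro X; rfl
  | succ n ih =>
    intro X
    simp only [Ph, ih, mul_add, Finset.mul_sum]
    congr 1
    · apply Finset.sum_congr rfl
      intro k hk
      ring
    · ring

lemma Ph_const (a : ℂ) (N n : ℕ) (x : ℂ) :
    ∀ X, Ph (fun _ => a) N n x X = a := by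
  induction n with
  | zero => intro X; rfl
  | succ n ih =>
    intro X
    simp only [Ph, ih, ← Finset.sum_mul]
    linear_combination a * weights_sum_c N

lemma Ph_bound (φ : ℂ → ℂ) (M : ℝ) (h : ∀ X ∈ UX, ‖φ X‖ ≤ M) (N n : ℕ) (x : ℂ)
    (hx : Good N x) : ∀ X ∈ UX, ‖Ph φ N n x X‖ ≤ M := by
  induction n with
  | zero => exact h
  | succ n ih =>
    intro X hX
    apply avg_bound N (fun k => Ph φ N n x (g k x X))
    intro k hk
    exact ih _ (Good.mem' hk hx hX)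

end Pool.Agent.Helper8.BM
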