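import Pool.Agent.Helper8.BM.EE
import Pool.Agent.Helper8.BM.Defs

set_option autoImplicit false
set_option maxHeartbeats 4000000

namespace Pool.Agent.Helper8.BM

open Set Filter Topology Finset

lemma Qfun_zero (z : ℝ) : Qfun 0 z = -1 / (2 * z) := by
  rw [Qfun]

lemma Qfun_succ (n : ℕ) (z : ℝ) : Qfun (n + 1) z = (1 / 2) * ∑ j ∈ range (n + 1),
      1 / (j.factorial : ℝ) * iteratedDeriv j (Qfun (n - j)) (-1)
        * (z ^ j - 1 / z ^ (j + 2)) := by
  rw [Qfun]
  dsimp only
  rw [Finset.sum_range (fun j : ℕ => 1 / (j.factorial : ℝ) *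
    iteratedDeriv j (Qfun (n - j)) (-1) * (z ^ j - 1 / z ^ (j + 2)))]

/-- Taylor coefficients at `-1` -/
noncomputable def qR (n k : ℕ) : ℝ := iteratedDeriv k (Qfun n) (-1) / (k.factorial : ℝ)

lemma coeff_unique (f : ℝ → ℝ) (a : ℕ → ℝ)
    (h : ∀ᶠ u in 𝓝 (0 : ℝ), HasSum (fun k : ℕ => a k * u ^ k) (f (-1 + u))) (k : ℕ) :
    iteratedDeriv k f (-1) / (k.factorial : ℝ) = a k := by
  have h1 : HasFPowerSeriesAt f (FormalMultilinearSeries.ofScalars ℝ a) (-1) := by
    rw [hasFPowerSeriesAt_iff]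
    filter_upwards [h] with u hu
    have e : (fun n : ℕ => u ^ n • (FormalMultilinearSeries.ofScalars ℝ a).coeff n)
        = fun n : ℕ => a n * u ^ n := by
      ext n
      rw [FormalMultilinearSeries.coeff_ofScalars, smul_eq_mul, mul_comm]
    rw [e]
    exact hu
  have h2 : AnalyticAt ℝ f (-1) := ⟨_, h1⟩
  have h3 := h2.hasFPowerSeriesAt
  have h4 := h3.eq_formalMultilinearSeries h1
  have h5 := congrArg (fun p : FormalMultilinearSeries ℝ ℝ ℝ => p.coeff k) h4
  simpa [FormalMultilinearSeries.coeff_ofScalars] using h5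

lemma tc_hasSum_real (j : ℕ) {u : ℝ} (hu : |u| < 1) :
    HasSum (fun k : ℕ => tc j k * u ^ k) ((u - 1) ^ j - 1 / (u - 1) ^ (j + 2)) := by
  have h := tc_hasSum j (u := (u : ℂ)) (by rwa [Complex.norm_real, Real.norm_eq_abs])
  have e1 : (fun k : ℕ => (tc j k : ℂ) * (u : ℂ) ^ k)
      = fun k : ℕ => ((tc j k * u ^ k : ℝ) : ℂ) := by
    ext k
    push_cast
    ring
  have e2 : ((u : ℂ) - 1) ^ j - 1 / ((u : ℂ) - 1) ^ (j + 2)
      = (((u - 1) ^ j - 1 / (u - 1) ^ (j + 2) : ℝ) : ℂ) := by
    push_cast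
    ring
  rw [e1, e2] at h
  exact Complex.hasSum_ofReal.mp h

lemma isQ_qR : IsQ qR where
  zero := by
    intro k
    unfold qR
    apply coeff_unique (Qfun 0) (fun _ => 1 / 2)
    have hb : Metric.ball (0 : ℝ) 1 ∈ 𝓝 (0 : ℝ) := Metric.isOpen_ball.mem_nhds (by simp)
    filter_upwards [hb] with u hu
    have hu' : |u| < 1 := by simpa using hu
    have h1 := (hasSum_geometric_of_norm_lt_one (ξ := u) (by rwa [Real.norm_eq_abs])).mul_left
      (1 / 2 : ℝ)
    rw [Qfun_zero]
    have hne : (1 - u) ≠ 0 := by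
      have := (abs_lt.mp hu').2
      linarith
    have e : -1 / (2 * (-1 + u)) = 1 / 2 * (1 - u)⁻¹ := by
      have : (-1 + u) ≠ 0 := by
        intro h
        apply hne
        linarith
      field_simp
      ring
    rw [e]
    exact h1
  succ := by
    intro n k
    have hcu := coeff_unique (Qfun (n + 1))
      (fun k => (1 / 2) * ∑ j ∈ range (n + 1), qR (n - j) j * tc j k) (by
        have hb : Metric.ball (0 : ℝ) 1 ∈ 𝓝 (0 : ℝ) := Metric.isOpen_ball.mem_nhds (by simp)
        filter_upwards [hb] with u hu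
        have hu' : |u| < 1 := by simpa using hu
        have h1 : HasSum (fun k => ∑ j ∈ range (n + 1), qR (n - j) j * (tc j k * u ^ k))
            (∑ j ∈ range (n + 1), qR (n - j) j * ((u - 1) ^ j - 1 / (u - 1) ^ (j + 2))) :=
          hasSum_sum (fun j _ => (tc_hasSum_real j hu').mul_left _)
        have h2 := h1.mul_left (1 / 2 : ℝ)
        have e1 : (fun k : ℕ => ((1 / 2) * ∑ j ∈ range (n + 1), qR (n - j) j * tc j k) * u ^ k)
            = fun k : ℕ => (1 / 2) * ∑ j ∈ range (n + 1), qR (n - j) j * (tc j k * u ^ k) := by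
          ext k
          rw [mul_assoc, Finset.sum_mul]
          congr 1
          apply Finset.sum_congr rfl
          intro j _
          ring
        have e2 : Qfun (n + 1) (-1 + u) = (1 / 2) * ∑ j ∈ range (n + 1),
            qR (n - j) j * ((u - 1) ^ j - 1 / (u - 1) ^ (j + 2)) := by
          rw [Qfun_succ]
          congr 1
          apply Finset.sum_congr rfl
          intro j _
          unfold qR
          rw [show (-1 + u : ℝ) = u - 1 by ring]
          ring
        rw [e1, e2]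
        exact h2) k
    exact hcu

lemma qR_one (n : ℕ) : qR n 1 = deriv (Qfun n) (-1) := by
  unfold qR
  rw [iteratedDeriv_one]
  simp

end Pool.Agent.Helper8.BM
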