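import Pool.Agent.Helper8.BM.Qmark

set_option autoImplicit false

namespace Pool.Agent.Helper8.BM

/-- The question mark function as a Stieltjes function. -/
noncomputable def qmarkStieltjes : StieltjesFunction ℝ where
  toFun := qmark
  mono' := qmark_mono
  right_continuous' := fun _ => qmark_continuous.continuousWithinAt

end Pool.Agent.Helper8.BM
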