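import Pool.Agent.Helper8.BM.Defs

set_option autoImplicit false
set_option maxHeartbeats 4000000

namespace Pool.Agent.Helper8.BM

open Set Filter Topology Finset

lemma cfDigit_eq (x : ℝ) (n : ℕ) :
    cfDigit x n = ((GenContFract.of x).s.get? n).map GenContFract.Pair.b := by
  unfold cfDigit GenContFract.partDens
  exact Stream'.Seq.map_get? _ _ _

lemma cfDigit_int (a : ℤ) (n : ℕ) : cfDigit (a : ℝ) n = none := by
  rw [cfDigit_eq, GenContFract.of_s_of_int]
  rfl

lemma cfDigit_of_fract_zero {x : ℝ} (h : Int.fract x = 0) (n : ℕ) : cfDigit x n = none := by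
  have : x = ((⌊x⌋ : ℤ) : ℝ) := by
    have := Int.floor_add_fract x
    rw [h, add_zero] at this
    exact this.symm
  rw [this]
  exact cfDigit_int _ n

lemma cfDigit_zero {x : ℝ} (h : Int.fract x ≠ 0) :
    cfDigit x 0 = some (⌊(Int.fract x)⁻¹⌋ : ℝ) := by
  have h1 := GenContFract.of_s_head h
  rw [cfDigit_eq]
  have h2 : (GenContFract.of x).s.get? 0 = (GenContFract.of x).s.head := rfl
  rw [h2, h1]
  rfl

lemma cfDigit_succ (x : ℝ) (n : ℕ) : cfDigit x (n + 1) = cfDigit (Int.fract x)⁻¹ n := by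
  rw [cfDigit_eq, cfDigit_eq, GenContFract.of_s_succ]

lemma cfDigit_fract (x : ℝ) (n : ℕ) : cfDigit (Int.fract x) n = cfDigit x n := by
  rcases n with _ | n
  · by_cases h : Int.fract x = 0
    · rw [cfDigit_of_fract_zero h, h]
      have := cfDigit_int 0 0
      simpa using this
    · rw [cfDigit_zero h, cfDigit_zero (by rwa [Int.fract_fract]), Int.fract_fract]
  · rw [cfDigit_succ, cfDigit_succ, Int.fract_fract]

lemma qmTerm_fract (x : ℝ) (n : ℕ) : qmTerm (Int.fract x) n = qmTerm x n := by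
  unfold qmTerm
  simp only [cfDigit_fract]

lemma qmTerm_of_fract_zero {x : ℝ} (h : Int.fract x = 0) (n : ℕ) : qmTerm x n = 0 := by
  unfold qmTerm
  rw [cfDigit_of_fract_zero h]
  simp

lemma qmTerm_zero {x : ℝ} (h : Int.fract x ≠ 0) :
    qmTerm x 0 = (2 : ℝ) ^ (1 - (⌊(Int.fract x)⁻¹⌋ : ℝ)) := by
  unfold qmTerm
  rw [cfDigit_zero h]
  simp [cfDigit_zero h]

lemma qmTerm_succ {x : ℝ} (h : Int.fract x ≠ 0) (n : ℕ) :
    qmTerm x (n + 1) = -(2 : ℝ) ^ (-(⌊(Int.fract x)⁻¹⌋ : ℝ)) * qmTerm (Int.fract x)⁻¹ n := by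
  unfold qmTerm
  rw [cfDigit_succ]
  split_ifs with h1
  · rw [Finset.sum_range_succ' _ (n + 1)]
    simp only [cfDigit_succ, cfDigit_zero h, Option.getD_some]
    rw [pow_succ]
    rw [show (1 : ℝ) - (∑ k ∈ range (n + 1), (cfDigit (Int.fract x)⁻¹ k).getD 0
        + (⌊(Int.fract x)⁻¹⌋ : ℝ)) = -(⌊(Int.fract x)⁻¹⌋ : ℝ)
        + (1 - ∑ k ∈ range (n + 1), (cfDigit (Int.fract x)⁻¹ k).getD 0) by ring]
    rw [Real.rpow_add (by norm_num)]
    ring
  · simp

lemma one_le_floor_inv {x : ℝ} (h : Int.fract x ≠ 0) : (1 : ℤ) ≤ ⌊(Int.fract x)⁻¹⌋ := by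
  have h0 : 0 < Int.fract x := lt_of_le_of_ne (Int.fract_nonneg x) (Ne.symm h)
  have h1 : Int.fract x < 1 := Int.fract_lt_one x
  rw [Int.le_floor]
  push_cast
  exact (one_lt_inv₀ h0).mpr h1 |>.le

lemma qmTerm_abs_le (n : ℕ) : ∀ x : ℝ, |qmTerm x n| ≤ (1 / 2) ^ n := by
  induction n with
  | zero =>
    intro x
    by_cases h : Int.fract x = 0
    · rw [qmTerm_of_fract_zero h]; simp
    · rw [qmTerm_zero h, abs_of_pos (by positivity), pow_zero]
      have h1 : (1 : ℝ) ≤ (⌊(Int.fract x)⁻¹⌋ : ℝ) := by exact_mod_cast one_le_floor_inv h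
      apply Real.rpow_le_one_of_one_le_of_nonpos (by norm_num) (by linarith)
  | succ n ih =>
    intro x
    by_cases h : Int.fract x = 0
    · rw [qmTerm_of_fract_zero h]; simp
    · rw [qmTerm_succ h, abs_mul, abs_neg, abs_of_pos (by positivity), pow_succ, mul_comm]
      have h1 : (1 : ℝ) ≤ (⌊(Int.fract x)⁻¹⌋ : ℝ) := by exact_mod_cast one_le_floor_inv h
      have h2 : (2 : ℝ) ^ (-(⌊(Int.fract x)⁻¹⌋ : ℝ)) ≤ 1 / 2 := by
        calc (2 : ℝ) ^ (-(⌊(Int.fract x)⁻¹⌋ : ℝ)) ≤ (2 : ℝ) ^ (-1 : ℝ) := by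
              apply Real.rpow_le_rpow_of_exponent_le (by norm_num) (by linarith)
          _ = 1 / 2 := by rw [Real.rpow_neg_one]; norm_num
      gcongr
      exact ih _

lemma qmTerm_summable (x : ℝ) : Summable (qmTerm x) :=
  Summable.of_norm_bounded (summable_geometric_of_lt_one (by norm_num) (by norm_num))
    (fun n => qmTerm_abs_le n x)

/-- the fractional part of the question mark function -/
noncomputable def hq (x : ℝ) : ℝ := ∑' n : ℕ, qmTerm x n

lemma hq_abs_le (x : ℝ) : |hq x| ≤ 2 := by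
  have h1 : HasSum (fun n : ℕ => (1 / 2 : ℝ) ^ n) (1 - 1 / 2)⁻¹ :=
    hasSum_geometric_of_lt_one (by norm_num) (by norm_num)
  have h2 := (qmTerm_summable x).hasSum.norm_le_of_bounded h1 (fun n => qmTerm_abs_le n x)
  rw [Real.norm_eq_abs] at h2
  refine h2.trans (by norm_num)

lemma hq_of_fract_zero {x : ℝ} (h : Int.fract x = 0) : hq x = 0 := by
  unfold hq
  simp [qmTerm_of_fract_zero h]

lemma hq_fract (x : ℝ) : hq (Int.fract x) = hq x := by
  unfold hq
  simp only [qmTerm_fract]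

/-- integer version of the weight -/
noncomputable def wt (x : ℝ) : ℝ := (2 : ℝ) ^ (-(⌊(Int.fract x)⁻¹⌋ : ℝ))

lemma hq_rec {x : ℝ} (h : Int.fract x ≠ 0) :
    hq x = wt x * (2 - hq (Int.fract x)⁻¹) := by
  unfold hq
  rw [(qmTerm_summable x).tsum_eq_zero_add, qmTerm_zero h]
  have : ∀ n, qmTerm x (n + 1) = -wt x * qmTerm (Int.fract x)⁻¹ n := fun n => qmTerm_succ h n
  simp only [this]
  rw [tsum_mul_left, mul_sub, sub_eq_add_neg]
  congr 1
  · unfold wt
    rw [Real.rpow_add (by norm_num), Real.rpow_one]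
    ring
  · ring

lemma wt_pos (x : ℝ) : 0 < wt x := by unfold wt; positivity

lemma wt_le {x : ℝ} (h : Int.fract x ≠ 0) : wt x ≤ 1 / 2 := by
  have h1 : (1 : ℝ) ≤ (⌊(Int.fract x)⁻¹⌋ : ℝ) := by exact_mod_cast one_le_floor_inv h
  unfold wt
  calc (2 : ℝ) ^ (-(⌊(Int.fract x)⁻¹⌋ : ℝ)) ≤ (2 : ℝ) ^ (-1 : ℝ) := by
        apply Real.rpow_le_rpow_of_exponent_le (by norm_num) (by linarith)
    _ = 1 / 2 := by rw [Real.rpow_neg_one]; norm_num

lemma hq_nonneg (x : ℝ) : 0 ≤ hq x := by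
  by_cases h : Int.fract x = 0
  · rw [hq_of_fract_zero h]
  · rw [hq_rec h]
    have h1 := (abs_le.mp (hq_abs_le (Int.fract x)⁻¹)).2
    exact mul_nonneg (wt_pos x).le (by linarith)

lemma hq_le_one (x : ℝ) : hq x ≤ 1 := by
  by_cases h : Int.fract x = 0
  · rw [hq_of_fract_zero h]; norm_num
  · rw [hq_rec h]
    have h1 := hq_nonneg (Int.fract x)⁻¹
    have h2 := wt_le h
    have h3 := wt_pos x
    nlinarith

lemma qmark_eq (x : ℝ) : qmark x = ⌊x⌋ + hq x := rfl

lemma hq_mono_aux (n : ℕ) : ∀ x y : ℝ, 0 ≤ x → x ≤ y → y < 1 → hq x ≤ hq y + (1 / 2) ^ n := by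
  induction n with
  | zero =>
    intro x y _ _ _
    have := hq_le_one x
    have := hq_nonneg y
    rw [pow_zero]
    linarith
  | succ n ih =>
    intro x y hx hxy hy
    have hfx : Int.fract x = x := Int.fract_eq_self.mpr ⟨hx, lt_of_le_of_lt hxy hy⟩
    have hfy : Int.fract y = y := Int.fract_eq_self.mpr ⟨hx.trans hxy, hy⟩
    rcases eq_or_lt_of_le hx with hx0 | hx0
    · have h0 : hq x = 0 := hq_of_fract_zero (by rw [hfx, ← hx0])
      rw [h0]
      have := hq_nonneg y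
      positivity
    · have hfx0 : Int.fract x ≠ 0 := by rw [hfx]; exact hx0.ne'
      have hy0 : 0 < y := lt_of_lt_of_le hx0 hxy
      have hfy0 : Int.fract y ≠ 0 := by rw [hfy]; exact hy0.ne'
      have hinv : y⁻¹ ≤ x⁻¹ := inv_anti₀ hx0 hxy
      have hfl : ⌊y⁻¹⌋ ≤ ⌊x⁻¹⌋ := Int.floor_le_floor hinv
      rw [hq_rec hfx0, hq_rec hfy0]
      unfold wt
      rw [hfx, hfy]
      rcases eq_or_lt_of_le hfl with heq | hlt
      · -- same digit
        rw [heq]
        have hfr : Int.fract y⁻¹ ≤ Int.fract x⁻¹ := by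
          unfold Int.fract
          rw [heq]
          linarith
        have h1 := ih (Int.fract y⁻¹) (Int.fract x⁻¹) (Int.fract_nonneg _) hfr
          (Int.fract_lt_one _)
        rw [hq_fract, hq_fract] at h1
        have hw : (2 : ℝ) ^ (-(⌊x⁻¹⌋ : ℝ)) ≤ 1 / 2 := by
          have := wt_le hfx0
          unfold wt at this
          rwa [hfx] at this
        have hw0 : (0 : ℝ) < (2 : ℝ) ^ (-(⌊x⁻¹⌋ : ℝ)) := by positivity
        have hp : (0 : ℝ) < (1 / 2) ^ n := by positivity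
        rw [pow_succ]
        nlinarith
      · -- different digits
        have h2 : (2 : ℝ) ^ (-(⌊x⁻¹⌋ : ℝ)) ≤ (1 / 2) * (2 : ℝ) ^ (-(⌊y⁻¹⌋ : ℝ)) := by
          have h3 : ((⌊y⁻¹⌋ : ℝ)) + 1 ≤ (⌊x⁻¹⌋ : ℝ) := by exact_mod_cast hlt
          calc (2 : ℝ) ^ (-(⌊x⁻¹⌋ : ℝ)) ≤ (2 : ℝ) ^ ((-1 : ℝ) + (-(⌊y⁻¹⌋ : ℝ))) := by
                apply Real.rpow_le_rpow_of_exponent_le (by norm_num) (by linarith)
            _ = _ := by
                rw [Real.rpow_add (by norm_num), Real.rpow_neg_one]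
                norm_num
        have h4 := hq_nonneg x⁻¹
        have h5 := hq_le_one y⁻¹
        have h6 : (0 : ℝ) < (2 : ℝ) ^ (-(⌊x⁻¹⌋ : ℝ)) := by positivity
        have h7 : (0 : ℝ) < (2 : ℝ) ^ (-(⌊y⁻¹⌋ : ℝ)) := by positivity
        have hp : (0 : ℝ) < (1 / 2) ^ (n + 1) := by positivity
        have h8 : (2 : ℝ) ^ (-(⌊x⁻¹⌋ : ℝ)) * (2 - hq x⁻¹) ≤ (2 : ℝ) ^ (-(⌊x⁻¹⌋ : ℝ)) * 2 := by
          gcongr
          linarith
        have h9 : (2 : ℝ) ^ (-(⌊y⁻¹⌋ : ℝ)) * 1 ≤ (2 : ℝ) ^ (-(⌊y⁻¹⌋ : ℝ)) * (2 - hq y⁻¹) := by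
          gcongr
          linarith
        linarith

lemma hq_mono {x y : ℝ} (hx : 0 ≤ x) (hxy : x ≤ y) (hy : y < 1) : hq x ≤ hq y := by
  have hlim : Tendsto (fun n : ℕ => hq y + (1 / 2 : ℝ) ^ n) atTop (𝓝 (hq y + 0)) := by
    apply Tendsto.const_add
    exact tendsto_pow_atTop_nhds_zero_of_lt_one (by norm_num) (by norm_num)
  have := ge_of_tendsto' hlim (fun n => hq_mono_aux n x y hx hxy hy)
  simpa using this

lemma qmark_mono : Monotone qmark := by
  intro x y hxy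
  rw [qmark_eq, qmark_eq]
  have hfl : ⌊x⌋ ≤ ⌊y⌋ := Int.floor_le_floor hxy
  rcases eq_or_lt_of_le hfl with heq | hlt
  · have h1 : Int.fract x ≤ Int.fract y := by
      unfold Int.fract
      rw [heq]
      linarith
    have := hq_mono (Int.fract_nonneg x) h1 (Int.fract_lt_one y)
    rw [hq_fract, hq_fract] at this
    rw [heq]
    linarith
  · have h3 : ((⌊x⌋ : ℝ)) + 1 ≤ (⌊y⌋ : ℝ) := by exact_mod_cast hlt
    have := hq_le_one x
    have := hq_nonneg y
    linarith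

lemma qmark_int (a : ℤ) : qmark a = a := by
  rw [qmark_eq, hq_of_fract_zero (Int.fract_intCast a)]
  simp

lemma qmark_zero : qmark 0 = 0 := by
  have := qmark_int 0
  simpa using this

lemma qmark_one : qmark 1 = 1 := by
  have := qmark_int 1
  simpa using this

lemma qmark_add_int (x : ℝ) (a : ℤ) : qmark (x + a) = qmark x + a := by
  rw [qmark_eq, qmark_eq, ← hq_fract (x + a), Int.fract_add_intCast, hq_fract, Int.floor_add_intCast]
  push_cast
  ring

/-- the self-similarity of the question mark function -/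
lemma qmark_inv (k : ℕ) {y : ℝ} (h0 : 0 ≤ y) (h1 : y ≤ 1) :
    qmark (1 / ((k : ℝ) + 1 + y)) = (1 / 2) ^ k - (1 / 2) ^ (k + 1) * qmark y := by
  have hk : (0 : ℝ) ≤ k := Nat.cast_nonneg k
  by_cases hcase : (k : ℝ) + 1 + y = 1
  · have hk0 : (k : ℝ) = 0 := by linarith
    have hy0 : y = 0 := by linarith
    have hk0' : k = 0 := by exact_mod_cast hk0
    subst hk0' hy0
    rw [qmark_zero]
    have : qmark (1 / (((0 : ℕ) : ℝ) + 1 + 0)) = qmark 1 := by norm_num
    rw [this, qmark_one]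
    norm_num
  · have hgt : 1 < (k : ℝ) + 1 + y := lt_of_le_of_ne (by linarith) (Ne.symm hcase)
    set x := 1 / ((k : ℝ) + 1 + y) with hx
    have hx0 : 0 < x := by positivity
    have hx1 : x < 1 := by
      rw [hx, div_lt_one (by linarith)]
      exact hgt
    have hfx : Int.fract x = x := Int.fract_eq_self.mpr ⟨hx0.le, hx1⟩
    have hfx0 : Int.fract x ≠ 0 := by rw [hfx]; exact hx0.ne'
    have hxinv : x⁻¹ = (k : ℝ) + 1 + y := by rw [hx, one_div, inv_inv]
    have hflx : ⌊x⌋ = 0 := Int.floor_eq_zero_iff.mpr ⟨hx0.le, hx1⟩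
    rw [qmark_eq, hflx, hq_rec hfx0]
    unfold wt
    rw [hfx, hxinv]
    have hpow : ∀ m : ℕ, (2 : ℝ) ^ (-(m : ℝ)) = (1 / 2) ^ m := by
      intro m
      rw [Real.rpow_neg (by norm_num), Real.rpow_natCast, one_div, inv_pow]
    rcases eq_or_lt_of_le h1 with hy1 | hy1
    · subst hy1
      have hf : ⌊(k : ℝ) + 1 + 1⌋ = ((k + 2 : ℕ) : ℤ) := by
        have : (k : ℝ) + 1 + 1 = ((k + 2 : ℕ) : ℝ) := by push_cast; ring
        rw [this]
        exact Int.floor_natCast _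
      have hfr : Int.fract ((k : ℝ) + 1 + 1) = 0 := by
        have : (k : ℝ) + 1 + 1 = ((k + 2 : ℕ) : ℝ) := by push_cast; ring
        rw [this]
        exact Int.fract_natCast _
      rw [hf, hq_of_fract_zero hfr, qmark_one]
      have := hpow (k + 2)
      push_cast at this ⊢
      rw [this]
      ring
    · have hf : ⌊(k : ℝ) + 1 + y⌋ = ((k + 1 : ℕ) : ℤ) := by
        rw [Int.floor_eq_iff]
        push_cast
        constructor <;> linarith
      have hq1 : hq ((k : ℝ) + 1 + y) = qmark y := by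
        have hfy : Int.fract y = y := Int.fract_eq_self.mpr ⟨h0, hy1⟩
        have hfly : ⌊y⌋ = 0 := Int.floor_eq_zero_iff.mpr ⟨h0, hy1⟩
        rw [qmark_eq, hfly, ← hq_fract ((k : ℝ) + 1 + y), ← hq_fract y]
        have : Int.fract ((k : ℝ) + 1 + y) = Int.fract y := by
          have e : (k : ℝ) + 1 + y = y + ((k + 1 : ℕ) : ℤ) := by push_cast; ring
          rw [e, Int.fract_add_intCast]
        rw [this]
        simp
      rw [hf, hq1]
      have := hpow (k + 1)
      push_cast at this ⊢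
      rw [this]
      ring

lemma dense_aux (n : ℕ) : ∀ t : ℝ, 0 ≤ t → t ≤ 1 →
    ∃ x : ℝ, 0 ≤ x ∧ x ≤ 1 ∧ |qmark x - t| ≤ (1 / 2) ^ n := by
  induction n with
  | zero =>
    intro t h0 h1
    refine ⟨0, le_rfl, zero_le_one, ?_⟩
    rw [qmark_zero, pow_zero, abs_le]
    constructor <;> linarith
  | succ n ih =>
    intro t h0 h1
    rcases eq_or_lt_of_le h0 with ht | ht
    · refine ⟨0, le_rfl, zero_le_one, ?_⟩
      rw [qmark_zero, ← ht]
      simp
    · obtain ⟨k, hk1, hk2⟩ := exists_nat_pow_near_of_lt_one (x := t) (y := 1 / 2) ht h1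
        (by norm_num) (by norm_num)
      -- (1/2)^(k+1) < t ≤ (1/2)^k
      have hp : (0 : ℝ) < (1 / 2) ^ (k + 1) := by positivity
      set s := 2 - t / (1 / 2) ^ (k + 1) with hs
      have hs0 : 0 ≤ s := by
        rw [hs, sub_nonneg, div_le_iff₀ hp, pow_succ]
        linarith
      have hs1 : s ≤ 1 := by
        have : 1 ≤ t / (1 / 2) ^ (k + 1) := by
          rw [le_div_iff₀ hp]
          linarith
        linarith
      obtain ⟨y, hy0, hy1, hy⟩ := ih s hs0 hs1
      refine ⟨1 / ((k : ℝ) + 1 + y), by positivity, ?_, ?_⟩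
      · rw [div_le_one (by positivity)]
        linarith [Nat.cast_nonneg (α := ℝ) k]
      · rw [qmark_inv k hy0 hy1]
        have e : (1 / 2 : ℝ) ^ k - (1 / 2) ^ (k + 1) * qmark y - t
            = -((1 / 2) ^ (k + 1) * (qmark y - s)) := by
          rw [hs]
          field_simp
          ring
        rw [e, abs_neg, abs_mul, abs_of_pos hp]
        calc (1 / 2 : ℝ) ^ (k + 1) * |qmark y - s| ≤ (1 / 2) ^ (k + 1) * (1 / 2) ^ n := by gcongr
          _ = (1 / 2) ^ k * (1 / 2) ^ (n + 1) := by ring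
          _ ≤ 1 * (1 / 2) ^ (n + 1) := by
              gcongr
              exact pow_le_one₀ (by norm_num) (by norm_num)
          _ = _ := one_mul _

lemma qmark_denseRange : DenseRange qmark := by
  intro t
  rw [Metric.mem_closure_range_iff]
  intro ε hε
  obtain ⟨n, hn⟩ := exists_pow_lt_of_lt_one hε (by norm_num : (1 / 2 : ℝ) < 1)
  obtain ⟨x, _, _, hx⟩ := dense_aux n (Int.fract t) (Int.fract_nonneg t) (Int.fract_lt_one t).le
  refine ⟨x + ⌊t⌋, ?_⟩
  rw [dist_comm, Real.dist_eq, qmark_add_int]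
  have : qmark x + ⌊t⌋ - t = qmark x - Int.fract t := by
    unfold Int.fract
    ring
  rw [this]
  exact lt_of_le_of_lt hx hn

lemma qmark_continuous : Continuous qmark :=
  qmark_mono.continuous_of_denseRange qmark_denseRange

end Pool.Agent.Helper8.BM
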