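import Pool.Agent.Helper8.BM.Basic

set_option autoImplicit false

namespace Pool.Agent.Helper8.BM

open Finset Complex

lemma unit_of_circle (x : ℂ) (hx : ‖x - 1 / 2‖ = 1 / 2) : 0 ≤ x.re ∧ x.re ≤ 1 := by
  have h := circle_rel x hx
  have h2 := sq_nonneg x.im
  constructor <;> nlinarith

lemma bd0 (x : ℂ) (hx : ‖x - 1 / 2‖ = 1 / 2) :
    (3 / 2) * ‖x‖ + (6 / 5) * ‖x‖ ^ 0 + 1 / 20 ≤ ‖F 0 x‖ := by
  have hr := circle_rel x hx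
  have hn := circle_norm x hx
  have hN := normSq_F 0 x hr
  obtain ⟨hu0, hu1⟩ := unit_of_circle x hx
  have hc0 := norm_nonneg x
  have hF0 := norm_nonneg (F 0 x)
  simp only [pw, Finset.sum_range_succ, Finset.sum_range_zero] at hN
  refine le_of_sq_le_sq_aux ?_ hF0
  rw [hN, ← hn, pow_zero]
  nlinarith [sq_nonneg (‖x‖ - 75 / 94)]

lemma bd1 (x : ℂ) (hx : ‖x - 1 / 2‖ = 1 / 2) :
    (3 / 2) * ‖x‖ + (6 / 5) * ‖x‖ ^ 1 + 1 / 20 ≤ ‖F 1 x‖ := by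
  have hr := circle_rel x hx
  have hn := circle_norm x hx
  have hN := normSq_F 1 x hr
  obtain ⟨hu0, hu1⟩ := unit_of_circle x hx
  have hc0 := norm_nonneg x
  have hF0 := norm_nonneg (F 1 x)
  simp only [pw, Finset.sum_range_succ, Finset.sum_range_zero] at hN
  refine le_of_sq_le_sq_aux ?_ hF0
  rw [hN, ← hn, pow_one]
  nlinarith [sq_nonneg (‖x‖ - 1 / 30)]


lemma hp2 (u : ℝ) (h0 : 0 ≤ u) (h1 : u ≤ 1) : 0 ≤ (369/400) * u ^ 0 + (31/200) * u ^ 1 + (72/5) * u ^ 2 := by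
  have h2 : 0 ≤ 1 - u := by linarith
  have e : (369/400) * u ^ 0 + (31/200) * u ^ 1 + (72/5) * u ^ 2 = (369/400) * (u ^ 0 * (1 - u) ^ 2) + (2) * (u ^ 1 * (1 - u) ^ 1) + (6191/400) * (u ^ 2 * (1 - u) ^ 0) := by ring
  rw [e]
  positivity

lemma bd2 (x : ℂ) (hx : ‖x - 1 / 2‖ = 1 / 2) :
    (3 / 2) * ‖x‖ + (6 / 5) * ‖x‖ ^ 2 + 1 / 20 ≤ ‖F 2 x‖ := by
  have hr := circle_rel x hx
  have hn := circle_norm x hx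
  have hN := normSq_F 2 x hr
  obtain ⟨hu0, hu1⟩ := unit_of_circle x hx
  have hc0 := norm_nonneg x
  have hF0 := norm_nonneg (F 2 x)
  have hc : ‖x‖ ≤ (1 + x.re) / 2 := by nlinarith [sq_nonneg (‖x‖ - 1)]
  have hck : ‖x‖ ^ 2 = x.re ^ 1 := by
    rw [← hn]; ring
  simp only [pw, Finset.sum_range_succ, Finset.sum_range_zero] at hN
  refine le_of_sq_le_sq_aux ?_ hF0
  have hH := hp2 x.re hu0 hu1
  have hm : 0 ≤ x.re ^ 1 * ((1 + x.re) / 2 - ‖x‖) := mul_nonneg (pow_nonneg hu0 _) (by linarith)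
  rw [hN, hck]

  have e2 : (3 / 2 * ‖x‖ + 6 / 5 * x.re ^ 1 + 1 / 20) ^ 2 = 9 / 4 * x.re + 36 / 25 * x.re ^ 2
      + 1 / 400 + 3 / 20 * ‖x‖ + 18 / 5 * (x.re ^ 1 * ‖x‖) + 3 / 25 * x.re ^ 1 := by
    linear_combination (9 / 4) * hn
  rw [e2]
  nlinarith [hH, hm, hc]


lemma hp3 (u : ℝ) (h0 : 0 ≤ u) (h1 : u ≤ 1) : 0 ≤ (369/400) * u ^ 0 + (723/200) * u ^ 1 + (-633/50) * u ^ 2 + (171/5) * u ^ 3 := by
  have h2 : 0 ≤ 1 - u := by linarith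
  have e : (369/400) * u ^ 0 + (723/200) * u ^ 1 + (-633/50) * u ^ 2 + (171/5) * u ^ 3 = (369/400) * (u ^ 0 * (1 - u) ^ 4) + (1461/200) * (u ^ 1 * (1 - u) ^ 3) + (93/25) * (u ^ 2 * (1 - u) ^ 2) + (4683/200) * (u ^ 3 * (1 - u) ^ 1) + (10431/400) * (u ^ 4 * (1 - u) ^ 0) := by ring
  rw [e]
  positivity

lemma bd3 (x : ℂ) (hx : ‖x - 1 / 2‖ = 1 / 2) :
    (3 / 2) * ‖x‖ + (6 / 5) * ‖x‖ ^ 3 + 1 / 20 ≤ ‖F 3 x‖ := by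
  have hr := circle_rel x hx
  have hn := circle_norm x hx
  have hN := normSq_F 3 x hr
  obtain ⟨hu0, hu1⟩ := unit_of_circle x hx
  have hc0 := norm_nonneg x
  have hF0 := norm_nonneg (F 3 x)
  have hc : ‖x‖ ≤ (1 + x.re) / 2 := by nlinarith [sq_nonneg (‖x‖ - 1)]
  have hck : ‖x‖ ^ 3 = x.re ^ 1 * ‖x‖ := by
    rw [← hn]; ring
  simp only [pw, Finset.sum_range_succ, Finset.sum_range_zero] at hN
  refine le_of_sq_le_sq_aux ?_ hF0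
  have hH := hp3 x.re hu0 hu1
  have hm : 0 ≤ x.re ^ 1 * ((1 + x.re) / 2 - ‖x‖) := mul_nonneg (pow_nonneg hu0 _) (by linarith)
  rw [hN, hck]

  have e2 : (3 / 2 * ‖x‖ + 6 / 5 * (x.re ^ 1 * ‖x‖) + 1 / 20) ^ 2 = 9 / 4 * x.re + 36 / 25 * x.re ^ 3
      + 1 / 400 + 3 / 20 * ‖x‖ + 18 / 5 * x.re ^ 2 + 3 / 25 * (x.re ^ 1 * ‖x‖) := by
    linear_combination (9 / 4 + 18 / 5 * x.re ^ 1 + 36 / 25 * x.re ^ 2) * hn
  rw [e2]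
  nlinarith [hH, hm, hc]


lemma hp4 (u : ℝ) (h0 : 0 ≤ u) (h1 : u ≤ 1) : 0 ≤ (369/400) * u ^ 0 + (147/40) * u ^ 1 + (17/25) * u ^ 2 + (-184/5) * u ^ 3 + (351/5) * u ^ 4 := by
  have h2 : 0 ≤ 1 - u := by linarith
  have e : (369/400) * u ^ 0 + (147/40) * u ^ 1 + (17/25) * u ^ 2 + (-184/5) * u ^ 3 + (351/5) * u ^ 4 = (369/400) * (u ^ 0 * (1 - u) ^ 6) + (921/100) * (u ^ 1 * (1 - u) ^ 5) + (13157/400) * (u ^ 2 * (1 - u) ^ 4) + (528/25) * (u ^ 3 * (1 - u) ^ 3) + (5787/400) * (u ^ 4 * (1 - u) ^ 2) + (5663/100) * (u ^ 5 * (1 - u) ^ 1) + (15471/400) * (u ^ 6 * (1 - u) ^ 0) := by ring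
  rw [e]
  positivity

lemma bd4 (x : ℂ) (hx : ‖x - 1 / 2‖ = 1 / 2) :
    (3 / 2) * ‖x‖ + (6 / 5) * ‖x‖ ^ 4 + 1 / 20 ≤ ‖F 4 x‖ := by
  have hr := circle_rel x hx
  have hn := circle_norm x hx
  have hN := normSq_F 4 x hr
  obtain ⟨hu0, hu1⟩ := unit_of_circle x hx
  have hc0 := norm_nonneg x
  have hF0 := norm_nonneg (F 4 x)
  have hc : ‖x‖ ≤ (1 + x.re) / 2 := by nlinarith [sq_nonneg (‖x‖ - 1)]
  have hck : ‖x‖ ^ 4 = x.re ^ 2 := by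
    rw [← hn]; ring
  simp only [pw, Finset.sum_range_succ, Finset.sum_range_zero] at hN
  refine le_of_sq_le_sq_aux ?_ hF0
  have hH := hp4 x.re hu0 hu1
  have hm : 0 ≤ x.re ^ 2 * ((1 + x.re) / 2 - ‖x‖) := mul_nonneg (pow_nonneg hu0 _) (by linarith)
  rw [hN, hck]

  have e2 : (3 / 2 * ‖x‖ + 6 / 5 * x.re ^ 2 + 1 / 20) ^ 2 = 9 / 4 * x.re + 36 / 25 * x.re ^ 4
      + 1 / 400 + 3 / 20 * ‖x‖ + 18 / 5 * (x.re ^ 2 * ‖x‖) + 3 / 25 * x.re ^ 2 := by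
    linear_combination (9 / 4) * hn
  rw [e2]
  nlinarith [hH, hm, hc]


lemma hp5 (u : ℝ) (h0 : 0 ≤ u) (h1 : u ≤ 1) : 0 ≤ (369/400) * u ^ 0 + (147/40) * u ^ 1 + (47/50) * u ^ 2 + (527/50) * u ^ 3 + (-105) * u ^ 4 + (711/5) * u ^ 5 := by
  have h2 : 0 ≤ 1 - u := by linarith
  have e : (369/400) * u ^ 0 + (147/40) * u ^ 1 + (47/50) * u ^ 2 + (527/50) * u ^ 3 + (-105) * u ^ 4 + (711/5) * u ^ 5 = (369/400) * (u ^ 0 * (1 - u) ^ 8) + (2211/200) * (u ^ 1 * (1 - u) ^ 7) + (10499/200) * (u ^ 2 * (1 - u) ^ 6) + (29003/200) * (u ^ 3 * (1 - u) ^ 5) + (155) * (u ^ 4 * (1 - u) ^ 4) + (5337/200) * (u ^ 5 * (1 - u) ^ 3) + (3821/200) * (u ^ 6 * (1 - u) ^ 2) + (19609/200) * (u ^ 7 * (1 - u) ^ 1) + (21311/400) * (u ^ 8 * (1 - u) ^ 0) := by ring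
  rw [e]
  positivity

lemma bd5 (x : ℂ) (hx : ‖x - 1 / 2‖ = 1 / 2) :
    (3 / 2) * ‖x‖ + (6 / 5) * ‖x‖ ^ 5 + 1 / 20 ≤ ‖F 5 x‖ := by
  have hr := circle_rel x hx
  have hn := circle_norm x hx
  have hN := normSq_F 5 x hr
  obtain ⟨hu0, hu1⟩ := unit_of_circle x hx
  have hc0 := norm_nonneg x
  have hF0 := norm_nonneg (F 5 x)
  have hc : ‖x‖ ≤ (1 + x.re) / 2 := by nlinarith [sq_nonneg (‖x‖ - 1)]
  have hck : ‖x‖ ^ 5 = x.re ^ 2 * ‖x‖ := by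
    rw [← hn]; ring
  simp only [pw, Finset.sum_range_succ, Finset.sum_range_zero] at hN
  refine le_of_sq_le_sq_aux ?_ hF0
  have hH := hp5 x.re hu0 hu1
  have hm : 0 ≤ x.re ^ 2 * ((1 + x.re) / 2 - ‖x‖) := mul_nonneg (pow_nonneg hu0 _) (by linarith)
  rw [hN, hck]

  have e2 : (3 / 2 * ‖x‖ + 6 / 5 * (x.re ^ 2 * ‖x‖) + 1 / 20) ^ 2 = 9 / 4 * x.re + 36 / 25 * x.re ^ 5
      + 1 / 400 + 3 / 20 * ‖x‖ + 18 / 5 * x.re ^ 3 + 3 / 25 * (x.re ^ 2 * ‖x‖) := by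
    linear_combination (9 / 4 + 18 / 5 * x.re ^ 2 + 36 / 25 * x.re ^ 4) * hn
  rw [e2]
  nlinarith [hH, hm, hc]


lemma hp6 (u : ℝ) (h0 : 0 ≤ u) (h1 : u ≤ 1) : 0 ≤ (369/400) * u ^ 0 + (147/40) * u ^ 1 + (1) * u ^ 2 + (-63/25) * u ^ 3 + (308/5) * u ^ 4 + (-281) * u ^ 5 + (1431/5) * u ^ 6 := by
  have h2 : 0 ≤ 1 - u := by linarith
  have e : (369/400) * u ^ 0 + (147/40) * u ^ 1 + (1) * u ^ 2 + (-63/25) * u ^ 3 + (308/5) * u ^ 4 + (-281) * u ^ 5 + (1431/5) * u ^ 6 = (369/400) * (u ^ 0 * (1 - u) ^ 12) + (2949/200) * (u ^ 1 * (1 - u) ^ 11) + (10231/100) * (u ^ 2 * (1 - u) ^ 10) + (82511/200) * (u ^ 3 * (1 - u) ^ 9) + (458773/400) * (u ^ 4 * (1 - u) ^ 8) + (43689/20) * (u ^ 5 * (1 - u) ^ 7) + (64814/25) * (u ^ 6 * (1 - u) ^ 6) + (6515/4) * (u ^ 7 * (1 - u) ^ 5) + (132747/400) * (u ^ 8 * (1 - u) ^ 4) + (11249/200)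 * (u ^ 9 * (1 - u) ^ 3) + (33409/100) * (u ^ 10 * (1 - u) ^ 2) + (56363/200) * (u ^ 11 * (1 - u) ^ 1) + (27951/400) * (u ^ 12 * (1 - u) ^ 0) := by ring
  rw [e]
  positivity

lemma bd6 (x : ℂ) (hx : ‖x - 1 / 2‖ = 1 / 2) :
    (3 / 2) * ‖x‖ + (6 / 5) * ‖x‖ ^ 6 + 1 / 20 ≤ ‖F 6 x‖ := by
  have hr := circle_rel x hx
  have hn := circle_norm x hx
  have hN := normSq_F 6 x hr
  obtain ⟨hu0, hu1⟩ := unit_of_circle x hx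
  have hc0 := norm_nonneg x
  have hF0 := norm_nonneg (F 6 x)
  have hc : ‖x‖ ≤ (1 + x.re) / 2 := by nlinarith [sq_nonneg (‖x‖ - 1)]
  have hck : ‖x‖ ^ 6 = x.re ^ 3 := by
    rw [← hn]; ring
  simp only [pw, Finset.sum_range_succ, Finset.sum_range_zero] at hN
  refine le_of_sq_le_sq_aux ?_ hF0
  have hH := hp6 x.re hu0 hu1
  have hm : 0 ≤ x.re ^ 3 * ((1 + x.re) / 2 - ‖x‖) := mul_nonneg (pow_nonneg hu0 _) (by linarith)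
  rw [hN, hck]

  have e2 : (3 / 2 * ‖x‖ + 6 / 5 * x.re ^ 3 + 1 / 20) ^ 2 = 9 / 4 * x.re + 36 / 25 * x.re ^ 6
      + 1 / 400 + 3 / 20 * ‖x‖ + 18 / 5 * (x.re ^ 3 * ‖x‖) + 3 / 25 * x.re ^ 3 := by
    linear_combination (9 / 4) * hn
  rw [e2]
  nlinarith [hH, hm, hc]


lemma hp7 (u : ℝ) (h0 : 0 ≤ u) (h1 : u ≤ 1) : 0 ≤ (369/400) * u ^ 0 + (147/40) * u ^ 1 + (1) * u ^ 2 + (47/50) * u ^ 3 + (-953/50) * u ^ 4 + (1159/5) * u ^ 5 + (-705) * u ^ 6 + (2871/5) * u ^ 7 := by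
  have h2 : 0 ≤ 1 - u := by linarith
  have e : (369/400) * u ^ 0 + (147/40) * u ^ 1 + (1) * u ^ 2 + (47/50) * u ^ 3 + (-953/50) * u ^ 4 + (1159/5) * u ^ 5 + (-705) * u ^ 6 + (2871/5) * u ^ 7 = (369/400) * (u ^ 0 * (1 - u) ^ 17) + (7743/400) * (u ^ 1 * (1 - u) ^ 16) + (9263/50) * (u ^ 2 * (1 - u) ^ 15) + (27106/25) * (u ^ 3 * (1 - u) ^ 14) + (87053/20) * (u ^ 4 * (1 - u) ^ 13) + (1292149/100) * (u ^ 5 * (1 - u) ^ 12) + (1488317/50) * (u ^ 6 * (1 - u) ^ 11) + (1349524/25) * (u ^ 7 * (1 - u) ^ 10) + (15137991/200) * (u ^ 8 * (1 - u) ^ 9) + (3148233/40) * (u ^ 9 * (1 - u) ^ 8) + (113553/2) * (u ^ 10 * (1 - u) ^ 7) + (625558/25) * (u ^ 11 * (1 - u) ^ 6) + (468949/100) * (u ^ 12 * (1 - u) ^ 5) + (23509/100) * (u ^ 13 * (1 - u) ^ 4) + (16063/10) * (u ^ 14 * (1 - u) ^ 3) + (40828/25) * (u ^ 15 * (1 - u) ^ 2) +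 (49877/80) * (u ^ 16 * (1 - u) ^ 1) + (35391/400) * (u ^ 17 * (1 - u) ^ 0) := by ring
  rw [e]
  positivity

lemma bd7 (x : ℂ) (hx : ‖x - 1 / 2‖ = 1 / 2) :
    (3 / 2) * ‖x‖ + (6 / 5) * ‖x‖ ^ 7 + 1 / 20 ≤ ‖F 7 x‖ := by
  have hr := circle_rel x hx
  have hn := circle_norm x hx
  have hN := normSq_F 7 x hr
  obtain ⟨hu0, hu1⟩ := unit_of_circle x hx
  have hc0 := norm_nonneg x
  have hF0 := norm_nonneg (F 7 x)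
  have hc : ‖x‖ ≤ (1 + x.re) / 2 := by nlinarith [sq_nonneg (‖x‖ - 1)]
  have hck : ‖x‖ ^ 7 = x.re ^ 3 * ‖x‖ := by
    rw [← hn]; ring
  simp only [pw, Finset.sum_range_succ, Finset.sum_range_zero] at hN
  refine le_of_sq_le_sq_aux ?_ hF0
  have hH := hp7 x.re hu0 hu1
  have hm : 0 ≤ x.re ^ 3 * ((1 + x.re) / 2 - ‖x‖) := mul_nonneg (pow_nonneg hu0 _) (by linarith)
  rw [hN, hck]

  have e2 : (3 / 2 * ‖x‖ + 6 / 5 * (x.re ^ 3 * ‖x‖) + 1 / 20) ^ 2 = 9 / 4 * x.re + 36 / 25 * x.re ^ 7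
      + 1 / 400 + 3 / 20 * ‖x‖ + 18 / 5 * x.re ^ 4 + 3 / 25 * (x.re ^ 3 * ‖x‖) := by
    linear_combination (9 / 4 + 18 / 5 * x.re ^ 3 + 36 / 25 * x.re ^ 6) * hn
  rw [e2]
  nlinarith [hH, hm, hc]


lemma hp8 (u : ℝ) (h0 : 0 ≤ u) (h1 : u ≤ 1) : 0 ≤ (369/400) * u ^ 0 + (147/40) * u ^ 1 + (1) * u ^ 2 + (1) * u ^ 3 + (17/25) * u ^ 4 + (-96) * u ^ 5 + (3723/5) * u ^ 6 + (-1697) * u ^ 7 + (5751/5) * u ^ 8 := by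
  have h2 : 0 ≤ 1 - u := by linarith
  have e : (369/400) * u ^ 0 + (147/40) * u ^ 1 + (1) * u ^ 2 + (1) * u ^ 3 + (17/25) * u ^ 4 + (-96) * u ^ 5 + (3723/5) * u ^ 6 + (-1697) * u ^ 7 + (5751/5) * u ^ 8 = (369/400) * (u ^ 0 * (1 - u) ^ 24) + (5163/200) * (u ^ 1 * (1 - u) ^ 23) + (68027/200) * (u ^ 2 * (1 - u) ^ 22) + (563983/200) * (u ^ 3 * (1 - u) ^ 21) + (1656359/100) * (u ^ 4 * (1 - u) ^ 20) + (14683933/200) * (u ^ 5 * (1 - u) ^ 19) + (51103937/200) * (u ^ 6 * (1 - u) ^ 18) + (143729033/200) * (u ^ 7 * (1 - u) ^ 17) + (668352629/400) * (u ^ 8 * (1 - u) ^ 16) + (326653591/100) * (u ^ 9 * (1 - u) ^ 15) + (542109071/100) * (u ^ 10 * (1 - u) ^ 14) + (764107179/100) * (u ^ 11 * (1 - u) ^ 13) + (226688514/25) * (u ^ 12 * (1 - u) ^ 12) + (890622029/100) * (u ^ 13 * (1 - u) ^ 11) + (706016169/100) * (u ^ 14 *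 (1 - u) ^ 10) + (435329049/100) * (u ^ 15 * (1 - u) ^ 9) + (785853739/400) * (u ^ 16 * (1 - u) ^ 8) + (114740983/200) * (u ^ 17 * (1 - u) ^ 7) + (15438167/200) * (u ^ 18 * (1 - u) ^ 6) + (1315627/200) * (u ^ 19 * (1 - u) ^ 5) + (1982321/100) * (u ^ 20 * (1 - u) ^ 4) + (3348473/200) * (u ^ 21 * (1 - u) ^ 3) + (1298877/200) * (u ^ 22 * (1 - u) ^ 2) + (259253/200) * (u ^ 23 * (1 - u) ^ 1) + (43631/400) * (u ^ 24 * (1 - u) ^ 0) := by ring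
  rw [e]
  positivity

lemma bd8 (x : ℂ) (hx : ‖x - 1 / 2‖ = 1 / 2) :
    (3 / 2) * ‖x‖ + (6 / 5) * ‖x‖ ^ 8 + 1 / 20 ≤ ‖F 8 x‖ := by
  have hr := circle_rel x hx
  have hn := circle_norm x hx
  have hN := normSq_F 8 x hr
  obtain ⟨hu0, hu1⟩ := unit_of_circle x hx
  have hc0 := norm_nonneg x
  have hF0 := norm_nonneg (F 8 x)
  have hc : ‖x‖ ≤ (1 + x.re) / 2 := by nlinarith [sq_nonneg (‖x‖ - 1)]
  have hck : ‖x‖ ^ 8 = x.re ^ 4 := by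
    rw [← hn]; ring
  simp only [pw, Finset.sum_range_succ, Finset.sum_range_zero] at hN
  refine le_of_sq_le_sq_aux ?_ hF0
  have hH := hp8 x.re hu0 hu1
  have hm : 0 ≤ x.re ^ 4 * ((1 + x.re) / 2 - ‖x‖) := mul_nonneg (pow_nonneg hu0 _) (by linarith)
  rw [hN, hck]

  have e2 : (3 / 2 * ‖x‖ + 6 / 5 * x.re ^ 4 + 1 / 20) ^ 2 = 9 / 4 * x.re + 36 / 25 * x.re ^ 8
      + 1 / 400 + 3 / 20 * ‖x‖ + 18 / 5 * (x.re ^ 4 * ‖x‖) + 3 / 25 * x.re ^ 4 := by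
    linear_combination (9 / 4) * hn
  rw [e2]
  nlinarith [hH, hm, hc]

end Pool.Agent.Helper8.BM
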