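import Pool.Agent.Helper8.BM.Borel

set_option autoImplicit false
set_option maxHeartbeats 4000000

namespace Pool.Agent.Helper8.BM

open Complex MeasureTheory Metric Set Filter Topology

lemma integrable_hasSum {μ : Measure ℝ} {F : ℕ → ℝ → ℂ} {G : ℝ → ℂ}
    (hF : ∀ i, Integrable (F i) μ) (hsum : Summable (fun i => ∫ t, ‖F i t‖ ∂μ))
    (hG : ∀ᵐ t ∂μ, HasSum (fun i => F i t) (G t)) :
    Integrable G μ ∧ HasSum (fun i => ∫ t, F i t ∂μ) (∫ t, G t ∂μ) := by
  have hlin : ∑' i, ∫⁻ t, ‖F i t‖ₑ ∂μ ≠ ⊤ := by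
    have (i : ℕ) : ∫⁻ a, ‖F i a‖ₑ ∂μ = ‖∫ a, ‖F i a‖ ∂μ‖ₑ := by
      dsimp [enorm]
      rw [lintegral_coe_eq_integral _ (hF i).norm, ENNReal.coe_nnreal_eq, coe_nnnorm,
        Real.norm_of_nonneg (integral_nonneg (fun a ↦ norm_nonneg (F i a)))]
      simp only [coe_nnnorm]
    rw [funext this]
    exact ENNReal.tsum_coe_ne_top_iff_summable.2 <| NNReal.summable_coe.1 hsum.abs
  have hae : G =ᵐ[μ] fun t => ∑' i, F i t := by
    filter_upwards [hG] with t ht
    exact ht.tsum_eq.symm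
  constructor
  · refine ⟨?_, ?_⟩
    · apply aestronglyMeasurable_of_tendsto_ae (u := atTop)
        (f := fun n t => ∑ i ∈ Finset.range n, F i t)
      · intro n
        exact Finset.aestronglyMeasurable_fun_sum _ (fun i _ => (hF i).1)
      · filter_upwards [hG] with t ht
        exact ht.tendsto_sum_nat
    · unfold HasFiniteIntegral
      calc ∫⁻ t, ‖G t‖ₑ ∂μ = ∫⁻ t, ‖∑' i, F i t‖ₑ ∂μ := by
            apply lintegral_congr_ae
            filter_upwards [hae] with t ht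
            rw [ht]
        _ ≤ ∫⁻ t, ∑' i, ‖F i t‖ₑ ∂μ := by
            apply lintegral_mono
            intro t
            exact enorm_tsum_le_tsum_enorm
        _ = ∑' i, ∫⁻ t, ‖F i t‖ₑ ∂μ := lintegral_tsum (fun i => (hF i).1.enorm)
        _ < ⊤ := lt_top_iff_ne_top.mpr hlin
  · have := hasSum_integral_of_summable_integral_norm hF hsum
    rwa [← integral_congr_ae hae] at this

/-- the radius of the `N`-th contour -/
noncomputable def RR (N : ℕ) : ℝ := 1 / 2 + eta N / 2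

lemma RR_gt (N : ℕ) : 1 / 2 < RR N := by
  unfold RR; linarith [eta_pos N]

lemma RR_lt (N : ℕ) : RR N < 1 / 2 + eta N := by
  unfold RR; linarith [eta_pos N]

lemma RR_anti {M N : ℕ} (h : M ≤ N) : RR N ≤ RR M := by
  unfold RR; linarith [eta_anti h]

lemma sphere_sub_Ux {M N : ℕ} (h : M ≤ N) : sphere (1 / 2 : ℂ) (RR N) ⊆ Ux M :=
  sphere_subset_closedBall.trans ((closedBall_subset_ball (RR_lt N)).trans (Ux_anti h))

/-- the values of the contour integral do not depend on the contour -/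
lemma Lam_indep {f : ℂ → ℂ} {M N : ℕ} (h : M ≤ N) (hf : DifferentiableOn ℂ f (Ux M)) (t : ℝ) :
    Lam (RR N) f t = Lam (RR M) f t := by
  have h1 := Lam_hasSum (RR_gt N) (hf.continuousOn.mono (sphere_sub_Ux h)) t
  have h2 := Lam_hasSum (RR_gt M) (hf.continuousOn.mono (sphere_sub_Ux le_rfl)) t
  have e : ∀ n, cI (1 / 2) (RR N) n f = cI (1 / 2) (RR M) n f := by
    intro n
    rw [cI_eq_dsl (1 / 2) (RR N) (1 / 2 + eta M)
        (lt_of_le_of_lt (RR_anti h) (RR_lt M)) (zero_mem_ball (RR_gt N)) n f hf,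
      cI_eq_dsl (1 / 2) (RR M) (1 / 2 + eta M) (RR_lt M) (zero_mem_ball (RR_gt M)) n f hf]
  simp only [e] at h1
  exact h1.unique h2

lemma Lam_hasSum_dsl {f : ℂ → ℂ} {M : ℕ} (hf : DifferentiableOn ℂ f (Ux M)) (t : ℝ) :
    HasSum (fun n : ℕ => dsl n f * t ^ n / (n.factorial : ℂ)) (Lam (RR M) f t) := by
  have h2 := Lam_hasSum (RR_gt M) (hf.continuousOn.mono (sphere_sub_Ux le_rfl)) t
  simpa only [cI_eq_dsl (1 / 2) (RR M) (1 / 2 + eta M) (RR_lt M) (zero_mem_ball (RR_gt M)) _ f hf]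
    using h2

/-- the bound for the differences -/
noncomputable def BN (M : ℝ) (N : ℕ) : ℝ := kap ^ N * M + N * ((1 / 2) ^ (N + 1) * M)

lemma BN_nonneg {M : ℝ} (hM : 0 ≤ M) (N : ℕ) : 0 ≤ BN M N := by
  unfold BN
  have := kap_pos
  positivity

/-- weight for the integrals -/
noncomputable def WN (N : ℕ) : ℝ := 8000000 * ((N : ℝ) + 2) ^ 4

lemma summable_W (r : ℝ) (h0 : 0 < r) (h1 : r < 1) : Summable (fun N : ℕ => WN N * r ^ N) := by
  have h2 : ‖r‖ < 1 := by rwa [Real.norm_of_nonneg h0.le]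
  have s4 := summable_pow_mul_geometric_of_norm_lt_one 4 h2
  have s3 := summable_pow_mul_geometric_of_norm_lt_one 3 h2
  have s2 := summable_pow_mul_geometric_of_norm_lt_one 2 h2
  have s1 := summable_pow_mul_geometric_of_norm_lt_one 1 h2
  have s0 := summable_pow_mul_geometric_of_norm_lt_one 0 h2
  have := ((((s4.add (s3.mul_left 8)).add (s2.mul_left 24)).add (s1.mul_left 32)).add
    (s0.mul_left 16)).mul_left 8000000
  refine this.congr (fun N => ?_)
  unfold WN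
  ring

lemma summable_WB (M : ℝ) (hM : 0 ≤ M) : Summable (fun N : ℕ => WN N * BN M N) := by
  have h1 := (summable_W kap kap_pos kap_lt_one).mul_right M
  have h2 := (summable_W (3 / 4) (by norm_num) (by norm_num)).mul_right M
  have h3 := h1.add h2
  refine Summable.of_nonneg_of_le (fun N => ?_) (fun N => ?_) h3
  · have := BN_nonneg hM N
    unfold WN
    positivity
  · have hb : (N : ℝ) * (1 / 2) ^ (N + 1) ≤ (3 / 4) ^ N := by
      have hN : (N : ℝ) ≤ 2 * (3 / 2) ^ N := by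
        have := one_add_mul_le_pow (a := (1 / 2 : ℝ)) (by norm_num) N
        have h' : (1 + 1 / 2 : ℝ) = 3 / 2 := by norm_num
        rw [h'] at this
        linarith
      calc (N : ℝ) * (1 / 2) ^ (N + 1) ≤ (2 * (3 / 2) ^ N) * (1 / 2) ^ (N + 1) := by gcongr
        _ = ((3 / 2) * (1 / 2)) ^ N := by rw [mul_pow]; ring
        _ = (3 / 4) ^ N := by norm_num
    have hW : 0 ≤ WN N := by unfold WN; positivity
    unfold BN
    calc WN N * (kap ^ N * M + N * ((1 / 2) ^ (N + 1) * M))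
        = WN N * kap ^ N * M + WN N * ((N : ℝ) * (1 / 2) ^ (N + 1)) * M := by ring
      _ ≤ WN N * kap ^ N * M + WN N * ((3 / 4) ^ N) * M := by gcongr

lemma summable_B (M : ℝ) (hM : 0 ≤ M) : Summable (fun N : ℕ => BN M N) := by
  refine Summable.of_nonneg_of_le (fun N => BN_nonneg hM N) (fun N => ?_) (summable_WB M hM)
  have hW : 1 ≤ WN N := by
    unfold WN
    have : (1 : ℝ) ≤ ((N : ℝ) + 2) ^ 4 := one_le_pow₀ (by linarith [Nat.cast_nonneg (α := ℝ) N])
    linarith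
  nlinarith [BN_nonneg hM N]

lemma RR_sub_half (N : ℕ) : RR (N + 1) - 1 / 2 = 1 / (2000 * ((N : ℝ) + 2) ^ 2) := by
  unfold RR eta
  have h : ((N : ℝ) + 2) ≠ 0 := by positivity
  push_cast
  rw [show (N : ℝ) + 1 + 1 = N + 2 by ring]
  field_simp
  ring

lemma RR_le_one (N : ℕ) : RR N ≤ 1 := by
  unfold RR eta
  have h1 : (1 : ℝ) ≤ ((N : ℝ) + 1) ^ 2 := one_le_pow₀ (by linarith [Nat.cast_nonneg (α := ℝ) N])
  have h2 : 1 / (1000 * ((N : ℝ) + 1) ^ 2) ≤ 1 := by
    rw [div_le_one (by positivity)]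
    linarith
  linarith

lemma W_bound1 (N : ℕ) : RR (N + 1) * (RR (N + 1) - 1 / 2)⁻¹ ≤ WN N := by
  rw [RR_sub_half, one_div, inv_inv]
  have h1 := RR_le_one (N + 1)
  have h2 : (1 : ℝ) ≤ ((N : ℝ) + 2) ^ 2 := one_le_pow₀ (by linarith [Nat.cast_nonneg (α := ℝ) N])
  have h3 := RR_gt (N + 1)
  unfold WN
  have h4 : ((N : ℝ) + 2) ^ 4 = ((N : ℝ) + 2) ^ 2 * ((N : ℝ) + 2) ^ 2 := by ring
  rw [h4]
  nlinarith

lemma W_bound2 (N : ℕ) :
    RR (N + 1) * (RR (N + 1) - 1 / 2)⁻¹ * (1 - 1 / (1 / 2 + RR (N + 1)))⁻¹ ≤ WN N := by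
  have h1 := RR_le_one (N + 1)
  have h3 := RR_gt (N + 1)
  have h5 : 1 - 1 / (1 / 2 + RR (N + 1)) = (RR (N + 1) - 1 / 2) * (RR (N + 1) + 1 / 2)⁻¹ := by
    have : (1 / 2 + RR (N + 1)) ≠ 0 := by linarith
    have : (RR (N + 1) + 1 / 2) ≠ 0 := by linarith
    field_simp
    ring
  rw [h5, mul_inv, inv_inv, RR_sub_half, one_div, inv_inv]
  have h2 : (0 : ℝ) < ((N : ℝ) + 2) ^ 2 := by positivity
  unfold WN
  have h4 : ((N : ℝ) + 2) ^ 4 = ((N : ℝ) + 2) ^ 2 * ((N : ℝ) + 2) ^ 2 := by ring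
  rw [h4]
  have h6 : RR (N + 1) * (RR (N + 1) + 1 / 2) ≤ 2 := by nlinarith
  calc RR (N + 1) * (2000 * ((N : ℝ) + 2) ^ 2) * (2000 * ((N : ℝ) + 2) ^ 2 * (RR (N + 1) + 1 / 2))
      = (RR (N + 1) * (RR (N + 1) + 1 / 2)) * (4000000 * (((N : ℝ) + 2) ^ 2 * ((N : ℝ) + 2) ^ 2)) := by
        ring
    _ ≤ 2 * (4000000 * (((N : ℝ) + 2) ^ 2 * ((N : ℝ) + 2) ^ 2)) := by gcongr
    _ = _ := by ring

/-- Borel summation of the limit of the sequence `f N`. -/
theorem borel_sum (f : ℕ → ℂ → ℂ) (q : ℕ → ℂ) (M : ℝ) (hM0 : 0 ≤ M)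
    (hdiff : ∀ N, DifferentiableOn ℂ (f N) (Ux N))
    (hsub : ∀ N, ∀ x ∈ Ux (N + 1), ‖f (N + 1) x - f N x‖ ≤ BN M N)
    (ε : ℕ → ℝ) (hε : Tendsto ε atTop (𝓝 0))
    (hdsl : ∀ N n, ‖dsl n (f N) - q n‖ ≤ 20 ^ n * ε N)
    (m : ℂ) (hm : Tendsto (fun N => f N 1) atTop (𝓝 m)) :
    (∀ t : ℝ, Summable fun n : ℕ => q n * t ^ n / (n.factorial : ℂ)) ∧
    IntegrableOn (fun t : ℝ => (∑' n : ℕ, q n * t ^ n / (n.factorial : ℂ)) * (Real.exp (-t) : ℂ))
      (Ioi 0) ∧
    ∫ t in Ioi (0 : ℝ), (∑' n : ℕ, q n * t ^ n / (n.factorial : ℂ)) * (Real.exp (-t) : ℂ) = m := by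
  -- series in `n`
  have hexp : ∀ (t : ℝ) (N : ℕ), HasSum (fun n : ℕ => ε N * ((20 * |t|) ^ n / (n.factorial : ℝ)))
      (ε N * Real.exp (20 * |t|)) := by
    intro t N
    have h := NormedSpace.expSeries_div_hasSum_exp (𝔸 := ℝ) (20 * |t|)
    rw [← Real.exp_eq_exp_ℝ] at h
    exact h.mul_left _
  have hterm : ∀ (t : ℝ) (N n : ℕ), ‖q n * t ^ n / (n.factorial : ℂ)
      - dsl n (f N) * t ^ n / (n.factorial : ℂ)‖
      ≤ ε N * ((20 * |t|) ^ n / (n.factorial : ℝ)) := by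
    intro t N n
    rw [← sub_div, ← sub_mul, norm_div, norm_mul, norm_pow, Complex.norm_real, Real.norm_eq_abs,
      Complex.norm_natCast, norm_sub_rev, mul_pow]
    calc ‖dsl n (f N) - q n‖ * |t| ^ n / (n.factorial : ℝ)
        ≤ (20 ^ n * ε N) * |t| ^ n / (n.factorial : ℝ) := by
          gcongr
          exact hdsl N n
      _ = _ := by ring
  have hsumq : ∀ t : ℝ, Summable fun n : ℕ => q n * t ^ n / (n.factorial : ℂ) := by
    intro t
    have h1 : Summable (fun n : ℕ => q n * t ^ n / (n.factorial : ℂ)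
      - dsl n (f 0) * t ^ n / (n.factorial : ℂ)) :=
      Summable.of_norm_bounded (hexp t 0).summable (hterm t 0)
    have h2 := (Lam_hasSum_dsl (hdiff 0) t).summable
    have := h1.add h2
    simpa using this
  set L : ℕ → ℝ → ℂ := fun N t => Lam (RR N) (f N) t with hL
  set Λ : ℝ → ℂ := fun t => ∑' n : ℕ, q n * t ^ n / (n.factorial : ℂ) with hΛ
  have hLlim : ∀ t : ℝ, Tendsto (fun N => L N t) atTop (𝓝 (Λ t)) := by
    intro t
    have hb : ∀ N, ‖Λ t - L N t‖ ≤ ε N * Real.exp (20 * |t|) := by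
      intro N
      have h1 := (hsumq t).hasSum.sub (Lam_hasSum_dsl (hdiff N) t)
      exact h1.norm_le_of_bounded (hexp t N) (hterm t N)
    have h0 : Tendsto (fun N => ε N * Real.exp (20 * |t|)) atTop (𝓝 0) := by
      simpa using hε.mul_const (Real.exp (20 * |t|))
    have h1 : Tendsto (fun N => Λ t - L N t) atTop (𝓝 0) := squeeze_zero_norm hb h0
    have h2 := h1.const_sub (Λ t)
    simpa using h2
  -- the difference
  set F : ℕ → ℝ → ℂ := fun N t => (L (N + 1) t - L N t) * (Real.exp (-t) : ℂ) with hF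
  have hsub' : ∀ N, sphere (1 / 2 : ℂ) (RR (N + 1)) ⊆ Ux (N + 1) := fun N => sphere_sub_Ux le_rfl
  have hcont1 : ∀ N, ContinuousOn (f (N + 1)) (sphere (1 / 2 : ℂ) (RR (N + 1))) := fun N =>
    (hdiff (N + 1)).continuousOn.mono (sphere_sub_Ux le_rfl)
  have hcont2 : ∀ N, ContinuousOn (f N) (sphere (1 / 2 : ℂ) (RR (N + 1))) := fun N =>
    (hdiff N).continuousOn.mono (sphere_sub_Ux (Nat.le_succ N))
  have hFeq : ∀ N t, L (N + 1) t - L N t
      = Lam (RR (N + 1)) (fun z => f (N + 1) z - f N z) t := by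
    intro N t
    rw [Lam_sub (RR_gt (N + 1)) (hcont1 N) (hcont2 N)]
    simp only [hL]
    rw [Lam_indep (Nat.le_succ N) (hdiff N) t]
  have hbound : ∀ N, ∀ t : ℝ, 0 ≤ t → ‖L (N + 1) t - L N t‖ ≤
      RR (N + 1) * ((RR (N + 1) - 1 / 2)⁻¹ * Real.exp (t / (1 / 2 + RR (N + 1))) * BN M N) := by
    intro N t ht
    rw [hFeq]
    exact Lam_bound (RR_gt (N + 1)) (fun z hz => hsub N z (hsub' N hz)) t ht
  have hFint : ∀ N, IntegrableOn (F N) (Ioi 0) := by
    intro N
    have := Lam_integrable (RR_gt (N + 1)) ((hcont1 N).sub (hcont2 N))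
    refine this.congr (Eventually.of_forall (fun t => ?_))
    simp only [hF]
    rw [hFeq]
    rfl
  have hFnorm : ∀ N, ∫ t in Ioi (0 : ℝ), ‖F N t‖ ≤ WN N * BN M N := by
    intro N
    have hR := RR_gt (N + 1)
    have hB := BN_nonneg hM0 N
    have hδ : 0 < 1 - 1 / (1 / 2 + RR (N + 1)) := by
      rw [sub_pos, div_lt_one (by linarith)]
      linarith
    have hg : IntegrableOn (fun t : ℝ => Real.exp (-(1 - 1 / (1 / 2 + RR (N + 1))) * t))
        (Ioi (0 : ℝ)) := integrableOn_exp_mul_Ioi (by linarith) 0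
    calc ∫ t in Ioi (0 : ℝ), ‖F N t‖
        ≤ ∫ t in Ioi (0 : ℝ), (RR (N + 1) * (RR (N + 1) - 1 / 2)⁻¹ * BN M N) *
          Real.exp (-(1 - 1 / (1 / 2 + RR (N + 1))) * t) := by
          apply setIntegral_mono_on (hFint N).norm (hg.const_mul _) measurableSet_Ioi
          intro t ht
          simp only [hF]
          rw [norm_mul, Complex.norm_real, Real.norm_of_nonneg (Real.exp_pos _).le]
          calc _ ≤ RR (N + 1) * ((RR (N + 1) - 1 / 2)⁻¹ *
                Real.exp (t / (1 / 2 + RR (N + 1))) * BN M N) * Real.exp (-t) := by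
                gcongr
                exact hbound N t (le_of_lt ht)
            _ = (RR (N + 1) * (RR (N + 1) - 1 / 2)⁻¹ * BN M N) *
                (Real.exp (t / (1 / 2 + RR (N + 1))) * Real.exp (-t)) := by ring
            _ = _ := by
                rw [← Real.exp_add]
                congr 2
                ring
      _ = (RR (N + 1) * (RR (N + 1) - 1 / 2)⁻¹ * (1 - 1 / (1 / 2 + RR (N + 1)))⁻¹) * BN M N := by
          rw [integral_const_mul, integral_exp_mul_Ioi (by linarith)]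
          rw [mul_zero, Real.exp_zero]
          have h9 : (1 - 1 / (1 / 2 + RR (N + 1))) ≠ 0 := hδ.ne'
          rw [neg_div_neg_eq, one_div (1 - 1 / (1 / 2 + RR (N + 1)))]
          ring
      _ ≤ WN N * BN M N := by
          gcongr
          exact W_bound2 N
  have hFsum : Summable (fun N => ∫ t in Ioi (0 : ℝ), ‖F N t‖) :=
    Summable.of_nonneg_of_le (fun N => integral_nonneg (fun t => norm_nonneg _)) hFnorm
      (summable_WB M hM0)
  have hHas : ∀ t : ℝ, 0 ≤ t → HasSum (fun N => F N t) ((Λ t - L 0 t) * (Real.exp (-t) : ℂ)) := by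
    intro t ht
    apply HasSum.mul_right
    have hs : Summable (fun N => L (N + 1) t - L N t) := by
      refine Summable.of_norm_bounded ((summable_WB M hM0).mul_left (Real.exp t)) (fun N => ?_)
      have hR := RR_gt (N + 1)
      have hB := BN_nonneg hM0 N
      have he : Real.exp (t / (1 / 2 + RR (N + 1))) ≤ Real.exp t := by
        apply Real.exp_le_exp.mpr
        exact div_le_self ht (by linarith)
      have hi : 0 ≤ (RR (N + 1) - 1 / 2)⁻¹ := by
        apply inv_nonneg.mpr; linarith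
      calc _ ≤ _ := hbound N t ht
        _ ≤ RR (N + 1) * ((RR (N + 1) - 1 / 2)⁻¹ * Real.exp t * BN M N) := by gcongr
        _ = Real.exp t * ((RR (N + 1) * (RR (N + 1) - 1 / 2)⁻¹) * BN M N) := by ring
        _ ≤ Real.exp t * (WN N * BN M N) := by
            gcongr
            exact W_bound1 N
    rw [hs.hasSum_iff_tendsto_nat]
    simp_rw [Finset.sum_range_sub (fun N => L N t)]
    exact (hLlim t).sub_const _
  obtain ⟨hI, hS⟩ := integrable_hasSum (μ := volume.restrict (Ioi (0 : ℝ)))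
    (G := fun t => (Λ t - L 0 t) * (Real.exp (-t) : ℂ)) hFint hFsum
    (by
      rw [ae_restrict_iff' measurableSet_Ioi]
      exact Eventually.of_forall (fun t ht => hHas t (le_of_lt ht)))
  have hL0 : IntegrableOn (fun t : ℝ => L 0 t * (Real.exp (-t) : ℂ)) (Ioi 0) :=
    Lam_integrable (RR_gt 0) ((hdiff 0).continuousOn.mono (sphere_sub_Ux le_rfl))
  have hLN : ∀ N, ∫ t in Ioi (0 : ℝ), L N t * (Real.exp (-t) : ℂ) = f N 1 := fun N =>
    Lam_integral (RR_gt N) (RR_lt N) (hdiff N)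
  have hLNi : ∀ N, IntegrableOn (fun t : ℝ => L N t * (Real.exp (-t) : ℂ)) (Ioi 0) := fun N =>
    Lam_integrable (RR_gt N) ((hdiff N).continuousOn.mono (sphere_sub_Ux le_rfl))
  have hFI : ∀ N, ∫ t in Ioi (0 : ℝ), F N t = f (N + 1) 1 - f N 1 := by
    intro N
    rw [← hLN, ← hLN, ← integral_sub (hLNi (N + 1)) (hLNi N)]
    congr 1
    ext t
    simp only [hF]
    ring
  have hΛI : IntegrableOn (fun t : ℝ => Λ t * (Real.exp (-t) : ℂ)) (Ioi 0) := by
    have := hI.add hL0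
    refine this.congr (Eventually.of_forall (fun t => ?_))
    simp only [Pi.add_apply]
    ring
  refine ⟨hsumq, hΛI, ?_⟩
  have hlim2 : HasSum (fun N => ∫ t in Ioi (0 : ℝ), F N t) (m - f 0 1) := by
    rw [hS.summable.hasSum_iff_tendsto_nat]
    simp_rw [hFI]
    simp_rw [Finset.sum_range_sub (fun N => f N 1)]
    exact hm.sub_const _
  have hfin := hS.unique hlim2
  have e : ∫ t in Ioi (0 : ℝ), (Λ t - L 0 t) * (Real.exp (-t) : ℂ)
      = (∫ t in Ioi (0 : ℝ), Λ t * (Real.exp (-t) : ℂ)) - f 0 1 := by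
    rw [← hLN 0, ← integral_sub hΛI hL0]
    congr 1
    ext t
    ring
  rw [e] at hfin
  linear_combination hfin

end Pool.Agent.Helper8.BM
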